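import Mathlib

set_option autoImplicit false
set_option linter.unusedSectionVars false

namespace Pool.Agent.Helper156.OF

variable {ι P : Type} [DecidableEq ι] [Group P]

/-- Product of a family over a finite set, in some order. -/
noncomputable def cprod (f : ι → P) (s : Finset ι) : P := (s.toList.map f).prod

@[simp] lemma cprod_empty (f : ι → P) : cprod f ∅ = 1 := by simp [cprod]

@[simp] lemma cprod_singleton (f : ι → P) (x : ι) : cprod f {x} = f x := by simp [cprod]

lemma cprod_congr {f g : ι → P} {s : Finset ι} (h : ∀ x ∈ s, f x = g x) :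
    cprod f s = cprod g s := by
  unfold cprod
  congr 1
  apply List.map_congr_left
  intro x hx
  exact h x (Finset.mem_toList.1 hx)

lemma cprod_commute {f : ι → P} {s : Finset ι} {y : P} (h : ∀ x ∈ s, Commute y (f x)) :
    Commute y (cprod f s) := by
  unfold cprod
  apply Commute.list_prod_right
  intro x hx
  obtain ⟨z, hz, rfl⟩ := List.mem_map.1 hx
  exact h z (Finset.mem_toList.1 hz)

lemma cprod_commute' {f : ι → P} {s : Finset ι} {y : P} (h : ∀ x ∈ s, Commute (f x) y) :
    Commute (cprod f s) y := (cprod_commute fun x hx => (h x hx).symm).symm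

/-- Pairwise commuting families. -/
def PC (f : ι → P) : Prop := ∀ x y, Commute (f x) (f y)

lemma cprod_insert {f : ι → P} (hf : PC f) {s : Finset ι} {x : ι} (hx : x ∉ s) :
    cprod f (insert x s) = f x * cprod f s := by
  unfold cprod
  have h := (Finset.toList_insert hx).map f
  rw [List.map_cons] at h
  rw [h.prod_eq' ?_]
  · simp
  · rw [List.pairwise_map]
    exact List.Pairwise.imp (fun _ => hf _ _) (List.pairwise_of_forall (R := fun _ _ => True)
      (fun _ _ => trivial))

lemma cprod_union {f : ι → P} (hf : PC f) {s t : Finset ι} (h : Disjoint s t) :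
    cprod f (s ∪ t) = cprod f s * cprod f t := by
  induction s using Finset.induction_on with
  | empty => simp
  | insert x s hx ih =>
    rw [Finset.disjoint_insert_left] at h
    rw [Finset.insert_union, cprod_insert hf, cprod_insert hf hx, ih h.2, mul_assoc]
    simp [hx, h.1]

lemma cprod_inv {f : ι → P} (hf : PC f) (s : Finset ι) :
    (cprod f s)⁻¹ = cprod (fun x => (f x)⁻¹) s := by
  have hf' : PC (fun x => (f x)⁻¹) := fun x y => (hf x y).inv_inv
  induction s using Finset.induction_on with
  | empty => simp
  | insert x s hx ih =>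
    rw [cprod_insert hf hx, cprod_insert hf' hx, ← ih, mul_inv_rev]
    exact ((cprod_commute fun y _ => hf x y).inv_inv).symm.eq

lemma conj_cprod (p : P) (f : ι → P) (s : Finset ι) :
    p * cprod f s * p⁻¹ = cprod (fun x => p * f x * p⁻¹) s := by
  have := map_list_prod (MulAut.conj p).toMonoidHom (s.toList.map f)
  simp only [MulEquiv.coe_toMonoidHom, MulAut.conj_apply, List.map_map] at this
  exact this

lemma cprod_erase {f : ι → P} (hf : PC f) {s : Finset ι} {x : ι} (hx : x ∈ s) :
    cprod f s = f x * cprod f (s.erase x) := by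
  conv_lhs => rw [← Finset.insert_erase hx]
  exact cprod_insert hf (Finset.notMem_erase x s)

lemma cprod_erase_one {f : ι → P} (hf : PC f) {s : Finset ι} {x : ι} (hx : f x = 1) :
    cprod f (s.erase x) = cprod f s := by
  by_cases h : x ∈ s
  · rw [cprod_erase hf h, hx, one_mul]
  · rw [Finset.erase_eq_of_notMem h]

lemma cprod_insert_one {f : ι → P} (hf : PC f) {s : Finset ι} {x : ι} (hx : f x = 1) :
    cprod f (insert x s) = cprod f s := by
  by_cases h : x ∈ s
  · rw [Finset.insert_eq_of_mem h]
  · rw [cprod_insert hf h, hx, one_mul]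

lemma cprod_eq_one {f : ι → P} {s : Finset ι} (h : ∀ x ∈ s, f x = 1) : cprod f s = 1 := by
  unfold cprod
  apply List.prod_eq_one
  intro x hx
  obtain ⟨z, hz, rfl⟩ := List.mem_map.1 hx
  exact h z (Finset.mem_toList.1 hz)

/-- Reindexing by an injective map. -/
lemma cprod_image {κ : Type} [DecidableEq κ] {f : κ → P} (hf : PC f) (s : Finset ι) (e : ι → κ)
    (he : Function.Injective e) : cprod f (s.image e) = cprod (fun x => f (e x)) s := by
  have hf' : PC (fun x => f (e x)) := fun x y => hf _ _
  induction s using Finset.induction_on with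
  | empty => simp
  | insert x s hx ih =>
    rw [Finset.image_insert, cprod_insert hf, cprod_insert hf' hx, ih]
    intro h
    obtain ⟨y, hy, hxy⟩ := Finset.mem_image.1 h
    exact hx (he hxy ▸ hy)

lemma map_cprod {P' : Type} [Group P'] (φ : P →* P') (f : ι → P) (s : Finset ι) :
    φ (cprod f s) = cprod (fun x => φ (f x)) s := by
  unfold cprod
  rw [map_list_prod, List.map_map]
  rfl

end Pool.Agent.Helper156.OF
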