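import Pool.Agent.Helper156.OF.Defs

set_option autoImplicit false
set_option linter.unusedSectionVars false
set_option linter.unusedSimpArgs false

namespace Pool.Agent.Helper156.OF



/-- Consecutive half-edges of a path: the path starts at the half-edge `p` (or at the base point
`none`), follows the word, and ends at the base point. -/
def turns {α : Type} : Option (Lt α) → List (Lt α) → List (Option (Lt α) × Option (Lt α))
  | p, [] => [(p, none)]
  | p, y :: ys => (p, some (nv y)) :: turns (some y) ys

/-- The number of turns of the word `w` separated by the set `A`. -/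
def cut {α : Type} [DecidableEq α] (A : Finset (Option (Lt α))) (w : List (Lt α)) : ℕ :=
  (turns none w).countP (fun t => decide (¬ (t.1 ∈ A ↔ t.2 ∈ A)))

/-- The number of occurrences of `a` and `a⁻¹` in `w`. -/
def occ {α : Type} [DecidableEq α] (a : Lt α) (w : List (Lt α)) : ℕ :=
  w.countP (fun y => decide (y.1 = a.1))

section aux

variable {α : Type} [DecidableEq α]

/-- Auxiliary result 1. -/
theorem cut_compl [Fintype α] (A : Finset (Option (Lt α))) (w : List (Lt α)) :
    cut Aᶜ w = cut A w := by
  unfold cut
  congr 1
  funext t
  simp only [Finset.mem_compl, not_iff_not]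

lemma countP_submod (A B : Finset (Option (Lt α))) (l : List (Option (Lt α) × Option (Lt α))) :
    l.countP (fun t => decide (¬ (t.1 ∈ A ∩ B ↔ t.2 ∈ A ∩ B))) +
      l.countP (fun t => decide (¬ (t.1 ∈ A ∪ B ↔ t.2 ∈ A ∪ B))) ≤
    l.countP (fun t => decide (¬ (t.1 ∈ A ↔ t.2 ∈ A))) +
      l.countP (fun t => decide (¬ (t.1 ∈ B ↔ t.2 ∈ B))) := by
  induction l with
  | nil => simp
  | cons t l ih =>
    simp only [List.countP_cons]
    have key : (if decide (¬ (t.1 ∈ A ∩ B ↔ t.2 ∈ A ∩ B)) = true then 1 else 0) +
        (if decide (¬ (t.1 ∈ A ∪ B ↔ t.2 ∈ A ∪ B)) = true then 1 else 0) ≤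
        (if decide (¬ (t.1 ∈ A ↔ t.2 ∈ A)) = true then 1 else 0) +
        (if decide (¬ (t.1 ∈ B ↔ t.2 ∈ B)) = true then 1 else 0) := by
      simp only [Finset.mem_inter, Finset.mem_union, decide_eq_true_eq]
      by_cases h1 : t.1 ∈ A <;> by_cases h2 : t.2 ∈ A <;> by_cases h3 : t.1 ∈ B <;>
        by_cases h4 : t.2 ∈ B <;> simp [h1, h2, h3, h4]
    omega

/-- Auxiliary result 2. -/
theorem cut_submod (A B : Finset (Option (Lt α))) (w : List (Lt α)) :
    cut (A ∩ B) w + cut (A ∪ B) w ≤ cut A w + cut B w :=
  countP_submod A B (turns none w)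

omit [DecidableEq α] in
lemma nv_of_rel {x y : Lt α} (h : x.1 = y.1 → x.2 = y.2) : x ≠ nv y := by
  intro he
  have h1 : x.1 = y.1 := by rw [he]; rfl
  have h2 := h h1
  have : x = y := Prod.ext h1 h2
  exact nv_ne y (by rw [← he, this])

omit [DecidableEq α] in
lemma rel_of_nv {x y : Lt α} (h : x ≠ nv y) : x.1 = y.1 → x.2 = y.2 := by
  intro h1
  rcases fst_eq_iff.1 h1 with h2 | h2
  · rw [h2]
  · exact absurd h2 h

omit [DecidableEq α] in
lemma rel_iff {x y : Lt α} : (x.1 = y.1 → x.2 = y.2) ↔ x ≠ nv y := ⟨nv_of_rel, rel_of_nv⟩

lemma countP_singleton_aux (a : Lt α) (w : List (Lt α)) : ∀ (p : Option (Lt α)),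
    (∀ x, p = some x → FreeGroup.IsReduced (x :: w)) → FreeGroup.IsReduced w →
    (turns p w).countP (fun t => decide (¬ (t.1 ∈ ({some a} : Finset (Option (Lt α))) ↔
      t.2 ∈ ({some a} : Finset (Option (Lt α)))))) = (if p = some a then 1 else 0) + occ a w := by
  induction w with
  | nil =>
    intro p _ _
    simp [turns, occ]
  | cons y ys ih =>
    intro p hp hw
    have ih' := ih (some y) (by rintro x hx; cases hx; exact hw) (by
      exact List.IsChain.tail hw)
    simp only [turns, List.countP_cons, ih', occ]
    simp only [Finset.mem_singleton, decide_eq_true_eq, Option.some.injEq]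
    have h1 : p = some a → nv y = a → False := by
      intro h1 h2
      have h3 := hp a h1
      rw [FreeGroup.isReduced_cons_cons] at h3
      exact nv_of_rel h3.1 h2.symm
    have h2 : y = a → nv y = a → False := by
      intro h1 h2
      exact nv_ne y (h2.trans h1.symm)
    have h3 : y.1 = a.1 ↔ (y = a ∨ nv y = a) := by
      rw [fst_eq_iff, nv_eq_iff]
    rw [show (ys.countP fun y => decide (y.1 = a.1)) = occ a ys from rfl]
    simp only [h3]
    generalize nv y = z at *
    by_cases c1 : p = some a <;> by_cases c2 : z = a <;> by_cases c3 : y = a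
    · exact (h1 c1 c2).elim
    · exact (h1 c1 c2).elim
    · simp only [c1, c2, c3, iff_false, not_true, or_false, if_true, if_false, not_false_iff]
      omega
    · simp only [c1, c2, c3, iff_false, not_true, or_false, if_true, if_false, not_false_iff]
      omega
    · exact (h2 c3 c2).elim
    · simp only [c1, c2, c3, iff_true, not_true, or_true, if_true, if_false, not_false_iff]
      omega
    · simp only [c1, c2, c3, iff_false, not_true, or_false, if_true, if_false, not_false_iff]
      omega
    · simp only [c1, c2, c3, iff_false, not_true, or_false, if_true, if_false, not_false_iff]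
      omega

/-- Auxiliary result 3. -/
theorem cut_singleton (a : Lt α) (w : List (Lt α)) (hw : FreeGroup.IsReduced w) :
    cut {some a} w = occ a w := by
  have := countP_singleton_aux a w none (by simp) hw
  simpa [cut] using this

/-- The letters inserted at a turn. -/
def ins (A : Finset (Option (Lt α))) (a : Lt α) (p q : Option (Lt α)) : List (Lt α) :=
  if p ∈ A then (if q ∈ A then [] else [a]) else (if q ∈ A then [nv a] else [])

/-- The output word. -/
def out (A : Finset (Option (Lt α))) (a : Lt α) : Option (Lt α) → List (Lt α) → List (Lt α)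
  | p, [] => ins A a p none
  | p, y :: ys => ins A a p (some (nv y)) ++ ((if y.1 = a.1 then [] else [y]) ++ out A a (some y) ys)

lemma mk_ins (A : Finset (Option (Lt α))) (a : Lt α) (p q : Option (Lt α)) :
    FreeGroup.mk (ins A a p q) = (if p ∈ A then gl a else 1) * (if q ∈ A then gl a else 1)⁻¹ := by
  unfold ins
  by_cases hp : p ∈ A <;> by_cases hq : q ∈ A
  · simp [hp, hq]; rfl
  · simp [hp, hq]; rfl
  · simp only [hp, hq, if_true, if_false]
    rw [one_mul, ← gl_nv]; rfl
  · simp [hp, hq]; rfl

lemma mk_out (A : Finset (Option (Lt α))) (a : Lt α) (hn : none ∉ A)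
    (ψ : FreeGroup α →* FreeGroup α)
    (hψ : ∀ y : Lt α, ψ (gl y) = (if some (nv y) ∈ A then gl a else 1)⁻¹ *
      (if y.1 = a.1 then 1 else gl y) * (if some y ∈ A then gl a else 1))
    (w : List (Lt α)) : ∀ p : Option (Lt α),
    FreeGroup.mk (out A a p w) = (if p ∈ A then gl a else 1) * ψ (FreeGroup.mk w) := by
  induction w with
  | nil =>
    intro p
    unfold out
    rw [mk_ins]
    have : (FreeGroup.mk [] : FreeGroup α) = 1 := rfl
    simp [hn, this]
  | cons y ys ih =>
    intro p
    unfold out
    rw [← FreeGroup.mul_mk, ← FreeGroup.mul_mk, mk_ins, ih, mk_cons, map_mul, hψ]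
    have : FreeGroup.mk (if y.1 = a.1 then [] else [y]) = (if y.1 = a.1 then 1 else gl y) := by
      split_ifs <;> rfl
    rw [this]
    simp only [mul_assoc]

lemma length_ins (A : Finset (Option (Lt α))) (a : Lt α) (p q : Option (Lt α)) :
    (ins A a p q).length = if decide (¬ (p ∈ A ↔ q ∈ A)) = true then 1 else 0 := by
  unfold ins
  by_cases hp : p ∈ A <;> by_cases hq : q ∈ A <;> simp [hp, hq]

lemma length_out (A : Finset (Option (Lt α))) (a : Lt α) (w : List (Lt α)) :
    ∀ p : Option (Lt α), (out A a p w).length + occ a w = w.length +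
      (turns p w).countP (fun t => decide (¬ (t.1 ∈ A ↔ t.2 ∈ A))) := by
  induction w with
  | nil =>
    intro p
    unfold out
    rw [length_ins]
    simp [turns, occ]
  | cons y ys ih =>
    intro p
    unfold out
    have := ih (some y)
    simp only [List.length_append, length_ins, turns, List.countP_cons, List.length_cons]
    have h1 : occ a (y :: ys) = occ a ys + if y.1 = a.1 then 1 else 0 := by
      simp [occ, List.countP_cons]
    have h2 : (if y.1 = a.1 then ([] : List (Lt α)) else [y]).length =
        if y.1 = a.1 then 0 else 1 := by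
      split_ifs <;> rfl
    rw [h1, h2]
    split_ifs <;> omega

omit [DecidableEq α] in
lemma isReduced_cons' {x : Lt α} {L : List (Lt α)} :
    FreeGroup.IsReduced (x :: L) ↔ (∀ h ∈ L.head?, x ≠ nv h) ∧ FreeGroup.IsReduced L := by
  unfold FreeGroup.IsReduced
  rw [List.isChain_cons]
  simp only [rel_iff]

lemma out_reduced (A : Finset (Option (Lt α))) (a : Lt α) (ha : some a ∈ A)
    (ha' : some (nv a) ∉ A) (hn : none ∉ A) (l : List (Lt α)) : ∀ p : Lt α,
    FreeGroup.IsReduced (p :: l) →
    FreeGroup.IsReduced ((if p.1 = a.1 then [] else [p]) ++ out A a (some p) l) ∧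
    ∀ h ∈ ((if p.1 = a.1 then [] else [p]) ++ out A a (some p) l).head?,
      (p.1 ≠ a.1 → h = p) ∧ (p = a → h = a ∨ (h.1 ≠ a.1 ∧ some (nv h) ∈ A)) ∧
      (p = nv a → h = nv a ∨ (h.1 ≠ a.1 ∧ some (nv h) ∉ A)) := by
  induction l with
  | nil =>
    intro p _
    by_cases h1 : p.1 = a.1
    · rcases fst_eq_iff.1 h1 with h2 | h2
      · subst h2
        simp [out, ins, ha, hn, ne_nv, nv_ne]
      · subst h2
        simp [out, ins, ha', hn, ne_nv, nv_ne]
    · have h2 : p ≠ a := fun h => h1 (h ▸ rfl)
      have h3 : p ≠ nv a := fun h => h1 (h ▸ rfl)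
      by_cases h4 : some p ∈ A
      · simp [out, ins, h1, h4, hn, h2, h3]
      · simp [out, ins, h1, h4, hn, h2, h3]
  | cons y ys ih =>
    intro p hp
    have hy := hp
    rw [isReduced_cons'] at hp
    obtain ⟨hpy, hyy⟩ := hp
    have hpy : p ≠ nv y := hpy y (by simp)
    obtain ⟨hR, hh⟩ := ih y hyy
    unfold out
    generalize (if y.1 = a.1 then [] else [y]) ++ out A a (some y) ys = R at hR hh
    by_cases h1 : p.1 = a.1
    · rcases fst_eq_iff.1 h1 with h2 | h2
      · -- p = a
        subst h2
        simp only [if_true, List.nil_append]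
        by_cases h5 : some (nv y) ∈ A
        · -- nv y ∈ A
          have h6 : y.1 ≠ p.1 := by
            intro h
            rcases fst_eq_iff.1 h with h | h
            · subst h; exact ha' h5
            · subst h; exact hpy (by simp)
          simp only [ins, ha, h5, if_true, List.nil_append]
          refine ⟨hR, fun h hm => ?_⟩
          have h7 := (hh h hm).1 h6
          subst h7
          refine ⟨fun h => (h rfl).elim, fun _ => Or.inr ⟨h6, h5⟩, fun h => (ne_nv p h).elim⟩
        · simp only [ins, ha, h5, if_true, if_false, List.singleton_append]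
          refine ⟨?_, fun h hm => ?_⟩
          · rw [isReduced_cons']
            refine ⟨fun h hm => ?_, hR⟩
            obtain ⟨k1, k2, k3⟩ := hh h hm
            intro k4
            have k5 : h = nv p := by rw [k4, nv_nv]
            by_cases h6 : y.1 = p.1
            · rcases fst_eq_iff.1 h6 with h7 | h7
              · rcases k2 h7 with h8 | h8
                · exact nv_ne p (by rw [← k5, h8])
                · exact h8.1 (by rw [k5]; rfl)
              · exact hpy (by rw [h7, nv_nv])
            · have := k1 h6
              exact h6 (by rw [← this, k5]; rfl)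
          · simp only [List.head?_cons, Option.mem_def, Option.some.injEq] at hm
            subst hm
            refine ⟨fun h => (h rfl).elim, fun _ => Or.inl rfl, fun h => (ne_nv p h).elim⟩
      · -- p = nv a
        subst h2
        simp only [nv_fst, if_true, List.nil_append]
        by_cases h5 : some (nv y) ∈ A
        · simp only [ins, ha', h5, if_true, if_false, List.singleton_append]
          refine ⟨?_, fun h hm => ?_⟩
          · rw [isReduced_cons']
            refine ⟨fun h hm => ?_, hR⟩
            obtain ⟨k1, k2, k3⟩ := hh h hm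
            intro k4
            have k5 : h = a := by rw [← nv_inj, k4]
            by_cases h6 : y.1 = a.1
            · rcases fst_eq_iff.1 h6 with h7 | h7
              · exact hpy (by rw [h7])
              · rcases k3 h7 with h8 | h8
                · exact nv_ne a (by rw [← h8, k5])
                · exact h8.1 (by rw [k5])
            · have := k1 h6
              exact h6 (by rw [← this, k5])
          · simp only [List.head?_cons, Option.mem_def, Option.some.injEq] at hm
            subst hm
            refine ⟨fun h => (h rfl).elim, fun h => (nv_ne a h).elim, fun _ => Or.inl rfl⟩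
        · have h6 : y.1 ≠ a.1 := by
            intro h
            rcases fst_eq_iff.1 h with h | h
            · subst h; exact hpy rfl
            · subst h; exact h5 (by simpa using ha)
          simp only [ins, ha', h5, if_false, List.nil_append]
          refine ⟨hR, fun h hm => ?_⟩
          have h7 := (hh h hm).1 h6
          subst h7
          refine ⟨fun h => (h rfl).elim, fun h => (nv_ne a h).elim, fun _ => Or.inr ⟨h6, h5⟩⟩
    · have h2 : p ≠ a := fun h => h1 (h ▸ rfl)
      have h3 : p ≠ nv a := fun h => h1 (h ▸ rfl)
      simp only [h1, if_false, List.singleton_append]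
      refine ⟨?_, fun h hm => ?_⟩
      · have key : FreeGroup.IsReduced (ins A a (some p) (some (nv y)) ++ R) ∧
            ∀ h ∈ (ins A a (some p) (some (nv y)) ++ R).head?, p ≠ nv h := by
          by_cases h4 : some p ∈ A <;> by_cases h5 : some (nv y) ∈ A
          · simp only [ins, h4, h5, if_true, List.nil_append]
            refine ⟨hR, fun h hm => ?_⟩
            obtain ⟨k1, k2, k3⟩ := hh h hm
            intro k4
            by_cases h6 : y.1 = a.1
            · rcases fst_eq_iff.1 h6 with h7 | h7
              · subst h7; exact ha' h5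
              · rcases k3 h7 with h8 | h8
                · exact h2 (by rw [k4, h8, nv_nv])
                · exact h8.2 (by rw [← k4]; exact h4)
            · have := k1 h6
              exact hpy (by rw [k4, this])
          · simp only [ins, h4, h5, if_true, if_false, List.singleton_append]
            refine ⟨?_, fun h hm => ?_⟩
            · rw [isReduced_cons']
              refine ⟨fun h hm => ?_, hR⟩
              obtain ⟨k1, k2, k3⟩ := hh h hm
              intro k4
              have k5 : h = nv a := by rw [k4, nv_nv]
              by_cases h6 : y.1 = a.1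
              · rcases fst_eq_iff.1 h6 with h7 | h7
                · rcases k2 h7 with h8 | h8
                  · exact nv_ne a (by rw [← k5, h8])
                  · exact h8.1 (by rw [k5]; rfl)
                · subst h7; exact h5 (by simpa using ha)
              · have := k1 h6
                exact h6 (by rw [← this, k5]; rfl)
            · simp only [List.head?_cons, Option.mem_def, Option.some.injEq] at hm
              subst hm
              exact h3
          · simp only [ins, h4, h5, if_true, if_false, List.singleton_append]
            refine ⟨?_, fun h hm => ?_⟩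
            · rw [isReduced_cons']
              refine ⟨fun h hm => ?_, hR⟩
              obtain ⟨k1, k2, k3⟩ := hh h hm
              intro k4
              have k5 : h = a := by rw [← nv_inj, k4]
              by_cases h6 : y.1 = a.1
              · rcases fst_eq_iff.1 h6 with h7 | h7
                · subst h7; exact ha' h5
                · rcases k3 h7 with h8 | h8
                  · exact nv_ne a (by rw [← h8, k5])
                  · exact h8.1 (by rw [k5])
              · have := k1 h6
                exact h6 (by rw [← this, k5])
            · simp only [List.head?_cons, Option.mem_def, Option.some.injEq] at hm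
              subst hm
              simpa using h2
          · simp only [ins, h4, h5, if_false, List.nil_append]
            refine ⟨hR, fun h hm => ?_⟩
            obtain ⟨k1, k2, k3⟩ := hh h hm
            intro k4
            by_cases h6 : y.1 = a.1
            · rcases fst_eq_iff.1 h6 with h7 | h7
              · rcases k2 h7 with h8 | h8
                · exact h3 (by rw [k4, h8])
                · exact h4 (by rw [k4]; exact h8.2)
              · subst h7; exact h5 (by simpa using ha)
            · have := k1 h6
              exact hpy (by rw [k4, this])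
        rw [isReduced_cons']
        exact ⟨key.2, key.1⟩
      · simp only [List.head?_cons, Option.mem_def, Option.some.injEq] at hm
        subst hm
        exact ⟨fun _ => rfl, fun h => (h2 h).elim, fun h => (h3 h).elim⟩

lemma out_none_reduced (A : Finset (Option (Lt α))) (a : Lt α) (ha : some a ∈ A)
    (ha' : some (nv a) ∉ A) (hn : none ∉ A) (w : List (Lt α)) (hw : FreeGroup.IsReduced w) :
    FreeGroup.IsReduced (out A a none w) := by
  cases w with
  | nil => simp [out, ins, hn]
  | cons y ys =>
    obtain ⟨hR, hh⟩ := out_reduced A a ha ha' hn ys y hw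
    unfold out
    generalize (if y.1 = a.1 then [] else [y]) ++ out A a (some y) ys = R at hR hh
    by_cases h5 : some (nv y) ∈ A
    · simp only [ins, hn, h5, if_true, if_false, List.singleton_append]
      rw [isReduced_cons']
      refine ⟨fun h hm => ?_, hR⟩
      obtain ⟨k1, k2, k3⟩ := hh h hm
      intro k4
      have k5 : h = a := by rw [← nv_inj, k4]
      by_cases h6 : y.1 = a.1
      · rcases fst_eq_iff.1 h6 with h7 | h7
        · subst h7; exact ha' h5
        · rcases k3 h7 with h8 | h8
          · exact nv_ne a (by rw [← h8, k5])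
          · exact h8.1 (by rw [k5])
      · have := k1 h6
        exact h6 (by rw [← this, k5])
    · simp only [ins, hn, h5, if_false, List.nil_append]
      exact hR

/-- Auxiliary result 4: exact effect of a Whitehead automorphism on the length of a reduced word. -/
theorem norm_whitehead (A : Finset (Option (Lt α))) (a : Lt α) (ha : some a ∈ A)
    (ha' : some (nv a) ∉ A) (hn : none ∉ A) (ψ : FreeGroup α →* FreeGroup α)
    (hψ : ∀ y : Lt α, ψ (gl y) = (if some (nv y) ∈ A then gl a else 1)⁻¹ *
      (if y.1 = a.1 then 1 else gl y) * (if some y ∈ A then gl a else 1))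
    (w : List (Lt α)) (hw : FreeGroup.IsReduced w) :
    (ψ (FreeGroup.mk w)).norm + occ a w = w.length + cut A w := by
  have h1 := mk_out A a hn ψ hψ w none
  simp only [hn, if_false, one_mul] at h1
  rw [← h1]
  have h2 : (FreeGroup.mk (out A a none w)).norm = (out A a none w).length := by
    unfold FreeGroup.norm
    rw [FreeGroup.toWord_mk, (out_none_reduced A a ha ha' hn w hw).reduce_eq]
  rw [h2]
  exact length_out A a w none

lemma norm_gl (x : Lt α) : (gl x).norm ≤ 1 := by
  unfold gl
  exact FreeGroup.norm_mk_le

lemma norm_cut (A C : Finset (Option (Lt α))) (a z : Lt α)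
    (hAC : Disjoint A C)
    (g : Option (Lt α) → FreeGroup α)
    (hg : ∀ p, g p = if p ∈ A then gl a else if p ∈ C then gl z else 1) (p q : Option (Lt α)) :
    (g p * (g q)⁻¹).norm ≤ (if decide (¬ (p ∈ A ↔ q ∈ A)) = true then 1 else 0) +
      (if decide (¬ (p ∈ C ↔ q ∈ C)) = true then 1 else 0) := by
  have h1 := norm_gl a
  have h2 := norm_gl z
  have h3 : (gl a * (gl z)⁻¹).norm ≤ 2 := by
    refine (FreeGroup.norm_mul_le _ _).trans ?_
    rw [FreeGroup.norm_inv_eq]
    omega
  have h4 : (gl z * (gl a)⁻¹).norm ≤ 2 := by
    refine (FreeGroup.norm_mul_le _ _).trans ?_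
    rw [FreeGroup.norm_inv_eq]
    omega
  have hd : ∀ r, r ∈ A → r ∉ C := fun r hr hr' => (Finset.disjoint_left.1 hAC) hr hr'
  rw [hg, hg]
  by_cases p1 : p ∈ A
  · have p2 := hd p p1
    by_cases q1 : q ∈ A
    · have q2 := hd q q1
      simp [p1, p2, q1, q2]
    · by_cases q2 : q ∈ C
      · simpa [p1, p2, q1, q2] using h3
      · simpa [p1, p2, q1, q2] using h1
  · by_cases p2 : p ∈ C
    · by_cases q1 : q ∈ A
      · have q2 := hd q q1
        simpa [p1, p2, q1, q2] using h4
      · by_cases q2 : q ∈ C
        · simp [p1, p2, q1, q2]
        · simpa [p1, p2, q1, q2] using h2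
    · by_cases q1 : q ∈ A
      · have q2 := hd q q1
        simpa [p1, p2, q1, q2, FreeGroup.norm_inv_eq] using h1
      · by_cases q2 : q ∈ C
        · simpa [p1, p2, q1, q2, FreeGroup.norm_inv_eq] using h2
        · simp [p1, p2, q1, q2]

/-- Auxiliary result 5: upper bound for a substitution coming from two blow-ups. -/
theorem norm_two (A C : Finset (Option (Lt α))) (a z : Lt α) (haz : a.1 ≠ z.1)
    (hAC : Disjoint A C)
    (g : Option (Lt α) → FreeGroup α)
    (hg : ∀ p, g p = if p ∈ A then gl a else if p ∈ C then gl z else 1)
    (ψ : FreeGroup α →* FreeGroup α)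
    (hψ : ∀ y : Lt α, ψ (gl y) = g none * ((g (some (nv y)))⁻¹ *
      (if y.1 = a.1 ∨ y.1 = z.1 then 1 else gl y) * g (some y)) * (g none)⁻¹)
    (w : List (Lt α)) :
    (ψ (FreeGroup.mk w)).norm + occ a w + occ z w ≤ w.length + cut A w + cut C w := by
  have key : ∀ (w : List (Lt α)) (p : Option (Lt α)),
      (g p * ((g none)⁻¹ * ψ (FreeGroup.mk w))).norm + occ a w + occ z w ≤ w.length +
      (turns p w).countP (fun t => decide (¬ (t.1 ∈ A ↔ t.2 ∈ A))) +
      (turns p w).countP (fun t => decide (¬ (t.1 ∈ C ↔ t.2 ∈ C))) := by
    intro w
    induction w with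
    | nil =>
      intro p
      have h1 := norm_cut A C a z hAC g hg p none
      have h2 : (FreeGroup.mk [] : FreeGroup α) = 1 := rfl
      simp only [h2, map_one, mul_one, turns, List.countP_cons, List.countP_nil, occ,
        List.length_nil]
      omega
    | cons y ys ih =>
      intro p
      have h1 := norm_cut A C a z hAC g hg p (some (nv y))
      have h2 := ih (some y)
      have h3 : g p * ((g none)⁻¹ * ψ (FreeGroup.mk (y :: ys))) =
          (g p * (g (some (nv y)))⁻¹) * ((if y.1 = a.1 ∨ y.1 = z.1 then 1 else gl y) *
            (g (some y) * ((g none)⁻¹ * ψ (FreeGroup.mk ys)))) := by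
        rw [mk_cons, map_mul, hψ]
        group
      rw [h3]
      have h4 := FreeGroup.norm_mul_le (g p * (g (some (nv y)))⁻¹)
        ((if y.1 = a.1 ∨ y.1 = z.1 then 1 else gl y) *
            (g (some y) * ((g none)⁻¹ * ψ (FreeGroup.mk ys))))
      have h5 := FreeGroup.norm_mul_le (if y.1 = a.1 ∨ y.1 = z.1 then 1 else gl y)
            (g (some y) * ((g none)⁻¹ * ψ (FreeGroup.mk ys)))
      have h6 : (if y.1 = a.1 ∨ y.1 = z.1 then (1 : FreeGroup α) else gl y).norm +
          (if y.1 = a.1 then 1 else 0) + (if y.1 = z.1 then 1 else 0) ≤ 1 := by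
        have h7 := norm_gl y
        by_cases c1 : y.1 = a.1
        · have c2 : y.1 ≠ z.1 := fun h => haz (c1.symm.trans h)
          simp [c1, haz]
        · by_cases c2 : y.1 = z.1
          · have c3 : ¬ z.1 = a.1 := fun h => haz h.symm
            simp [c2, c3]
          · simpa [c1, c2] using h7
      have h8 : occ a (y :: ys) = occ a ys + if y.1 = a.1 then 1 else 0 := by
        simp [occ, List.countP_cons]
      have h9 : occ z (y :: ys) = occ z ys + if y.1 = z.1 then 1 else 0 := by
        simp [occ, List.countP_cons]
      rw [h8, h9]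
      simp only [turns, List.countP_cons, List.length_cons]
      omega
  have h1 := key w none
  rw [mul_inv_cancel_left] at h1
  exact h1

end aux

end Pool.Agent.Helper156.OF
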