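import Pool.Agent.Helper156.OF.Xt
import Pool.Agent.Helper156.OF.Words

set_option autoImplicit false
set_option linter.unusedSectionVars false

namespace Pool.Agent.Helper156.OF

variable {α P : Type} [DecidableEq α] [Fintype α] [Group P]

/-- Compatible homomorphism to the automorphism group of the free group. -/
structure Act (W : SP α →* P) (E : Lt α → Lt α → P) (π : P →* MulAut (FreeGroup α)) : Prop where
  hW : ∀ w, π (W w) = toAut w
  hE : ∀ x a, π (E x a) = eAut x a

/-- The half-edge labels. -/
def gA (A : Finset (Option (Lt α))) (a : Lt α) (p : Option (Lt α)) : FreeGroup α :=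
  if p ∈ A then gl a else 1

section

variable {W : SP α →* P} {E : Lt α → Lt α → P} {π : P →* MulAut (FreeGroup α)}
variable (R : Rel W E) (H : Act W E π)

include R H

lemma act_om_aux (a : Lt α) (A : Finset (Option (Lt α))) (hn : none ∉ A) (y : Lt α) :
    π (om E A a) (gl y) = if y.1 = a.1 then gl y else
      (gA A a (some (nv y)))⁻¹ * gl y * gA A a (some y) := by
  induction A using Finset.induction_on with
  | empty => simp [om, gA]
  | insert x A hx ih =>
    have hn' : none ∉ A := fun h => hn (Finset.mem_insert_of_mem h)
    have ih' := ih hn'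
    have h1 : om E (insert x A) a = xE E x a * om E A a := cprod_insert (R.xpc a) hx
    cases x with
    | none => exact absurd (Finset.mem_insert_self _ _) hn
    | some x =>
      rw [h1, map_mul, MulAut.mul_apply, ih', xE_some, H.hE]
      have ea : ∀ c : Lt α, c.1 = a.1 → eAut x a (gl c) = gl c := by
        intro c hc
        rw [eAut_gl]
        unfold eFun
        by_cases hxa : x.1 = a.1
        · simp [hxa]
        · have g1 : c ≠ x := fun h => hxa (h ▸ hc)
          have g2 : c ≠ nv x := fun h => hxa (by rw [← hc, h, nv_fst])
          simp [hxa, g1, g2]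
      by_cases hy : y.1 = a.1
      · rw [if_pos hy, if_pos hy]
        exact ea y hy
      · rw [if_neg hy, if_neg hy]
        have eg : ∀ p, eAut x a (gA A a p) = gA A a p := by
          intro p
          unfold gA
          split_ifs
          · exact ea a rfl
          · exact map_one _
        rw [map_mul, map_mul, map_inv, eg, eg, eAut_gl]
        by_cases hxa : x.1 = a.1
        · have g1 : some (nv y) ≠ some x := fun h => hy (by
            rw [← nv_fst y, Option.some_injective _ h, hxa])
          have g2 : some y ≠ some x := fun h => hy (by rw [Option.some_injective _ h, hxa])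
          simp [eFun, hxa, gA, Finset.mem_insert, g1, g2]
        · unfold eFun
          simp only [hxa, if_false]
          by_cases h3 : y = x
          · subst h3
            have g1 : (some (nv y) : Option (Lt α)) ≠ some y :=
              fun h => nv_ne y (Option.some_injective _ h)
            simp only [if_true, gA, Finset.mem_insert, g1, false_or, true_or, if_neg hx]
            group
          · by_cases h4 : y = nv x
            · subst h4
              have g1 : (some (nv x) : Option (Lt α)) ≠ some x :=
                fun h => nv_ne x (Option.some_injective _ h)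
              simp only [h3, if_false, if_true, gA, nv_nv, Finset.mem_insert, g1, false_or,
                true_or, if_neg hx, gl_nv]
              group
            · have g1 : (some (nv y) : Option (Lt α)) ≠ some x := by
                intro h
                apply h4
                rw [← Option.some_injective _ h, nv_nv]
              have g2 : (some y : Option (Lt α)) ≠ some x :=
                fun h => h3 (Option.some_injective _ h)
              simp only [h3, h4, if_false, gA, Finset.mem_insert, g1, g2, false_or]

lemma act_om (a : Lt α) (A : Finset (Option (Lt α))) (hA : Va A a) (y : Lt α) :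
    π (om E A a) (gl y) = gA A a none * ((gA A a (some (nv y)))⁻¹ *
      (if y.1 = a.1 then 1 else gl y) * gA A a (some y)) * (gA A a none)⁻¹ := by
  have main : ∀ (B : Finset (Option (Lt α))) (b : Lt α), Va B b → none ∉ B →
      π (om E B b) (gl y) = (gA B b (some (nv y)))⁻¹ *
      (if y.1 = b.1 then 1 else gl y) * gA B b (some y) := by
    intro B b hB hn
    rw [act_om_aux R H b B hn y]
    by_cases hy : y.1 = b.1
    · rw [if_pos hy, if_pos hy]
      rcases fst_eq_iff.1 hy with h | h
      · subst h
        simp [gA, hB.1, hB.2]
      · subst h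
        simp [gA, hB.1, hB.2]
    · rw [if_neg hy, if_neg hy]
  by_cases hn : none ∈ A
  · have hv : Va Aᶜ (nv a) := by
      refine ⟨Finset.mem_compl.2 hA.2, ?_⟩
      rw [nv_nv, Finset.mem_compl, not_not]
      exact hA.1
    have h := main Aᶜ (nv a) hv (by rw [Finset.mem_compl, not_not]; exact hn)
    rw [R.om_compl] at h
    rw [h]
    have hg : ∀ p, gA Aᶜ (nv a) p = gA A a p * (gA A a none)⁻¹ := by
      intro p
      unfold gA
      by_cases hp : p ∈ A
      · simp [hp, hn]
      · simp [hp, hn]
    rw [hg, hg, nv_fst]
    group
  · rw [main A a hA hn]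
    simp [gA, hn]

end

/-- The height of an element. -/
noncomputable def ht (π : P →* MulAut (FreeGroup α)) (g : P) : ℕ :=
  ∑ i : α, ((π g) (FreeGroup.of i)).norm

/-- Total number of turns cut by a set. -/
noncomputable def cg (π : P →* MulAut (FreeGroup α)) (g : P) (A : Finset (Option (Lt α))) : ℕ :=
  ∑ i : α, cut A ((π g) (FreeGroup.of i)).toWord

/-- Total number of occurrences of a letter. -/
noncomputable def dg (π : P →* MulAut (FreeGroup α)) (g : P) (a : Lt α) : ℕ :=
  ∑ i : α, occ a ((π g) (FreeGroup.of i)).toWord

lemma cg_compl (π : P →* MulAut (FreeGroup α)) (g : P) (A : Finset (Option (Lt α))) :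
    cg π g Aᶜ = cg π g A := by
  unfold cg
  exact Finset.sum_congr rfl fun i _ => cut_compl A _

lemma cg_submod (π : P →* MulAut (FreeGroup α)) (g : P) (A B : Finset (Option (Lt α))) :
    cg π g (A ∩ B) + cg π g (A ∪ B) ≤ cg π g A + cg π g B := by
  unfold cg
  rw [← Finset.sum_add_distrib, ← Finset.sum_add_distrib]
  exact Finset.sum_le_sum fun i _ => cut_submod A B _

lemma dg_nv (π : P →* MulAut (FreeGroup α)) (g : P) (a : Lt α) : dg π g (nv a) = dg π g a := by
  unfold dg occ
  rfl

lemma dg_congr (π : P →* MulAut (FreeGroup α)) (g : P) {a b : Lt α} (h : a.1 = b.1) :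
    dg π g a = dg π g b := by
  unfold dg occ
  rw [h]

lemma norm_gl_one (x : Lt α) : (gl x).norm = 1 := by
  simp [gl, FreeGroup.norm, FreeGroup.toWord_mk]

section

variable {W : SP α →* P} {E : Lt α → Lt α → P} {π : P →* MulAut (FreeGroup α)}
variable (R : Rel W E) (H : Act W E π)

include R H

lemma ht_om_aux (g : P) (A : Finset (Option (Lt α))) (a : Lt α) (hA : Va A a) (hn : none ∉ A) :
    ht π (om E A a * g) + dg π g a = ht π g + cg π g A := by
  unfold ht dg cg
  rw [← Finset.sum_add_distrib, ← Finset.sum_add_distrib]
  refine Finset.sum_congr rfl fun i _ => ?_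
  set v := (π g) (FreeGroup.of i) with hv
  rw [map_mul, MulAut.mul_apply, ← hv]
  have h := norm_whitehead A a hA.1 hA.2 hn ((π (om E A a)).toMonoidHom) (fun y => by
    have := act_om R H a A hA y
    simp only [gA, if_neg hn, inv_one, one_mul, mul_one] at this
    exact this) v.toWord FreeGroup.isReduced_toWord
  rw [FreeGroup.mk_toWord] at h
  exact h

/-- Exact change of the height. -/
lemma ht_om (g : P) (A : Finset (Option (Lt α))) (a : Lt α) (hA : Va A a) :
    ht π (om E A a * g) + dg π g a = ht π g + cg π g A := by
  by_cases hn : none ∈ A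
  · have hv : Va Aᶜ (nv a) := by
      refine ⟨Finset.mem_compl.2 hA.2, ?_⟩
      rw [nv_nv, Finset.mem_compl, not_not]
      exact hA.1
    have := ht_om_aux R H g Aᶜ (nv a) hv (by rw [Finset.mem_compl, not_not]; exact hn)
    rwa [R.om_compl, cg_compl, dg_nv] at this
  · exact ht_om_aux R H g A a hA hn

lemma ht_two (g : P) (A C : Finset (Option (Lt α))) (a z : Lt α) (hA : Va A a) (hC : Va C z)
    (hAC : Disjoint A C) (ha : some (nv a) ∉ C) :
    ht π (om E C z * (om E A a * g)) + dg π g a + dg π g z ≤
      ht π g + cg π g A + cg π g C := by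
  have ha' : some a ∉ C := fun h => (Finset.disjoint_left.1 hAC) hA.1 h
  have haz : a.1 ≠ z.1 := by
    intro h
    rcases fst_eq_iff.1 h with h | h
    · exact ha' (h ▸ hC.1)
    · rw [h, nv_nv] at ha
      exact ha hC.1
  set G : Option (Lt α) → FreeGroup α :=
    fun p => if p ∈ A then gl a else if p ∈ C then gl z else 1 with hG
  have hG2 : ∀ p, G p = gA C z p * gA A a p := by
    intro p
    simp only [hG, gA]
    by_cases h1 : p ∈ A
    · have h2 : p ∉ C := (Finset.disjoint_left.1 hAC) h1
      simp [h1, h2]
    · by_cases h2 : p ∈ C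
      · simp [h1, h2]
      · simp [h1, h2]
  set ψ : FreeGroup α →* FreeGroup α :=
    ((π (om E C z)).toMonoidHom).comp ((π (om E A a)).toMonoidHom) with hψ
  have hz1 : π (om E C z) (gl a) = gA C z none * gl a * (gA C z none)⁻¹ := by
    rw [act_om R H z C hC a, if_neg haz]
    simp [gA, ha, ha']
  have hz2 : ∀ p, π (om E C z) (gA A a p) = gA C z none * gA A a p * (gA C z none)⁻¹ := by
    intro p
    by_cases hp : p ∈ A
    · have h1 : gA A a p = gl a := by simp [gA, hp]
      rw [h1, hz1]
    · have h1 : gA A a p = 1 := by simp [gA, hp]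
      rw [h1, map_one]
      group
  have key : ∀ y : Lt α, ψ (gl y) = G none * ((G (some (nv y)))⁻¹ *
      (if y.1 = a.1 ∨ y.1 = z.1 then 1 else gl y) * G (some y)) * (G none)⁻¹ := by
    intro y
    have e1 : ψ (gl y) = π (om E C z) (π (om E A a) (gl y)) := rfl
    rw [e1, act_om R H a A hA y]
    simp only [map_mul, map_inv, hz2]
    by_cases hy : y.1 = a.1
    · rw [if_pos hy, if_pos (Or.inl hy), map_one]
      have hy1 : gA C z (some y) = 1 := by
        rcases fst_eq_iff.1 hy with h | h
        · subst h; simp [gA, ha']
        · subst h; simp [gA, ha]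
      have hy2 : gA C z (some (nv y)) = 1 := by
        rcases fst_eq_iff.1 hy with h | h
        · subst h; simp [gA, ha]
        · subst h; simp [gA, ha']
      rw [hG2, hG2, hG2, hy1, hy2]
      group
    · rw [if_neg hy, act_om R H z C hC y]
      have : (y.1 = a.1 ∨ y.1 = z.1) ↔ y.1 = z.1 := by simp [hy]
      rw [hG2, hG2, hG2]
      simp only [this]
      group
  unfold ht dg cg
  rw [← Finset.sum_add_distrib, ← Finset.sum_add_distrib, ← Finset.sum_add_distrib,
    ← Finset.sum_add_distrib]
  refine Finset.sum_le_sum fun i _ => ?_
  set v := (π g) (FreeGroup.of i) with hv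
  have h := norm_two A C a z haz hAC G (fun p => rfl) ψ key v.toWord
  rw [FreeGroup.mk_toWord] at h
  have e2 : (π (om E C z * (om E A a * g))) (FreeGroup.of i) = ψ v := by
    rw [map_mul, map_mul, MulAut.mul_apply, MulAut.mul_apply]
    rfl
  rw [e2]
  exact h

lemma ht_W (w : SP α) (g : P) : ht π (W w * g) = ht π g := by
  unfold ht
  refine Finset.sum_congr rfl fun i _ => ?_
  rw [map_mul, MulAut.mul_apply, H.hW]
  have key : ∀ (σ : SP α) (v : FreeGroup α), (toAut σ v).norm ≤ v.norm := by
    intro σ v
    have : toAut σ v = FreeGroup.mk (v.toWord.map (σ : Equiv.Perm (Lt α))) := by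
      conv_lhs => rw [← FreeGroup.mk_toWord (x := v)]
      induction v.toWord with
      | nil => 
        rw [List.map_nil]
        exact map_one _
      | cons x l ih => rw [mk_cons, map_mul, ih, List.map_cons, mk_cons, toAut_gl]
    rw [this]
    refine le_trans FreeGroup.norm_mk_le ?_
    rw [List.length_map]
    rfl
  apply le_antisymm (key w _)
  have := key w⁻¹ (toAut w ((π g) (FreeGroup.of i)))
  rw [← MulAut.mul_apply, ← map_mul, inv_mul_cancel, map_one, MulAut.one_apply] at this
  exact this

end

end Pool.Agent.Helper156.OF
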