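import Pool.Agent.Helper156.OF.Rel

set_option autoImplicit false
set_option linter.unusedSectionVars false

namespace Pool.Agent.Helper156.OF

variable {α P : Type} [DecidableEq α] [Fintype α] [Group P]

/-- The element corresponding to the inner automorphism `x ↦ a⁻¹ x a`. -/
noncomputable def inn (E : Lt α → Lt α → P) (a : Lt α) : P :=
  cprod (fun x => E x a) (Finset.univ : Finset (Lt α))

namespace Rel

variable {W : SP α →* P} {E : Lt α → Lt α → P} (R : Rel W E)

include R

lemma inn_nv (a : Lt α) : inn E (nv a) = (inn E a)⁻¹ := by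
  unfold inn
  rw [cprod_inv (R.pc a)]
  exact cprod_congr fun x _ => R.e1 x a

/-- Splitting of `inn` along two indices. -/
lemma inn_split (y z : Lt α) (_h : y.1 ≠ z.1) :
    inn E y = (E z y * E (nv z) y) *
      cprod (fun x => E x y) (Finset.univ.filter (fun x : Lt α => x.1 ≠ y.1 ∧ x.1 ≠ z.1)) := by
  unfold inn
  set T := Finset.univ.filter (fun x : Lt α => x.1 ≠ y.1 ∧ x.1 ≠ z.1) with hT
  have hu : (Finset.univ : Finset (Lt α)) = insert y (insert (nv y) (insert z (insert (nv z) T))) := by
    ext x
    simp only [hT, Finset.mem_univ, Finset.mem_insert, Finset.mem_filter, true_and, true_iff]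
    by_cases h1 : x.1 = y.1
    · rcases fst_eq_iff.1 h1 with h | h
      · exact Or.inl h
      · exact Or.inr (Or.inl h)
    · by_cases h2 : x.1 = z.1
      · rcases fst_eq_iff.1 h2 with h | h
        · exact Or.inr (Or.inr (Or.inl h))
        · exact Or.inr (Or.inr (Or.inr (Or.inl h)))
      · exact Or.inr (Or.inr (Or.inr (Or.inr ⟨h1, h2⟩)))
  have n1 : nv z ∉ T := by simp [hT]
  have n2 : z ∉ insert (nv z) T := by simp [hT, ne_nv]
  rw [hu, cprod_insert_one (R.pc y) (R.junk y y rfl),
    cprod_insert_one (R.pc y) (R.junk (nv y) y rfl), cprod_insert (R.pc y) n2,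
    cprod_insert (R.pc y) n1, mul_assoc]

/-- Inner elements commute with elementary elements not moving the letter. -/
lemma inn_comm (a y b : Lt α) (hy : y.1 ≠ a.1) : Commute (inn E a) (E y b) := by
  by_cases hyb : y.1 = b.1
  · rw [R.junk y b hyb]
    exact Commute.one_right _
  by_cases hab : a.1 = b.1
  · unfold inn
    apply cprod_commute'
    intro x _
    rcases fst_eq_iff.1 hab with h | h
    · subst h
      exact R.comm_same _ _ _
    · rw [h, R.e1]
      exact (R.comm_same _ _ _).inv_left
  · rw [R.inn_split a b hab]
    set T := Finset.univ.filter (fun x : Lt α => x.1 ≠ a.1 ∧ x.1 ≠ b.1) with hT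
    have hyT : y ∈ T := by simp [hT, hy, hyb]
    rw [cprod_erase (R.pc a) hyT]
    have hrest : Commute (cprod (fun x => E x a) (T.erase y)) (E y b) := by
      apply cprod_commute'
      intro x hx
      have hx1 := Finset.ne_of_mem_erase hx
      have hx2 := Finset.mem_of_mem_erase hx
      simp only [hT, Finset.mem_filter, Finset.mem_univ, true_and] at hx2
      exact R.e2 x y a b hx1 hx2.2 hy
    rw [← mul_assoc]
    refine Commute.mul_left ?_ hrest
    have c1 := R.e3 y b a hyb hy (Ne.symm hab)
    have c2 := R.e3' y b a hyb hy (Ne.symm hab)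
    have c3 : Commute (E b a) (E y a) := R.comm_same a _ _
    have d1 : E (nv b) a * E y b = (E y a)⁻¹ * E y b * E (nv b) a := by
      rw [← c2]; group
    have d2 : E b a * E y b = E y b * E y a * E b a := by
      rw [← c1]; group
    have c4 : Commute (E (nv b) a) (E y a) := R.comm_same a _ _
    change E b a * E (nv b) a * E y a * E y b = E y b * (E b a * E (nv b) a * E y a)
    calc E b a * E (nv b) a * E y a * E y b
        = E y a * (E b a * (E (nv b) a * E y b)) := by
          rw [mul_assoc (E b a), c4.eq, ← mul_assoc, c3.eq]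
          simp only [mul_assoc]
      _ = E y a * (E b a * ((E y a)⁻¹ * E y b * E (nv b) a)) := by rw [d1]
      _ = E y a * (E y a)⁻¹ * (E b a * E y b) * E (nv b) a := by
          have : E b a * (E y a)⁻¹ = (E y a)⁻¹ * E b a := c3.inv_right.eq
          calc E y a * (E b a * ((E y a)⁻¹ * E y b * E (nv b) a))
              = E y a * (E b a * (E y a)⁻¹) * (E y b * E (nv b) a) := by group
            _ = E y a * ((E y a)⁻¹ * E b a) * (E y b * E (nv b) a) := by rw [this]
            _ = _ := by group
      _ = E y b * E y a * E b a * E (nv b) a := by rw [d2]; group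
      _ = E y b * (E b a * E (nv b) a * E y a) := by
          rw [mul_assoc (E b a), c4.eq, ← mul_assoc, ← mul_assoc, mul_assoc (E y b) (E b a) (E y a),
            c3.eq]
          simp only [mul_assoc]

/-- Conjugation of an inner element by an elementary element. -/
lemma inn_conj (y z : Lt α) (h : y.1 ≠ z.1) :
    E y z * inn E y * (E y z)⁻¹ = inn E z * inn E y := by
  set T := Finset.univ.filter (fun x : Lt α => x.1 ≠ y.1 ∧ x.1 ≠ z.1) with hT
  have hT' : Finset.univ.filter (fun x : Lt α => x.1 ≠ z.1 ∧ x.1 ≠ y.1) = T := by
    ext x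
    simp only [hT, Finset.mem_filter, Finset.mem_univ, true_and]
    exact and_comm
  have s1 := R.inn_split y z h
  have s2 := R.inn_split z y (Ne.symm h)
  rw [hT'] at s2
  rw [← hT] at s1
  set J := E z y * E (nv z) y with hJ
  set Ry := cprod (fun x => E x y) T with hRy
  set Rz := cprod (fun x => E x z) T with hRz
  have hJR : Commute J Ry := by
    apply Commute.mul_left
    · exact cprod_commute fun x _ => R.comm_same y _ _
    · exact cprod_commute fun x _ => R.comm_same y _ _
  have q : J * (E y z)⁻¹ * J⁻¹ = E (nv y) z := by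
    have := R.rank2 y z h
    rw [← hJ] at this
    rw [this]
    group
  have key : ∀ S : Finset (Lt α), S ⊆ T →
      cprod (fun x => E x y) S * E (nv y) z * (cprod (fun x => E x y) S)⁻¹
        = cprod (fun x => E x z) S * E (nv y) z := by
    intro S
    induction S using Finset.induction_on with
    | empty => intro _; simp
    | insert x S hx ih =>
      intro hS
      have hxT : x ∈ T := hS (Finset.mem_insert_self _ _)
      simp only [hT, Finset.mem_filter, Finset.mem_univ, true_and] at hxT
      rw [cprod_insert (R.pc y) hx, cprod_insert (R.pc z) hx]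
      have ih' := ih (fun t ht => hS (Finset.mem_insert_of_mem ht))
      have cz : Commute (E x y) (cprod (fun x => E x z) S) := by
        apply cprod_commute
        intro t ht
        have htT := hS (Finset.mem_insert_of_mem ht)
        simp only [hT, Finset.mem_filter, Finset.mem_univ, true_and] at htT
        exact R.e2 x t y z (fun h => hx (h ▸ ht)) hxT.2 htT.1
      have cx : Commute (E x z) (cprod (fun x => E x z) S) :=
        cprod_commute fun t _ => R.comm_same z _ _
      calc E x y * cprod (fun x => E x y) S * E (nv y) z * (E x y * cprod (fun x => E x y) S)⁻¹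
          = E x y * (cprod (fun x => E x y) S * E (nv y) z * (cprod (fun x => E x y) S)⁻¹)
              * (E x y)⁻¹ := by group
        _ = E x y * (cprod (fun x => E x z) S * E (nv y) z) * (E x y)⁻¹ := by rw [ih']
        _ = cprod (fun x => E x z) S * (E x y * E (nv y) z * (E x y)⁻¹) := by
            rw [← mul_assoc (E x y), cz.eq]; group
        _ = cprod (fun x => E x z) S * (E x z * E (nv y) z) := by
            rw [R.e3d x y z hxT.1 hxT.2 h]
        _ = E x z * cprod (fun x => E x z) S * E (nv y) z := by
            rw [← mul_assoc, cx.eq]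
  have k1 := key T (Finset.Subset.refl _)
  rw [← hRy, ← hRz] at k1
  have k2 : inn E y * (E y z)⁻¹ = Rz * E (nv y) z * inn E y := by
    rw [s1, hJR.eq]
    calc Ry * J * (E y z)⁻¹ = Ry * (J * (E y z)⁻¹ * J⁻¹) * Ry⁻¹ * (Ry * J) := by group
      _ = (Ry * E (nv y) z * Ry⁻¹) * (Ry * J) := by rw [q]
      _ = Rz * E (nv y) z * (Ry * J) := by rw [k1]
  have cR : Commute (E y z * E (nv y) z) Rz := by
    apply Commute.mul_left
    · exact cprod_commute fun x _ => R.comm_same z _ _
    · exact cprod_commute fun x _ => R.comm_same z _ _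
  have cR2 : Commute (E (nv y) z) Rz := cprod_commute fun x _ => R.comm_same z _ _
  rw [mul_assoc, k2, s2, mul_assoc (E y z), cR2.eq]
  simp only [mul_assoc]

end Rel

end Pool.Agent.Helper156.OF
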