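import Pool.Agent.Helper156.OF.LM

set_option autoImplicit false
set_option linter.unusedSectionVars false

namespace Pool.Agent.Helper156.OF

variable {α : Type} [DecidableEq α]

/-- The elementary involution `x ↦ x a`, `a ↦ a⁻¹` of the free group. -/
def sA (x a : Lt α) : MulAut (FreeGroup α) := se toAut eAut x a

/-- Signed permutations and elementary involutions. -/
def basic (α : Type) [DecidableEq α] : Set (MulAut (FreeGroup α)) :=
  {g | (∃ w : SP α, g = toAut w) ∨ ∃ x a : Lt α, x.1 ≠ a.1 ∧ g = sA x a}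

/-- Products of at most `k` basic elements. -/
def ball (α : Type) [DecidableEq α] : ℕ → Set (MulAut (FreeGroup α))
  | 0 => {1}
  | k + 1 => {h | ∃ g ∈ ball α k, ∃ u ∈ basic α, h = g * u}

/-- Conjugates of basic elements by elements of a ball. -/
def SS (α : Type) [DecidableEq α] (k : ℕ) : Set (MulAut (FreeGroup α)) :=
  {s | ∃ h ∈ ball α k, ∃ g ∈ basic α, s = h * g * h⁻¹}

lemma toAut_mem_basic (w : SP α) : toAut w ∈ basic α := Or.inl ⟨w, rfl⟩

lemma sA_mem_basic {x a : Lt α} (h : x.1 ≠ a.1) : sA x a ∈ basic α := Or.inr ⟨x, a, h, rfl⟩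

lemma one_mem_basic : (1 : MulAut (FreeGroup α)) ∈ basic α := Or.inl ⟨1, (map_one _).symm⟩

lemma ball_succ {k : ℕ} {h u : MulAut (FreeGroup α)} (hh : h ∈ ball α k) (hu : u ∈ basic α) :
    h * u ∈ ball α (k + 1) := ⟨h, hh, u, hu, rfl⟩

lemma ball_mono_succ {k : ℕ} {h : MulAut (FreeGroup α)} (hh : h ∈ ball α k) :
    h ∈ ball α (k + 1) := by
  have := ball_succ hh one_mem_basic
  rwa [mul_one] at this

lemma one_mem_ball (k : ℕ) : (1 : MulAut (FreeGroup α)) ∈ ball α k := by
  induction k with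
  | zero => rfl
  | succ k ih => exact ball_mono_succ ih

lemma basic_sub_ball_one {u : MulAut (FreeGroup α)} (hu : u ∈ basic α) : u ∈ ball α 1 := by
  have := ball_succ (one_mem_ball 0) hu
  rwa [one_mul] at this

lemma basic_sub_SS (k : ℕ) : basic α ⊆ SS α k := by
  intro g hg
  exact ⟨1, one_mem_ball k, g, hg, by group⟩

lemma LM.mono {G K : Type} [Group G] [Group K] {S S' : Set G} {f : G → K} (h : S' ⊆ S)
    (L : LM S f) : LM S' f := by
  intro T hT fin
  obtain ⟨F, hF⟩ := L T (hT.trans h) fin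
  exact ⟨F, fun g hg hg' => hF g hg (h hg')⟩

lemma valid_w (w : SP α) {x a : Lt α} (h : x.1 ≠ a.1) :
    ((w : Equiv.Perm (Lt α)) x).1 ≠ ((w : Equiv.Perm (Lt α)) a).1 := by
  intro e
  apply h
  rcases fst_eq_iff.1 e with e | e
  · rw [(w : Equiv.Perm (Lt α)).injective e]
  · rw [← SP.map_nv] at e
    rw [(w : Equiv.Perm (Lt α)).injective e, nv_fst]

lemma sA_sq {x a : Lt α} (h : x.1 ≠ a.1) : sA x a * sA x a = 1 :=
  (rel_aut (α := α)).toRel0.se_sq h

lemma sA_inv {x a : Lt α} (h : x.1 ≠ a.1) : (sA x a)⁻¹ = sA x a :=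
  (rel_aut (α := α)).toRel0.se_inv h

lemma W_sA (w : SP α) (x a : Lt α) : toAut w * sA x a * (toAut w)⁻¹ =
    sA ((w : Equiv.Perm (Lt α)) x) ((w : Equiv.Perm (Lt α)) a) :=
  (rel_aut (α := α)).toRel0.W_se w x a

lemma toAut_swp_sq (x y : Lt α) : toAut (swp x y) * toAut (swp x y) = 1 := by
  rw [← map_mul, swp_mul_self, map_one]

/-- Commuting elementary involutions. -/
lemma sA_comm {x y a b : Lt α} (hxy : x ≠ y) (h1 : x.1 ≠ b.1) (h2 : y.1 ≠ a.1)
    (h3 : a.1 ≠ b.1) : sA x a * sA y b = sA y b * sA x a := by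
  have R := rel_aut (α := α)
  have c1 : Commute (eAut x a) (eAut y b) := R.e2 x y a b hxy h1 h2
  have c2 : toAut (io a) * eAut y b = eAut y b * toAut (io a) := by
    rw [R.toRel0.W_E, io_other h2, io_other (Ne.symm h3)]
  have c3 : toAut (io b) * eAut x a = eAut x a * toAut (io b) := by
    rw [R.toRel0.W_E, io_other h1, io_other h3]
  have c4 : toAut (io a) * toAut (io b) = toAut (io b) * toAut (io a) := by
    rw [← map_mul, ← map_mul, io_comm_of_fix _ _ (io_other (Ne.symm h3))]
  unfold sA se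
  calc eAut x a * toAut (io a) * (eAut y b * toAut (io b))
      = eAut x a * (toAut (io a) * eAut y b) * toAut (io b) := by group
    _ = (eAut x a * eAut y b) * (toAut (io a) * toAut (io b)) := by rw [c2]; group
    _ = (eAut y b * eAut x a) * (toAut (io b) * toAut (io a)) := by rw [c1.eq, c4]
    _ = eAut y b * (toAut (io b) * eAut x a) * toAut (io a) := by rw [c3]; group
    _ = _ := by group

lemma sA_gl_left {x a : Lt α} (h : x.1 ≠ a.1) : sA x a (gl x) = gl x * gl a := by
  unfold sA se
  rw [MulAut.mul_apply, toAut_gl, io_other h, eAut_self_right x a h]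

lemma sA_gl_right {x a : Lt α} (h : x.1 ≠ a.1) : sA x a (gl a) = (gl a)⁻¹ := by
  unfold sA se
  rw [MulAut.mul_apply, toAut_gl, io_self, gl_nv, map_inv, eAut_fix x a a (Ne.symm h)]

lemma sA_gl_other {x a c : Lt α} (h1 : c.1 ≠ x.1) (h2 : c.1 ≠ a.1) : sA x a (gl c) = gl c := by
  unfold sA se
  rw [MulAut.mul_apply, toAut_gl, io_other h2, eAut_fix x a c h1]

/-- The braid relation. -/
lemma sA_braid {x a : Lt α} (h : x.1 ≠ a.1) :
    sA x a * toAut (swp x (nv a)) * sA x a =
      toAut (swp x (nv a)) * sA x a * toAut (swp x (nv a)) := by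
  have tx : toAut (swp x (nv a)) (gl x) = (gl a)⁻¹ := by rw [toAut_gl, swp_left, gl_nv]
  have ta : toAut (swp x (nv a)) (gl a) = (gl x)⁻¹ := by
    rw [toAut_gl]
    have : (swp x (nv a) : Equiv.Perm (Lt α)) a = nv x := by
      have := SP.map_nv (swp x (nv a)) (nv a)
      rwa [nv_nv, swp_right] at this
    rw [this, gl_nv]
  have kx : (sA x a * toAut (swp x (nv a)) * sA x a) (gl x) =
      (toAut (swp x (nv a)) * sA x a * toAut (swp x (nv a))) (gl x) := by
    simp only [MulAut.mul_apply]
    rw [sA_gl_left h, tx]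
    simp only [map_mul, map_inv]
    rw [tx, ta]
    simp only [map_inv]
    rw [sA_gl_left h, sA_gl_right h]
    simp only [map_inv]
    rw [ta]
    group
  have ka : (sA x a * toAut (swp x (nv a)) * sA x a) (gl a) =
      (toAut (swp x (nv a)) * sA x a * toAut (swp x (nv a))) (gl a) := by
    simp only [MulAut.mul_apply]
    rw [sA_gl_right h, ta]
    simp only [map_inv]
    rw [ta, sA_gl_left h]
    simp only [map_mul, map_inv]
    rw [sA_gl_left h, tx, ta]
    group
  apply aut_ext_gl
  intro c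
  by_cases h1 : c.1 = x.1
  · rcases fst_eq_iff.1 h1 with e | e
    · rw [e]; exact kx
    · rw [e, gl_nv, map_inv, map_inv, kx]
  · by_cases h2 : c.1 = a.1
    · rcases fst_eq_iff.1 h2 with e | e
      · rw [e]; exact ka
      · rw [e, gl_nv, map_inv, map_inv, ka]
    · have hs : toAut (swp x (nv a)) (gl c) = gl c := by
        rw [toAut_gl, swp_other h1 (by simpa using h2)]
      simp only [MulAut.mul_apply]
      rw [sA_gl_other h1 h2, hs, sA_gl_other h1 h2, hs]

lemma partners_sq {x a : Lt α} (hxa : x.1 ≠ a.1) {v : SP α} (hv : v ∈ partners x a) : v * v = 1 := by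
  rcases hv with rfl | ⟨b, hb1, hb2, rfl⟩ | ⟨b, c, _, _, _, _, rfl⟩
  · exact swp_mul_self _ _
  · have hfix : (swp a b : Equiv.Perm (Lt α)) x = x := swp_other hxa (Ne.symm hb1)
    have hc := io_comm_of_fix (swp a b) x hfix
    unfold io at hc
    calc swp x (nv x) * swp a b * (swp x (nv x) * swp a b)
        = swp x (nv x) * (swp a b * swp x (nv x)) * swp a b := by group
      _ = (swp x (nv x) * swp x (nv x)) * (swp a b * swp a b) := by rw [hc]; group
      _ = 1 := by rw [swp_mul_self, swp_mul_self, one_mul]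
  · exact swp_mul_self _ _

lemma partners_conj {x a : Lt α} {v : SP α} (hv : v ∈ partners x a) (w : SP α) :
    w * v * w⁻¹ ∈ partners ((w : Equiv.Perm (Lt α)) x) ((w : Equiv.Perm (Lt α)) a) := by
  rcases hv with rfl | ⟨b, hb1, hb2, rfl⟩ | ⟨b, c, hb1, hb2, hc1, hc2, rfl⟩
  · left
    rw [swp_conj, SP.map_nv]
  · right; left
    refine ⟨(w : Equiv.Perm (Lt α)) b, valid_w w hb1, valid_w w hb2, ?_⟩
    calc w * (swp x (nv x) * swp a b) * w⁻¹
        = (w * swp x (nv x) * w⁻¹) * (w * swp a b * w⁻¹) := by group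
      _ = _ := by rw [swp_conj, swp_conj, SP.map_nv]
  · right; right
    exact ⟨_, _, valid_w w hb1, valid_w w hb2, valid_w w hc1, valid_w w hc2, swp_conj w b c⟩

/-- Finiteness of the group generated by a partner and the elementary involution. -/
lemma fin_partner {x a : Lt α} (hxa : x.1 ≠ a.1) {v : SP α} (hv : v ∈ partners x a) :
    Finite (Subgroup.closure {toAut v, sA x a}) := by
  have vv : toAut v * toAut v = 1 := by rw [← map_mul, partners_sq hxa hv, map_one]
  have vi : (toAut v)⁻¹ = toAut v := inv_eq_of_mul_eq_one_left vv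
  have ss := sA_sq hxa
  have hc := W_sA v x a
  rw [vi] at hc
  rcases hv with rfl | ⟨b, hb1, hb2, rfl⟩ | ⟨b, c, hb1, hb2, hc1, hc2, rfl⟩
  · exact fin_braid vv ss (sA_braid hxa).symm
  · apply fin_d4 vv ss
    rw [hc]
    have e1 : ((swp x (nv x) * swp a b : SP α) : Equiv.Perm (Lt α)) x = nv x := by
      rw [Subgroup.coe_mul, Equiv.Perm.mul_apply, swp_other hxa (Ne.symm hb1), swp_left]
    have e2 : ((swp x (nv x) * swp a b : SP α) : Equiv.Perm (Lt α)) a = b := by
      rw [Subgroup.coe_mul, Equiv.Perm.mul_apply, swp_left]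
      exact swp_other hb1 (by simpa using hb1)
    rw [e1, e2]
    exact (sA_comm (ne_nv x) (Ne.symm hb1) (by simpa using hxa) (Ne.symm hb2)).symm
  · apply fin_comm vv ss
    have e1 : (swp b c : Equiv.Perm (Lt α)) x = x := swp_other (Ne.symm hb1) (Ne.symm hc1)
    have e2 : (swp b c : Equiv.Perm (Lt α)) a = a := swp_other (Ne.symm hb2) (Ne.symm hc2)
    rw [e1, e2] at hc
    calc toAut (swp b c) * sA x a
        = toAut (swp b c) * sA x a * (toAut (swp b c) * toAut (swp b c)) := by rw [vv, mul_one]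
      _ = sA x a * toAut (swp b c) := by rw [← mul_assoc, hc]

section K

variable [Fintype α] {K : Type} [Group K] {f : MulAut (FreeGroup α) → K}

lemma finite_range_toAut : Finite (toAut : SP α →* MulAut (FreeGroup α)).range :=
  Finite.of_surjective _ (toAut : SP α →* MulAut (FreeGroup α)).rangeRestrict_surjective

lemma f_W_mul (L : LM (basic α) f) (w v : SP α) :
    f (toAut (w * v)) = f (toAut w) * f (toAut v) := by
  rw [map_mul]
  refine L.sub finite_range_toAut ?_ ⟨w, rfl⟩ ⟨v, rfl⟩
  rintro _ ⟨w, rfl⟩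
  exact toAut_mem_basic w

/-- The homomorphism on signed permutations. -/
def WK (L : LM (basic α) f) : SP α →* K := MonoidHom.mk' (fun w => f (toAut w)) (f_W_mul L)

lemma WK_apply (L : LM (basic α) f) (w : SP α) : WK L w = f (toAut w) := rfl

/-- First equivariance. -/
theorem gI (h3 : 3 ≤ Fintype.card α) (L : LM (basic α) f) {x a : Lt α} (hxa : x.1 ≠ a.1)
    (w : SP α) : f (toAut w) * f (sA x a) * (f (toAut w))⁻¹ =
      f (sA ((w : Equiv.Perm (Lt α)) x) ((w : Equiv.Perm (Lt α)) a)) := by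
  have hw : w ∈ Subgroup.closure (partners x a) := by
    rw [closure_partners x a hxa h3]
    trivial
  have key : ∀ (w v : SP α), v ∈ partners x a →
      f (toAut w) * f (sA x a) * (f (toAut w))⁻¹ =
        f (sA ((w : Equiv.Perm (Lt α)) x) ((w : Equiv.Perm (Lt α)) a)) →
      f (toAut (w * v)) * f (sA x a) * (f (toAut (w * v)))⁻¹ =
        f (sA (((w * v : SP α) : Equiv.Perm (Lt α)) x) (((w * v : SP α) : Equiv.Perm (Lt α)) a)) := by
    intro w v hv ih
    set v' := w * v * w⁻¹ with hv'
    have e : w * v = v' * w := by rw [hv']; group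
    have hp := partners_conj hv w
    have hval := valid_w w hxa
    have hc := W_sA v' ((w : Equiv.Perm (Lt α)) x) ((w : Equiv.Perm (Lt α)) a)
    have hconj := L.conj (u := toAut v') (v := sA ((w : Equiv.Perm (Lt α)) x)
      ((w : Equiv.Perm (Lt α)) a)) (toAut_mem_basic _) (sA_mem_basic hval)
      (by rw [hc]; exact sA_mem_basic (valid_w v' hval)) (fin_partner hval hp)
    rw [hc] at hconj
    rw [e, f_W_mul L]
    calc f (toAut v') * f (toAut w) * f (sA x a) * (f (toAut v') * f (toAut w))⁻¹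
        = f (toAut v') * (f (toAut w) * f (sA x a) * (f (toAut w))⁻¹) * (f (toAut v'))⁻¹ := by
          group
      _ = _ := by
          rw [ih, ← hconj]
          rfl
  induction hw using Subgroup.closure_induction_right with
  | one =>
    have : f (toAut (1 : SP α)) = 1 := map_one (WK L)
    rw [this]
    simp
  | mul_right w _ v hv ih => exact key w v hv ih
  | mul_inv_cancel w _ v hv ih =>
    have : v⁻¹ = v := inv_eq_of_mul_eq_one_left (partners_sq hxa hv)
    rw [this]
    exact key w v hv ih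

/-- Second equivariance. -/
theorem gII (h3 : 3 ≤ Fintype.card α) (L : LM (SS α 1) f) {x a : Lt α} (hxa : x.1 ≠ a.1)
    (w : SP α) : f (sA x a) * f (toAut w) * (f (sA x a))⁻¹ =
      f (sA x a * toAut w * (sA x a)⁻¹) := by
  have hb : basic α ⊆ SS α 1 := basic_sub_SS 1
  have L0 : LM (basic α) f := L.mono hb
  have hs1 : sA x a ∈ basic α := sA_mem_basic hxa
  have hw : w ∈ Subgroup.closure (partners x a) := by
    rw [closure_partners x a hxa h3]
    trivial
  have hmem : ∀ w : SP α, sA x a * toAut w * (sA x a)⁻¹ ∈ SS α 1 := fun w =>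
    ⟨sA x a, basic_sub_ball_one hs1, toAut w, toAut_mem_basic w, rfl⟩
  set H : Subgroup (MulAut (FreeGroup α)) :=
    ((toAut : SP α →* MulAut (FreeGroup α)).range).map (MulAut.conj (sA x a)).toMonoidHom with hH
  have hfin : Finite H := by
    have h0 := finite_range_toAut (α := α)
    have h1 : (((toAut : SP α →* MulAut (FreeGroup α)).range : Subgroup (MulAut (FreeGroup α))) :
        Set (MulAut (FreeGroup α))).Finite := h0
    exact Set.Finite.image _ h1
  have hHS : (H : Set (MulAut (FreeGroup α))) ⊆ SS α 1 := by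
    rintro _ ⟨_, ⟨w, rfl⟩, rfl⟩
    exact hmem w
  have hHmem : ∀ w : SP α, sA x a * toAut w * (sA x a)⁻¹ ∈ H := fun w =>
    ⟨toAut w, ⟨w, rfl⟩, rfl⟩
  have key : ∀ (w v : SP α), v ∈ partners x a →
      f (sA x a) * f (toAut w) * (f (sA x a))⁻¹ = f (sA x a * toAut w * (sA x a)⁻¹) →
      f (sA x a) * f (toAut (w * v)) * (f (sA x a))⁻¹ =
        f (sA x a * toAut (w * v) * (sA x a)⁻¹) := by
    intro w v hv ih
    have hpair : Finite (Subgroup.closure {sA x a, toAut v}) := by
      have := fin_partner hxa hv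
      rwa [Set.pair_comm] at this
    have h1 := L.conj (u := sA x a) (v := toAut v) (hb hs1) (hb (toAut_mem_basic v)) (hmem v) hpair
    have h2 := L.sub hfin hHS (hHmem w) (hHmem v)
    have h3' : sA x a * toAut w * (sA x a)⁻¹ * (sA x a * toAut v * (sA x a)⁻¹) =
        sA x a * toAut (w * v) * (sA x a)⁻¹ := by
      rw [map_mul]; group
    rw [h3'] at h2
    rw [h2, h1, ← ih, f_W_mul L0]
    group
  induction hw using Subgroup.closure_induction_right with
  | one =>
    have h1 : f (toAut (1 : SP α)) = 1 := map_one (WK L0)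
    have h2 : sA x a * toAut (1 : SP α) * (sA x a)⁻¹ = toAut (1 : SP α) := by
      rw [map_one]; group
    rw [h2, h1]
    group
  | mul_right w _ v hv ih => exact key w v hv ih
  | mul_inv_cancel w _ v hv ih =>
    have : v⁻¹ = v := inv_eq_of_mul_eq_one_left (partners_sq hxa hv)
    rw [this]
    exact key w v hv ih

end K

end Pool.Agent.Helper156.OF
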