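import Pool.Agent.Helper156.OF.KRel

set_option autoImplicit false
set_option linter.unusedSectionVars false

namespace Pool.Agent.Helper156.OF

variable {α : Type} [DecidableEq α] [Fintype α] {K : Type} [Group K]

/-- The elementary elements in the target group. -/
noncomputable def EK (f : MulAut (FreeGroup α) → K) (x a : Lt α) : K :=
  if x.1 = a.1 then 1 else f (sA x a) * f (toAut (io a))

variable {f : MulAut (FreeGroup α) → K}

lemma f_io_sq (L : LM (basic α) f) (a : Lt α) : f (toAut (io a)) * f (toAut (io a)) = 1 := by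
  rw [← f_W_mul L, io_sq]
  exact map_one (WK L)

lemma f_sA_sq (L : LM (basic α) f) {x a : Lt α} (h : x.1 ≠ a.1) :
    f (sA x a) * f (sA x a) = 1 := L.sq (sA_mem_basic h) (sA_sq h)

theorem krel0 (h3 : 3 ≤ Fintype.card α) (L : LM (basic α) f) : Rel0 (WK L) (EK f) where
  junk x a h := by simp [EK, h]
  e0 w x a := by
    by_cases hxa : x.1 = a.1
    · have h' : ((w : Equiv.Perm (Lt α)) x).1 = ((w : Equiv.Perm (Lt α)) a).1 := by
        rcases fst_eq_iff.1 hxa with e | e
        · rw [e]
        · rw [e, SP.map_nv, nv_fst]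
      simp [EK, hxa, h']
    · have h' := valid_w w hxa
      unfold EK
      rw [if_neg hxa, if_neg h', ← gI h3 L hxa w, ← io_conj w a]
      change WK L w * (f (sA x a) * WK L (io a)) * (WK L w)⁻¹ =
        WK L w * f (sA x a) * (WK L w)⁻¹ * WK L (w * io a * w⁻¹)
      rw [map_mul, map_mul, map_inv]
      group
  e1 x a := by
    by_cases hxa : x.1 = a.1
    · have h' : x.1 = (nv a).1 := hxa
      unfold EK
      rw [if_pos hxa, if_pos h', inv_one]
    · have h' : x.1 ≠ (nv a).1 := hxa
      unfold EK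
      rw [if_neg hxa, if_neg h', io_nv]
      have h := gI h3 L hxa (io a)
      rw [io_other hxa, io_self] at h
      rw [← h, mul_inv_rev, inv_eq_of_mul_eq_one_left (f_io_sq L a),
        inv_eq_of_mul_eq_one_left (f_sA_sq L hxa), mul_assoc _ (f (toAut (io a))), f_io_sq L a,
        mul_one]

lemma seK (L : LM (basic α) f) {x a : Lt α} (h : x.1 ≠ a.1) :
    se (WK L) (EK f) x a = f (sA x a) := by
  unfold se EK
  rw [if_neg h, WK_apply, mul_assoc, f_io_sq L a, mul_one]

lemma wI (h3 : 3 ≤ Fintype.card α) (L : LM (basic α) f) {x a : Lt α} (hxa : x.1 ≠ a.1)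
    (w : SP α) : f (toAut w) * f (sA x a) =
      f (sA ((w : Equiv.Perm (Lt α)) x) ((w : Equiv.Perm (Lt α)) a)) * f (toAut w) := by
  rw [← gI h3 L hxa w]
  group

/-- The conjugate of a signed transposition, on the level of values. -/
lemma f_phi (h3 : 3 ≤ Fintype.card α) (L1 : LM (SS α 1) f) {x y a : Lt α} (hx : x.1 ≠ a.1)
    (hy : y.1 ≠ a.1) : f (sA x a * toAut (swp x y * io a) * (sA x a)⁻¹) =
      EK f x a * EK f y a * f (toAut (swp x y * io a)) := by
  have L : LM (basic α) f := L1.mono (basic_sub_SS 1)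
  rw [← gII h3 L1 hx, ← seK L hx]
  exact (krel0 h3 L).phi hx hy

lemma g_phi {x y a : Lt α} (hx : x.1 ≠ a.1) (hy : y.1 ≠ a.1) :
    sA x a * toAut (swp x y * io a) * (sA x a)⁻¹ =
      eAut x a * eAut y a * toAut (swp x y * io a) :=
  (rel_aut (α := α)).toRel0.phi hx hy

lemma swp_io_sq {x y a : Lt α} (hx : x.1 ≠ a.1) (hy : y.1 ≠ a.1) :
    (swp x y * io a) * (swp x y * io a) = 1 := by
  have hfix : (swp x y : Equiv.Perm (Lt α)) a = a := swp_other (Ne.symm hx) (Ne.symm hy)
  have hc := io_comm_of_fix (swp x y) a hfix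
  calc (swp x y * io a) * (swp x y * io a) = swp x y * (io a * swp x y) * io a := by group
    _ = (swp x y * swp x y) * (io a * io a) := by rw [← hc]; group
    _ = 1 := by rw [swp_mul_self, io_sq, one_mul]

lemma conj_sq {G : Type} [Group G] {s g : G} (h : g * g = 1) :
    (s * g * s⁻¹) * (s * g * s⁻¹) = 1 := by
  calc (s * g * s⁻¹) * (s * g * s⁻¹) = s * (g * g) * s⁻¹ := by group
    _ = 1 := by rw [h]; group

lemma mem_SS_one {u g : MulAut (FreeGroup α)} (hu : u ∈ basic α) (hg : g ∈ basic α) :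
    u * g * u⁻¹ ∈ SS α 1 := ⟨u, basic_sub_ball_one hu, g, hg, rfl⟩

/-- Commutation with the same multiplier. -/
lemma ek_same (h3 : 3 ≤ Fintype.card α) (L1 : LM (SS α 1) f) {x y a : Lt α} (_hxy : x ≠ y)
    (hx : x.1 ≠ a.1) (hy : y.1 ≠ a.1) : Commute (EK f x a) (EK f y a) := by
  have L : LM (basic α) f := L1.mono (basic_sub_SS 1)
  have R0 := krel0 h3 L
  set w := swp x y with hw
  set g := sA x a * toAut (w * io a) * (sA x a)⁻¹ with hg
  have hfix : (w : Equiv.Perm (Lt α)) a = a := swp_other (Ne.symm hx) (Ne.symm hy)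
  have hwx : (w : Equiv.Perm (Lt α)) x = y := swp_left _ _
  have hwy : (w : Equiv.Perm (Lt α)) y = x := swp_right _ _
  have hgS : g ∈ SS α 1 := mem_SS_one (sA_mem_basic hx) (toAut_mem_basic _)
  have hwS : toAut w ∈ SS α 1 := basic_sub_SS 1 (toAut_mem_basic w)
  have hgg : g * g = 1 := conj_sq (by rw [← map_mul, swp_io_sq hx hy, map_one])
  have hww : toAut w * toAut w = 1 := toAut_swp_sq x y
  have hio : w * io a = io a * w := io_comm_of_fix w a hfix
  -- in the automorphism group
  have hcomm : g * toAut w = toAut w * g := by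
    have R := rel_aut (α := α)
    rw [hg, hw, g_phi hx hy, ← hw]
    have c1 : toAut w * eAut x a = eAut y a * toAut w := by
      rw [R.toRel0.W_E, hwx, hfix]
    have c2 : toAut w * eAut y a = eAut x a * toAut w := by
      rw [R.toRel0.W_E, hwy, hfix]
    have c3 := (R.comm_same a x y).eq
    have c4 : toAut w * toAut (w * io a) = toAut (w * io a) * toAut w := by
      rw [← map_mul, ← map_mul]
      congr 1
      rw [mul_assoc w (io a) w, ← hio]
    calc eAut x a * eAut y a * toAut (w * io a) * toAut w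
        = eAut y a * eAut x a * (toAut w * toAut (w * io a)) := by rw [c3, c4]; group
      _ = eAut y a * (eAut x a * toAut w) * toAut (w * io a) := by group
      _ = (eAut y a * toAut w) * eAut y a * toAut (w * io a) := by rw [← c2]; group
      _ = _ := by rw [← c1]; group
  have key := L1.comm hgS hwS (fin_comm hgg hww hcomm) hcomm
  rw [hg, hw, f_phi h3 L1 hx hy, ← hw] at key
  have c1 : f (toAut w) * EK f x a = EK f y a * f (toAut w) := by
    have := R0.W_E w x a
    rw [hwx, hfix] at this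
    exact this
  have c2 : f (toAut w) * EK f y a = EK f x a * f (toAut w) := by
    have := R0.W_E w y a
    rw [hwy, hfix] at this
    exact this
  have c4 : f (toAut (w * io a)) * f (toAut w) = f (toAut w) * f (toAut (w * io a)) := by
    rw [← f_W_mul L, ← f_W_mul L]
    congr 2
    rw [mul_assoc w (io a) w, ← hio]
  have : EK f x a * EK f y a * (f (toAut w) * f (toAut (w * io a))) =
      EK f y a * EK f x a * (f (toAut w) * f (toAut (w * io a))) := by
    calc EK f x a * EK f y a * (f (toAut w) * f (toAut (w * io a)))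
        = EK f x a * EK f y a * f (toAut (w * io a)) * f (toAut w) := by rw [← c4]; group
      _ = f (toAut w) * (EK f x a * EK f y a * f (toAut (w * io a))) := key
      _ = (f (toAut w) * EK f x a) * EK f y a * f (toAut (w * io a)) := by group
      _ = EK f y a * (f (toAut w) * EK f y a) * f (toAut (w * io a)) := by rw [c1]; group
      _ = _ := by rw [c2]; group
  exact mul_right_cancel this

lemma ek_diff (h3 : 3 ≤ Fintype.card α) (L : LM (basic α) f) {x y a b : Lt α} (hxy : x ≠ y)
    (hx : x.1 ≠ a.1) (hy : y.1 ≠ b.1) (h1 : x.1 ≠ b.1) (h2 : y.1 ≠ a.1) (hab : a.1 ≠ b.1) :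
    Commute (EK f x a) (EK f y b) := by
  have c1 : Commute (f (sA x a)) (f (sA y b)) :=
    L.comm (sA_mem_basic hx) (sA_mem_basic hy)
      (fin_comm (sA_sq hx) (sA_sq hy) (sA_comm hxy h1 h2 hab)) (sA_comm hxy h1 h2 hab)
  have c2 : Commute (f (toAut (io a))) (f (sA y b)) := by
    have := wI h3 L hy (io a)
    rw [io_other h2, io_other (Ne.symm hab)] at this
    exact this
  have c3 : Commute (f (toAut (io b))) (f (sA x a)) := by
    have := wI h3 L hx (io b)
    rw [io_other h1, io_other hab] at this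
    exact this
  have c4 : Commute (f (toAut (io a))) (f (toAut (io b))) := by
    change f (toAut (io a)) * f (toAut (io b)) = f (toAut (io b)) * f (toAut (io a))
    rw [← f_W_mul L, ← f_W_mul L, io_comm_of_fix _ _ (io_other (Ne.symm hab))]
  unfold EK
  rw [if_neg hx, if_neg hy]
  exact (c1.mul_right c3.symm).mul_left (c2.mul_right c4)

/-- Values on the third type of involutions, computed in two ways. -/
lemma ek_three (h3 : 3 ≤ Fintype.card α) (L1 : LM (SS α 1) f) {x y z : Lt α} (h1 : x.1 ≠ y.1)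
    (h2 : x.1 ≠ z.1) (h4 : y.1 ≠ z.1) :
    EK f x y * EK f (nv y) z * (EK f x y)⁻¹ = EK f (nv y) z * EK f x z := by
  have L : LM (basic α) f := L1.mono (basic_sub_SS 1)
  have R0 := krel0 h3 L
  have RA := (rel_aut (α := α)).toRel0
  have h1' : x.1 ≠ (nv y).1 := h1
  have h4' : (nv y).1 ≠ z.1 := h4
  set s := sA x y with hs
  set s₂ := sA y z with hs₂
  set Z := s * s₂ * s⁻¹ with hZ
  have hsb : s ∈ basic α := sA_mem_basic h1
  have hs₂b : s₂ ∈ basic α := sA_mem_basic h4
  have hss : s * s = 1 := sA_sq h1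
  have hsi : s⁻¹ = s := sA_inv h1
  have hZS : Z ∈ SS α 1 := mem_SS_one hsb hs₂b
  have hZZ : Z * Z = 1 := conj_sq (sA_sq h4)
  set τ := swp x (nv y) with hτ
  have hτS : toAut τ ∈ SS α 1 := basic_sub_SS 1 (toAut_mem_basic τ)
  have hττ : toAut τ * toAut τ = 1 := toAut_swp_sq _ _
  have τx : (τ : Equiv.Perm (Lt α)) x = nv y := swp_left _ _
  have τny : (τ : Equiv.Perm (Lt α)) (nv y) = x := swp_right _ _
  have τy : (τ : Equiv.Perm (Lt α)) y = nv x := by
    have := SP.map_nv τ (nv y)
    rwa [nv_nv, τny] at this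
  have τz : (τ : Equiv.Perm (Lt α)) z = z := swp_other (Ne.symm h2) (by simpa using Ne.symm h4)
  -- the group elements
  have hZ1 : Z = eAut x y * eAut (nv y) z * (eAut x y)⁻¹ * toAut (io z) := by
    have := RA.two h1 h2 h4
    exact this
  have hZ2 : Z = eAut (nv y) z * eAut x z * toAut (io z) := by
    rw [hZ1]
    congr 1
    have := (rel_aut (α := α)).e3d x y z h1 h2 h4
    rw [this]
    exact ((rel_aut (α := α)).comm_same z _ _).eq
  set p' := sA (nv y) z * toAut (swp (nv y) x * io z) * (sA (nv y) z)⁻¹ with hp'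
  have hp'S : p' ∈ SS α 1 := mem_SS_one (sA_mem_basic h4') (toAut_mem_basic _)
  have hswp : swp (nv y) x = τ := by rw [hτ, swp_comm]
  have hioτ : τ * io z = io z * τ := io_comm_of_fix τ z τz
  have hp'Z : p' = Z * toAut τ := by
    rw [hp', g_phi h4' h2, hZ2, hswp, hioτ, map_mul]
    group
  have hZτ : Z * toAut τ = toAut τ * Z := by
    rw [hZ2]
    have R := rel_aut (α := α)
    have c1 : toAut τ * eAut (nv y) z = eAut x z * toAut τ := by
      rw [R.toRel0.W_E, τny, τz]
    have c2 : toAut τ * eAut x z = eAut (nv y) z * toAut τ := by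
      rw [R.toRel0.W_E, τx, τz]
    have c3 := (R.comm_same z (nv y) x).eq
    have c4 : toAut (io z) * toAut τ = toAut τ * toAut (io z) := by
      rw [← map_mul, ← map_mul, hioτ]
    calc eAut (nv y) z * eAut x z * toAut (io z) * toAut τ
        = eAut x z * eAut (nv y) z * (toAut τ * toAut (io z)) := by rw [c3, ← c4]; group
      _ = eAut x z * (eAut (nv y) z * toAut τ) * toAut (io z) := by group
      _ = (eAut x z * toAut τ) * eAut x z * toAut (io z) := by rw [← c2]; group
      _ = _ := by rw [← c1]; group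
  -- first computation
  have v1 : f Z = EK f (nv y) z * EK f x z * f (toAut (io z)) := by
    have e1 : f (Z * toAut τ) = f Z * f (toAut τ) :=
      L1.mul hZS hτS (by rw [← hp'Z]; exact hp'S) (fin_comm hZZ hττ hZτ)
    rw [← hp'Z, hp', f_phi h3 L1 h4' h2, hswp, hioτ, f_W_mul L, ← mul_assoc] at e1
    exact (mul_right_cancel e1).symm
  -- second computation
  set w₂ := swp x (nv z) * io y with hw₂
  have w₂ny : (w₂ : Equiv.Perm (Lt α)) (nv y) = y := by
    rw [hw₂, Subgroup.coe_mul, Equiv.Perm.mul_apply, SP.map_nv, io_self, nv_nv]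
    exact swp_other (Ne.symm h1) (by simpa using h4)
  have w₂nx : (w₂ : Equiv.Perm (Lt α)) (nv x) = z := by
    rw [hw₂, Subgroup.coe_mul, Equiv.Perm.mul_apply, SP.map_nv, SP.map_nv, io_other h1,
      swp_left, nv_nv]
  set p := s * toAut w₂ * s⁻¹ with hp
  have hpS : p ∈ SS α 1 := mem_SS_one hsb (toAut_mem_basic _)
  have hw₂sq : w₂ * w₂ = 1 := swp_io_sq h1 (by simpa using Ne.symm h4)
  have hpp : p * p = 1 := conj_sq (by rw [← map_mul, hw₂sq, map_one])
  have hbr : s * toAut τ * s = toAut τ * s * toAut τ := sA_braid h1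
  have hr : s⁻¹ * toAut τ * s = sA (nv y) (nv x) := by
    rw [hsi, hbr]
    have := W_sA τ x y
    rw [τx, τy, inv_eq_of_mul_eq_one_left hττ] at this
    exact this
  have hw₂r : toAut w₂ * sA (nv y) (nv x) * (toAut w₂)⁻¹ = s₂ := by
    rw [W_sA, w₂ny, w₂nx]
  have hpτ : p * toAut τ * p⁻¹ = Z := by
    calc p * toAut τ * p⁻¹ = s * (toAut w₂ * (s⁻¹ * toAut τ * s) * (toAut w₂)⁻¹) * s⁻¹ := by
          rw [hp]; group
      _ = Z := by rw [hr, hw₂r]
  have hpi : p⁻¹ = p := inv_eq_of_mul_eq_one_left hpp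
  have hfin4 : Finite (Subgroup.closure {p, toAut τ}) := by
    apply fin_d4 hpp hττ
    rw [hpi] at hpτ
    rw [hpτ]
    exact hZτ
  have v2 : f Z = f p * f (toAut τ) * (f p)⁻¹ := by
    have := L1.conj hpS hτS (by rw [hpτ]; exact hZS) hfin4
    rwa [hpτ] at this
  have v3 : f p = f s * f (toAut w₂) * (f s)⁻¹ := (gII h3 L1 h1 w₂).symm
  have v4 : (f s)⁻¹ * f (toAut τ) * f s = f (sA (nv y) (nv x)) := by
    have hb := L1.braid (basic_sub_SS 1 hsb) hτS
      (fin_braid hss hττ hbr) hbr
    have hfs : (f s)⁻¹ = f s := inv_eq_of_mul_eq_one_left (f_sA_sq L h1)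
    have hg := gI h3 L h1 τ
    rw [τx, τy] at hg
    have hfτ : (f (toAut τ))⁻¹ = f (toAut τ) := by
      apply inv_eq_of_mul_eq_one_left
      rw [← f_W_mul L, hτ, swp_mul_self]
      exact map_one (WK L)
    rw [hfs, hb, ← hg, hfτ]
  have v5 : f (toAut w₂) * f (sA (nv y) (nv x)) * (f (toAut w₂))⁻¹ = f s₂ := by
    have hval : (nv y).1 ≠ (nv x).1 := by simpa using Ne.symm h1
    rw [gI h3 L hval w₂, w₂ny, w₂nx]
  have v6 : f Z = f s * f s₂ * (f s)⁻¹ := by
    rw [v2, v3, ← v5, ← v4]
    group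
  have v7 : f s * f s₂ * (f s)⁻¹ =
      EK f x y * EK f (nv y) z * (EK f x y)⁻¹ * f (toAut (io z)) := by
    rw [← seK L h1, ← seK L h4]
    exact R0.two h1 h2 h4
  have : EK f x y * EK f (nv y) z * (EK f x y)⁻¹ * f (toAut (io z)) =
      EK f (nv y) z * EK f x z * f (toAut (io z)) := by
    rw [← v7, ← v6, v1]
  exact mul_right_cancel this

/-- All relations hold for the values of a locally multiplicative function. -/
theorem krel (h3 : 3 ≤ Fintype.card α) (L1 : LM (SS α 1) f) (L : LM (basic α) f) :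
    Rel (WK L) (EK f) where
  junk := (krel0 h3 L).junk
  e0 := (krel0 h3 L).e0
  e1 := (krel0 h3 L).e1
  e2 x y a b hxy h1 h2 := by
    by_cases hx : x.1 = a.1
    · rw [(krel0 h3 L).junk x a hx]
      exact Commute.one_left _
    by_cases hy : y.1 = b.1
    · rw [(krel0 h3 L).junk y b hy]
      exact Commute.one_right _
    by_cases hab : a.1 = b.1
    · rcases fst_eq_iff.1 hab.symm with e | e
      · rw [e]
        exact ek_same h3 L1 hxy hx h2
      · rw [e, (krel0 h3 L).e1]
        exact (ek_same h3 L1 hxy hx h2).inv_right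
    · exact ek_diff h3 L hxy hx hy h1 h2 hab
  e3 x y z h1 h2 h4 := by
    have R0 := krel0 h3 L
    have h := ek_three h3 L1 (x := x) (y := nv y) (z := z) (by simpa using h1) h2
      (by simpa using h4)
    rw [nv_nv, R0.e1, inv_inv] at h
    have hc : EK f y z * EK f x z = EK f x z * EK f y z := by
      have hyx : y ≠ x := fun e => h1 (e ▸ rfl)
      exact (ek_same h3 L1 hyx h4 h2).eq
    have h5 : EK f y z * EK f x y = EK f x y * (EK f y z * EK f x z) := by
      rw [← h]; group
    rw [mul_inv_eq_iff_eq_mul, h5, hc, mul_assoc]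
  e4 a b σ hab s1 s2 s3 := by
    have R0 := krel0 h3 L
    refine R0.four hab ?_ σ s1 s2 s3
    have hba : b.1 ≠ a.1 := Ne.symm hab
    rw [seK L hba, WK_apply]
    exact L.braid (sA_mem_basic hba) (toAut_mem_basic _)
      (fin_braid (sA_sq hba) (toAut_swp_sq _ _) (sA_braid hba)) (sA_braid hba)

end Pool.Agent.Helper156.OF
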