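import Pool.Agent.Helper156.OF.Swp

set_option autoImplicit false
set_option linter.unusedSectionVars false
set_option linter.unusedSimpArgs false

namespace Pool.Agent.Helper156.OF

variable {α : Type} [DecidableEq α]

/-- The signed permutations generating with `s_{x,a}` a finite group. -/
def partners (x a : Lt α) : Set (SP α) :=
  {v | v = swp x (nv a) ∨ (∃ b : Lt α, b.1 ≠ x.1 ∧ b.1 ≠ a.1 ∧ v = swp x (nv x) * swp a b) ∨
    (∃ b c : Lt α, b.1 ≠ x.1 ∧ b.1 ≠ a.1 ∧ c.1 ≠ x.1 ∧ c.1 ≠ a.1 ∧ v = swp b c)}

/-- Auxiliary result 1. -/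
theorem closure_swp [Fintype α] :
    Subgroup.closure {v : SP α | ∃ b c : Lt α, v = swp b c} = ⊤ := by
  classical
  rw [eq_top_iff]
  intro σ hσ
  clear hσ
  obtain ⟨n, hn⟩ : ∃ n, n = (Finset.univ.filter
    (fun y : Lt α => (σ : Equiv.Perm (Lt α)) y ≠ y)).card := ⟨_, rfl⟩
  induction n using Nat.strong_induction_on generalizing σ with
  | _ n ih =>
    by_cases hfix : ∀ y, (σ : Equiv.Perm (Lt α)) y = y
    · have : σ = 1 := SP_ext hfix
      rw [this]
      exact Subgroup.one_mem _
    · push Not at hfix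
      obtain ⟨y, hy⟩ := hfix
      have hinj := (σ : Equiv.Perm (Lt α)).injective
      have hτy : ((swp ((σ : Equiv.Perm (Lt α)) y) y * σ : SP α) : Equiv.Perm (Lt α)) y = y := by
        rw [Subgroup.coe_mul, Equiv.Perm.mul_apply, swp_left]
      have hτc : ∀ c, (σ : Equiv.Perm (Lt α)) c = c →
          ((swp ((σ : Equiv.Perm (Lt α)) y) y * σ : SP α) : Equiv.Perm (Lt α)) c = c := by
        intro c hc
        rw [Subgroup.coe_mul, Equiv.Perm.mul_apply, hc]
        apply swp_other
        · intro h
          rcases fst_eq_iff.1 h with h | h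
          · apply hy
            apply hinj
            rw [← h, hc]
          · apply hy
            apply hinj
            have h2 : (σ : Equiv.Perm (Lt α)) (nv c) = nv c := by rw [SP.map_nv, hc]
            have h3 : nv c = (σ : Equiv.Perm (Lt α)) y := by rw [h, nv_nv]
            rw [← h3, h2]
        · intro h
          rcases fst_eq_iff.1 h with h | h
          · exact hy (h ▸ hc)
          · apply hy
            have h3 : nv c = y := by rw [h, nv_nv]
            rw [← h3, SP.map_nv, hc]
      have hlt : (Finset.univ.filter (fun z : Lt α =>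
          ((swp ((σ : Equiv.Perm (Lt α)) y) y * σ : SP α) : Equiv.Perm (Lt α)) z ≠ z)).card < n := by
        rw [hn]
        apply Finset.card_lt_card
        rw [Finset.ssubset_iff_of_subset]
        · exact ⟨y, Finset.mem_filter.2 ⟨Finset.mem_univ _, hy⟩, fun h => (Finset.mem_filter.1 h).2 hτy⟩
        · intro z hz
          rw [Finset.mem_filter] at hz ⊢
          exact ⟨Finset.mem_univ _, fun h => hz.2 (hτc z h)⟩
      have hmem : swp ((σ : Equiv.Perm (Lt α)) y) y * σ ∈
          Subgroup.closure {v : SP α | ∃ b c : Lt α, v = swp b c} := ih _ hlt rfl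
      have hgen : swp ((σ : Equiv.Perm (Lt α)) y) y ∈
          Subgroup.closure {v : SP α | ∃ b c : Lt α, v = swp b c} :=
        Subgroup.subset_closure ⟨_, _, rfl⟩
      have := Subgroup.mul_mem _ hgen hmem
      rwa [← mul_assoc, swp_mul_self, one_mul] at this

lemma swp_comm (p q : Lt α) : swp p q = swp q p := by
  apply SP_ext
  intro c
  rw [swp_apply, swp_apply]
  unfold swpFun
  by_cases h1 : c = p
  · subst h1
    by_cases h2 : c = q
    · simp [h2]
    · by_cases h3 : c = nv q
      · subst h3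
        simp [nv_ne]
      · simp [h2, h3]
  · by_cases h2 : c = nv p
    · subst h2
      by_cases h3 : nv p = q
      · subst h3
        simp [nv_ne]
      · by_cases h4 : nv p = nv q
        · have h5 := nv_inj.1 h4
          subst h5
          simp [nv_ne]
        · simp [h3, h4, nv_ne]
    · by_cases h3 : c = q
      · subst h3
        simp [h1, h2]
      · simp [h1, h2, h3]

lemma swp_nv (p q : Lt α) : swp (nv p) q = swp p (nv q) := by
  apply SP_ext
  intro c
  rw [swp_apply, swp_apply]
  unfold swpFun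
  rw [nv_nv, nv_nv]
  by_cases h1 : c = p
  · subst h1
    by_cases h2 : c = nv c
    · exact absurd h2.symm (nv_ne c)
    · simp [h2]
  · by_cases h2 : c = nv p
    · simp [h2, nv_ne]
    · by_cases h3 : c = q
      · subst h3
        by_cases h4 : c = nv c
        · exact absurd h4.symm (nv_ne c)
        · simp [h1, h2, h4]
      · simp [h1, h2, h3]

lemma swp_conj (g : SP α) (p q : Lt α) :
    g * swp p q * g⁻¹ = swp ((g : Equiv.Perm (Lt α)) p) ((g : Equiv.Perm (Lt α)) q) := by
  rw [mul_inv_eq_iff_eq_mul]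
  apply SP_ext
  intro c
  rw [Subgroup.coe_mul, Subgroup.coe_mul, Equiv.Perm.mul_apply, Equiv.Perm.mul_apply, swp_apply,
    swp_apply]
  have hinj := (g : Equiv.Perm (Lt α)).injective
  unfold swpFun
  simp only [← SP.map_nv, hinj.eq_iff]
  split_ifs <;> rfl

lemma swp_self (p : Lt α) : swp p p = 1 := by
  apply SP_ext
  intro c
  rw [swp_apply]
  unfold swpFun
  by_cases h1 : c = p
  · simp [h1]
  · by_cases h2 : c = nv p
    · simp [h2, nv_ne]
    · simp [h1, h2]

lemma swp_nv_nv (p q : Lt α) : swp (nv p) (nv q) = swp p q := by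
  rw [swp_nv, nv_nv]

/-- Auxiliary result 2. -/
theorem closure_partners [Fintype α] (x a : Lt α) (hxa : x.1 ≠ a.1) (h3 : 3 ≤ Fintype.card α) :
    Subgroup.closure (partners x a) = ⊤ := by
  classical
  set H := Subgroup.closure (partners x a) with hH
  have hxa' : x.1 ≠ (nv a).1 := hxa
  -- generators
  have g1 : swp x (nv a) ∈ H := Subgroup.subset_closure (Or.inl rfl)
  have g2 : ∀ b : Lt α, b.1 ≠ x.1 → b.1 ≠ a.1 → swp x (nv x) * swp a b ∈ H := fun b h1 h2 =>
    Subgroup.subset_closure (Or.inr (Or.inl ⟨b, h1, h2, rfl⟩))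
  have g3 : ∀ b c : Lt α, b.1 ≠ x.1 → b.1 ≠ a.1 → c.1 ≠ x.1 → c.1 ≠ a.1 → swp b c ∈ H :=
    fun b c h1 h2 h3 h4 => Subgroup.subset_closure (Or.inr (Or.inr ⟨b, c, h1, h2, h3, h4, rfl⟩))
  -- a third index
  obtain ⟨i, hi⟩ : ∃ i : α, i ∉ ({x.1, a.1} : Finset α) := by
    by_contra hcon
    push Not at hcon
    have h4 : (Finset.univ : Finset α) ⊆ {x.1, a.1} := fun i _ => hcon i
    have h5 := Finset.card_le_card h4
    have h6 : ({x.1, a.1} : Finset α).card ≤ 2 := Finset.card_le_two
    rw [Finset.card_univ] at h5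
    omega
  have hix : i ≠ x.1 := fun h => hi (by simp [h])
  have hia : i ≠ a.1 := fun h => hi (by simp [h])
  have hb1 : ((i, true) : Lt α).1 ≠ x.1 := hix
  have hb2 : ((i, true) : Lt α).1 ≠ a.1 := hia
  obtain ⟨b, hb⟩ : ∃ b : Lt α, b = (i, true) := ⟨_, rfl⟩
  rw [← hb] at hb1 hb2
  -- conjugation
  have hconj : ∀ (g : SP α) (p q : Lt α), g ∈ H → swp p q ∈ H →
      swp ((g : Equiv.Perm (Lt α)) p) ((g : Equiv.Perm (Lt α)) q) ∈ H := by
    intro g p q hg hpq
    rw [← swp_conj]
    exact H.mul_mem (H.mul_mem hg hpq) (H.inv_mem hg)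
  -- inversion of `a`
  have hinv : (swp x (nv x) * swp a b) * (swp x (nv x) * swp a (nv b)) * swp b (nv b) =
      swp a (nv a) := by
    have hcomm : swp x (nv x) * swp a b = swp a b * swp x (nv x) := by
      have h1 := swp_conj (swp a b) x (nv x)
      have h2 : (swp a b : Equiv.Perm (Lt α)) x = x := swp_other hxa (fun h => hb1 h.symm)
      have h3 : (swp a b : Equiv.Perm (Lt α)) (nv x) = nv x := by rw [SP.map_nv, h2]
      rw [h2, h3, mul_inv_eq_iff_eq_mul] at h1
      exact h1.symm
    have h4 : (swp x (nv x) * swp a b) * (swp x (nv x) * swp a (nv b)) =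
        swp a b * swp a (nv b) := by
      rw [hcomm]
      calc swp a b * swp x (nv x) * (swp x (nv x) * swp a (nv b))
          = swp a b * (swp x (nv x) * swp x (nv x)) * swp a (nv b) := by group
        _ = _ := by rw [swp_mul_self, mul_one]
    rw [h4]
    have h5 := swp_conj (swp a b) a (nv b)
    have h6 : (swp a b : Equiv.Perm (Lt α)) a = b := swp_left a b
    have h7 : (swp a b : Equiv.Perm (Lt α)) (nv b) = nv a := by rw [SP.map_nv, swp_right]
    rw [h6, h7, swp_inv] at h5
    -- swp a b * swp a (nv b) * swp a b = swp b (nv a)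
    have h8 := swp_conj (swp a b) b (nv b)
    rw [swp_right, h7, swp_inv] at h8
    -- direct check
    apply SP_ext
    intro c
    rw [Subgroup.coe_mul, Subgroup.coe_mul, Equiv.Perm.mul_apply, Equiv.Perm.mul_apply]
    by_cases hcb : c.1 = b.1
    · rcases fst_eq_iff.1 hcb with rfl | rfl
      · rw [swp_left, swp_right, swp_left]
        rw [swp_other hb2 (by simpa using hb2)]
      · rw [swp_right]
        have e1 : (swp a (nv b) : Equiv.Perm (Lt α)) b = nv a := by
          have := SP.map_nv (swp a (nv b)) (nv b)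
          rw [nv_nv, swp_right] at this
          exact this
        rw [e1, SP.map_nv, swp_left]
        rw [swp_other (by simpa using hb2) (by simpa using hb2)]
    · by_cases hca : c.1 = a.1
      · have e0 : (swp b (nv b) : Equiv.Perm (Lt α)) c = c :=
          swp_other hcb (by simpa using hcb)
        rw [e0]
        rcases fst_eq_iff.1 hca with rfl | rfl
        · rw [swp_left, h7, swp_left]
        · rw [SP.map_nv, swp_left, nv_nv, swp_right, swp_right]
      · rw [swp_other hcb (by simpa using hcb), swp_other hca (by simpa using hcb),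
          swp_other hca hcb, swp_other hca (by simpa using hca)]
  have ia : swp a (nv a) ∈ H := by
    rw [← hinv]
    exact H.mul_mem (H.mul_mem (g2 b hb1 hb2) (g2 (nv b) hb1 hb2)) (g3 b (nv b) hb1 hb2 hb1 hb2)
  have ix : swp x (nv x) ∈ H := by
    have h1 := hconj _ _ _ g1 ia
    have h2 : (swp x (nv a) : Equiv.Perm (Lt α)) (nv a) = x := swp_right _ _
    have h3 : (swp x (nv a) : Equiv.Perm (Lt α)) a = nv x := by
      have := SP.map_nv (swp x (nv a)) (nv a)
      rw [nv_nv, h2] at this
      exact this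
    rw [h2, h3, swp_comm] at h1
    exact h1
  have ab : ∀ c : Lt α, c.1 ≠ x.1 → c.1 ≠ a.1 → swp a c ∈ H := by
    intro c h1 h2
    have h3 := H.mul_mem ix (g2 c h1 h2)
    rwa [← mul_assoc, swp_mul_self, one_mul] at h3
  have xb : ∀ c : Lt α, c.1 ≠ x.1 → c.1 ≠ a.1 → swp x c ∈ H := by
    intro c h1 h2
    have h3 := hconj _ _ _ g1 (ab (nv c) h1 h2)
    have h4 : (swp x (nv a) : Equiv.Perm (Lt α)) a = nv x := by
      have := SP.map_nv (swp x (nv a)) (nv a)
      rw [nv_nv, swp_right] at this
      exact this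
    have h5 : (swp x (nv a) : Equiv.Perm (Lt α)) (nv c) = nv c := swp_other h1 h2
    rw [h4, h5, swp_nv_nv] at h3
    exact h3
  have xa : swp x a ∈ H := by
    have h1 := hconj _ _ _ ia g1
    have h2 : (swp a (nv a) : Equiv.Perm (Lt α)) x = x := swp_other hxa hxa
    rw [h2, swp_right] at h1
    exact h1
  -- every transposition
  have px : ∀ q, swp x q ∈ H := by
    intro q
    by_cases h1 : q.1 = x.1
    · rcases fst_eq_iff.1 h1 with rfl | rfl
      · rw [swp_self]
        exact H.one_mem
      · exact ix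
    · by_cases h2 : q.1 = a.1
      · rcases fst_eq_iff.1 h2 with rfl | rfl
        · exact xa
        · exact g1
      · exact xb q h1 h2
  have pa : ∀ q, swp a q ∈ H := by
    intro q
    by_cases h1 : q.1 = a.1
    · rcases fst_eq_iff.1 h1 with rfl | rfl
      · rw [swp_self]
        exact H.one_mem
      · exact ia
    · by_cases h2 : q.1 = x.1
      · rcases fst_eq_iff.1 h2 with rfl | rfl
        · rw [swp_comm]
          exact px a
        · rw [swp_comm, swp_nv]
          exact px _
      · exact ab q h2 h1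
  have pall : ∀ p q, swp p q ∈ H := by
    intro p q
    by_cases h1 : p.1 = x.1
    · rcases fst_eq_iff.1 h1 with rfl | rfl
      · exact px q
      · rw [swp_nv]
        exact px _
    · by_cases h2 : p.1 = a.1
      · rcases fst_eq_iff.1 h2 with rfl | rfl
        · exact pa q
        · rw [swp_nv]
          exact pa _
      · by_cases h3 : q.1 = x.1
        · rcases fst_eq_iff.1 h3 with rfl | rfl
          · rw [swp_comm]
            exact px p
          · rw [swp_comm, swp_nv]
            exact px _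
        · by_cases h4 : q.1 = a.1
          · rcases fst_eq_iff.1 h4 with rfl | rfl
            · rw [swp_comm]
              exact pa p
            · rw [swp_comm, swp_nv]
              exact pa _
          · exact g3 p q h1 h2 h3 h4
  rw [eq_top_iff, ← closure_swp, Subgroup.closure_le]
  rintro v ⟨p, q, rfl⟩
  exact pall p q

/-- Auxiliary result 3. -/
theorem finite_closure_pair {G : Type} [Group G] (u v : G) (hu : u * u = 1) (hv : v * v = 1)
    (k : ℕ) (hk : 0 < k) (h : (u * v) ^ k = 1) : Finite (Subgroup.closure {u, v}) := by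
  have hui : u⁻¹ = u := inv_eq_of_mul_eq_one_left hu
  have hvi : v⁻¹ = v := inv_eq_of_mul_eq_one_left hv
  obtain ⟨r, hr⟩ : ∃ r, r = u * v := ⟨_, rfl⟩
  have hconj : u * r * u⁻¹ = r⁻¹ := by
    rw [hr, mul_inv_rev, hui, hvi, ← mul_assoc, hu, one_mul]
  have hconjz : ∀ i : ℤ, u * r ^ i = r ^ (-i) * u := by
    intro i
    have h1 : u * r ^ i * u⁻¹ = r ^ (-i) := by
      rw [← conj_zpow, hconj, inv_zpow']
    rw [← h1]
    group
  have hsub : ∀ g ∈ Subgroup.closure ({u, v} : Set G), ∃ i : ℤ, g = r ^ i ∨ g = r ^ i * u := by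
    intro g hg
    induction hg using Subgroup.closure_induction with
    | mem x hx =>
      rcases hx with rfl | rfl
      · exact ⟨0, Or.inr (by simp)⟩
      · refine ⟨-1, Or.inr ?_⟩
        rw [zpow_neg_one, hr, mul_inv_rev, hui, hvi, mul_assoc, hu, mul_one]
    | one => exact ⟨0, Or.inl (by simp)⟩
    | mul x y _ _ hx hy =>
      obtain ⟨i, hi⟩ := hx
      obtain ⟨j, hj⟩ := hy
      rcases hi with rfl | rfl <;> rcases hj with rfl | rfl
      · exact ⟨i + j, Or.inl (by rw [zpow_add])⟩
      · exact ⟨i + j, Or.inr (by rw [zpow_add, mul_assoc])⟩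
      · refine ⟨i - j, Or.inr ?_⟩
        rw [mul_assoc, hconjz, ← mul_assoc, ← zpow_add, sub_eq_add_neg]
      · refine ⟨i - j, Or.inl ?_⟩
        calc r ^ i * u * (r ^ j * u) = r ^ i * (u * r ^ j) * u := by group
          _ = r ^ i * (r ^ (-j) * u) * u := by rw [hconjz]
          _ = r ^ i * r ^ (-j) * (u * u) := by group
          _ = _ := by rw [hu, mul_one, ← zpow_add, sub_eq_add_neg]
    | inv x _ hx =>
      obtain ⟨i, hi⟩ := hx
      rcases hi with rfl | rfl
      · exact ⟨-i, Or.inl (by rw [zpow_neg])⟩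
      · refine ⟨i, Or.inr ?_⟩
        rw [mul_inv_rev, hui, ← zpow_neg, hconjz, neg_neg]
  have hfin : (Set.range (fun i : ℤ => r ^ i)).Finite := by
    have h1 : IsOfFinOrder r := isOfFinOrder_iff_pow_eq_one.2 ⟨k, hk, by rw [hr]; exact h⟩
    have h2 : ((Subgroup.zpowers r : Subgroup G) : Set G).Finite :=
      finite_zpowers.2 h1
    exact h2.subset (by rintro _ ⟨i, rfl⟩; exact ⟨i, rfl⟩)
  have hfin2 : ((Subgroup.closure ({u, v} : Set G) : Subgroup G) : Set G).Finite := by
    apply ((hfin.union (hfin.image (fun g => g * u)))).subset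
    intro g hg
    obtain ⟨i, hi⟩ := hsub g hg
    rcases hi with rfl | rfl
    · exact Or.inl ⟨i, rfl⟩
    · exact Or.inr ⟨_, ⟨i, rfl⟩, rfl⟩
  exact hfin2

end Pool.Agent.Helper156.OF
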