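import Pool.Agent.Helper156.OF.RelAut
import Pool.Agent.Helper156.OF.SPGen

set_option autoImplicit false
set_option linter.unusedSectionVars false

namespace Pool.Agent.Helper156.OF

section general

variable {G K : Type} [Group G] [Group K]

/-- A function which is multiplicative on all finite subgroups generated by subsets of `S`. -/
def LM (S : Set G) (f : G → K) : Prop :=
  ∀ T : Set G, T ⊆ S → Finite (Subgroup.closure T) →
    ∃ F : Subgroup.closure T →* K,
      ∀ (g : G) (hg : g ∈ Subgroup.closure T), g ∈ S → F ⟨g, hg⟩ = f g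

lemma LM.conjBy {S S' : Set G} {f : G → K} (h : G) (hS : ∀ s ∈ S', h * s * h⁻¹ ∈ S)
    (L : LM S f) : LM S' (fun g => f (h * g * h⁻¹)) := by
  intro T hT hfin
  set c : G →* G := (MulAut.conj h).toMonoidHom with hc
  have hmap : Subgroup.closure (c '' T) = (Subgroup.closure T).map c := (MonoidHom.map_closure c T).symm
  have hfin' : Finite (Subgroup.closure (c '' T)) := by
    rw [hmap]
    exact Set.Finite.image _ (Set.toFinite ((Subgroup.closure T : Subgroup G) : Set G))
  obtain ⟨F, hF⟩ := L (c '' T) (by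
    rintro _ ⟨t, ht, rfl⟩
    exact hS t (hT ht)) hfin'
  have hmem : ∀ g : Subgroup.closure T, c g ∈ Subgroup.closure (c '' T) := by
    intro g
    rw [hmap]
    exact ⟨g, g.2, rfl⟩
  refine ⟨F.comp ((c.comp (Subgroup.closure T).subtype).codRestrict _ hmem), ?_⟩
  intro g hg hgS
  exact hF (c g) (hmem ⟨g, hg⟩) (hS g hgS)

variable {S : Set G} {f : G → K} (L : LM S f)

include L

lemma LM.comm {u v : G} (hu : u ∈ S) (hv : v ∈ S) (fin : Finite (Subgroup.closure {u, v}))
    (h : u * v = v * u) : f u * f v = f v * f u := by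
  obtain ⟨F, hF⟩ := L {u, v} (by rintro x (rfl | rfl) <;> assumption) fin
  have mu : u ∈ Subgroup.closure {u, v} := Subgroup.subset_closure (by simp)
  have mv : v ∈ Subgroup.closure {u, v} := Subgroup.subset_closure (by simp)
  rw [← hF u mu hu, ← hF v mv hv, ← map_mul, ← map_mul]
  congr 1
  exact Subtype.ext h

lemma LM.braid {u v : G} (hu : u ∈ S) (hv : v ∈ S) (fin : Finite (Subgroup.closure {u, v}))
    (h : u * v * u = v * u * v) : f u * f v * f u = f v * f u * f v := by
  obtain ⟨F, hF⟩ := L {u, v} (by rintro x (rfl | rfl) <;> assumption) fin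
  have mu : u ∈ Subgroup.closure {u, v} := Subgroup.subset_closure (by simp)
  have mv : v ∈ Subgroup.closure {u, v} := Subgroup.subset_closure (by simp)
  rw [← hF u mu hu, ← hF v mv hv, ← map_mul, ← map_mul, ← map_mul, ← map_mul]
  congr 1
  exact Subtype.ext h

lemma LM.mul {u v : G} (hu : u ∈ S) (hv : v ∈ S) (huv : u * v ∈ S)
    (fin : Finite (Subgroup.closure {u, v})) : f (u * v) = f u * f v := by
  obtain ⟨F, hF⟩ := L {u, v} (by rintro x (rfl | rfl) <;> assumption) fin
  have mu : u ∈ Subgroup.closure {u, v} := Subgroup.subset_closure (by simp)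
  have mv : v ∈ Subgroup.closure {u, v} := Subgroup.subset_closure (by simp)
  rw [← hF u mu hu, ← hF v mv hv, ← hF _ (Subgroup.mul_mem _ mu mv) huv, ← map_mul]
  rfl

lemma LM.conj {u v : G} (hu : u ∈ S) (hv : v ∈ S) (huv : u * v * u⁻¹ ∈ S)
    (fin : Finite (Subgroup.closure {u, v})) : f (u * v * u⁻¹) = f u * f v * (f u)⁻¹ := by
  obtain ⟨F, hF⟩ := L {u, v} (by rintro x (rfl | rfl) <;> assumption) fin
  have mu : u ∈ Subgroup.closure {u, v} := Subgroup.subset_closure (by simp)
  have mv : v ∈ Subgroup.closure {u, v} := Subgroup.subset_closure (by simp)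
  rw [← hF u mu hu, ← hF v mv hv,
    ← hF _ (Subgroup.mul_mem _ (Subgroup.mul_mem _ mu mv) (Subgroup.inv_mem _ mu)) huv, ← map_mul,
    ← map_inv, ← map_mul]
  rfl

lemma LM.sub {H : Subgroup G} (fin : Finite H) (hH : (H : Set G) ⊆ S) {u v : G} (hu : u ∈ H)
    (hv : v ∈ H) : f (u * v) = f u * f v := by
  have hc : Subgroup.closure (H : Set G) = H := Subgroup.closure_eq H
  obtain ⟨F, hF⟩ := L (H : Set G) hH (by rw [hc]; exact fin)
  have mu : u ∈ Subgroup.closure (H : Set G) := by rw [hc]; exact hu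
  have mv : v ∈ Subgroup.closure (H : Set G) := by rw [hc]; exact hv
  rw [← hF u mu (hH hu), ← hF v mv (hH hv),
    ← hF _ (Subgroup.mul_mem _ mu mv) (hH (H.mul_mem hu hv)), ← map_mul]
  rfl

lemma LM.sq {u : G} (hu : u ∈ S) (h : u * u = 1) : f u * f u = 1 := by
  obtain ⟨F, hF⟩ := L {u, u} (by rintro x (rfl | rfl) <;> assumption)
    (finite_closure_pair u u h h 1 one_pos (by rw [h, one_pow]))
  have mu : u ∈ Subgroup.closure {u, u} := Subgroup.subset_closure (by simp)
  rw [← hF u mu hu, ← map_mul, ← map_one F]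
  congr 1
  exact Subtype.ext h

end general

section fin

variable {G : Type} [Group G]

lemma fin_comm {u v : G} (hu : u * u = 1) (hv : v * v = 1) (h : u * v = v * u) :
    Finite (Subgroup.closure {u, v}) := by
  refine finite_closure_pair u v hu hv 2 (by norm_num) ?_
  calc (u * v) ^ 2 = u * (v * u) * v := by rw [pow_two]; group
    _ = (u * u) * (v * v) := by rw [← h]; group
    _ = 1 := by rw [hu, hv, one_mul]

lemma fin_braid {u v : G} (hu : u * u = 1) (hv : v * v = 1) (h : u * v * u = v * u * v) :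
    Finite (Subgroup.closure {u, v}) := by
  refine finite_closure_pair u v hu hv 3 (by norm_num) ?_
  calc (u * v) ^ 3 = (u * v * u) * (v * u * v) := by rw [pow_succ, pow_two]; group
    _ = (v * u * v) * (v * u * v) := by rw [h]
    _ = v * u * (v * v) * u * v := by group
    _ = v * (u * u) * v := by rw [hv]; group
    _ = 1 := by rw [hu, mul_one, hv]

lemma fin_d4 {u v : G} (hu : u * u = 1) (hv : v * v = 1) (h : u * v * u * v = v * (u * v * u)) :
    Finite (Subgroup.closure {u, v}) := by
  refine finite_closure_pair u v hu hv 4 (by norm_num) ?_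
  calc (u * v) ^ 4 = (u * v * u * v) * (u * v * u * v) := by
        rw [show (4 : ℕ) = 2 * 2 by norm_num, pow_mul, pow_two, pow_two]; group
    _ = (v * (u * v * u)) * (u * v * u * v) := by rw [h]
    _ = v * u * v * (u * u) * v * u * v := by group
    _ = v * u * (v * v) * u * v := by rw [hu]; group
    _ = v * (u * u) * v := by rw [hv]; group
    _ = 1 := by rw [hu, mul_one, hv]

end fin

/-- The first relations. -/
structure Rel0 {α P : Type} [DecidableEq α] [Group P] (W : SP α →* P) (E : Lt α → Lt α → P) :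
    Prop where
  junk : ∀ x a : Lt α, x.1 = a.1 → E x a = 1
  e0 : ∀ (w : SP α) (x a : Lt α), W w * E x a * (W w)⁻¹ =
    E ((w : Equiv.Perm (Lt α)) x) ((w : Equiv.Perm (Lt α)) a)
  e1 : ∀ x a : Lt α, E x (nv a) = (E x a)⁻¹

lemma Rel.toRel0 {α P : Type} [DecidableEq α] [Group P] {W : SP α →* P} {E : Lt α → Lt α → P}
    (R : Rel W E) : Rel0 W E := ⟨R.junk, R.e0, R.e1⟩

variable {α : Type} [DecidableEq α]

/-- The inversion of a letter. -/
def io (a : Lt α) : SP α := swp a (nv a)

lemma io_sq (a : Lt α) : io a * io a = 1 := swp_mul_self _ _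

lemma io_self (a : Lt α) : (io a : Equiv.Perm (Lt α)) a = nv a := swp_left _ _

lemma io_other {a c : Lt α} (h : c.1 ≠ a.1) : (io a : Equiv.Perm (Lt α)) c = c :=
  swp_other h (by simpa using h)

lemma io_nv (a : Lt α) : io (nv a) = io a := by
  unfold io
  rw [nv_nv, swp_comm]

lemma io_conj (w : SP α) (a : Lt α) : w * io a * w⁻¹ = io ((w : Equiv.Perm (Lt α)) a) := by
  unfold io
  rw [swp_conj, SP.map_nv]

lemma io_comm_of_fix (w : SP α) (a : Lt α) (h : (w : Equiv.Perm (Lt α)) a = a) :
    w * io a = io a * w := by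
  have := io_conj w a
  rw [h, mul_inv_eq_iff_eq_mul] at this
  exact this

section rel0

variable {P : Type} [Group P] {W : SP α →* P} {E : Lt α → Lt α → P} (R : Rel0 W E)

/-- The involution `x ↦ x a`, `a ↦ a⁻¹`. -/
def se (W : SP α →* P) (E : Lt α → Lt α → P) (x a : Lt α) : P := E x a * W (io a)

include R

lemma Rel0.io_E {x a : Lt α} (h : x.1 ≠ a.1) : W (io a) * E x a = (E x a)⁻¹ * W (io a) := by
  have := R.e0 (io a) x a
  rw [io_other h, io_self, R.e1, mul_inv_eq_iff_eq_mul] at this
  exact this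

lemma Rel0.W_E (w : SP α) (x a : Lt α) : W w * E x a =
    E ((w : Equiv.Perm (Lt α)) x) ((w : Equiv.Perm (Lt α)) a) * W w := by
  rw [← R.e0 w x a]
  group

lemma Rel0.se_sq {x a : Lt α} (h : x.1 ≠ a.1) : se W E x a * se W E x a = 1 := by
  unfold se
  calc E x a * W (io a) * (E x a * W (io a)) = E x a * (W (io a) * E x a) * W (io a) := by group
    _ = W (io a) * W (io a) := by rw [R.io_E h]; group
    _ = 1 := by rw [← map_mul, io_sq, map_one]

lemma Rel0.se_inv {x a : Lt α} (h : x.1 ≠ a.1) : (se W E x a)⁻¹ = se W E x a :=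
  inv_eq_of_mul_eq_one_left (R.se_sq h)

lemma Rel0.W_se (w : SP α) (x a : Lt α) : W w * se W E x a * (W w)⁻¹ =
    se W E ((w : Equiv.Perm (Lt α)) x) ((w : Equiv.Perm (Lt α)) a) := by
  unfold se
  rw [← R.e0 w x a, ← io_conj, map_mul, map_mul, map_inv]
  group

/-- Conjugate of a signed transposition by an elementary involution. -/
lemma Rel0.phi {x y a : Lt α} (hx : x.1 ≠ a.1) (hy : y.1 ≠ a.1) :
    se W E x a * W (swp x y * io a) * (se W E x a)⁻¹ =
      E x a * E y a * W (swp x y * io a) := by
  have hfix : (swp x y : Equiv.Perm (Lt α)) a = a := swp_other (Ne.symm hx) (Ne.symm hy)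
  have hc := io_comm_of_fix (swp x y) a hfix
  have h1 : W (swp x y) * E x a = E y a * W (swp x y) := by
    rw [R.W_E, swp_left, hfix]
  rw [R.se_inv hx]
  unfold se
  calc E x a * W (io a) * W (swp x y * io a) * (E x a * W (io a))
      = E x a * W (io a * (swp x y * io a)) * E x a * W (io a) := by
        rw [map_mul W (io a)]; group
    _ = E x a * W (swp x y) * E x a * W (io a) := by
        rw [hc, ← mul_assoc (io a), io_sq, one_mul]
    _ = E x a * (W (swp x y) * E x a) * W (io a) := by group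
    _ = E x a * E y a * (W (swp x y) * W (io a)) := by rw [h1]; group
    _ = _ := by rw [map_mul]

lemma Rel0.two {x y z : Lt α} (_h1 : x.1 ≠ y.1) (h2 : x.1 ≠ z.1) (h3 : y.1 ≠ z.1) :
    se W E x y * se W E y z * (se W E x y)⁻¹ =
      E x y * E (nv y) z * (E x y)⁻¹ * W (io z) := by
  have e1 : W (io y) * E y z = E (nv y) z * W (io y) := by
    rw [R.W_E, io_self, io_other (Ne.symm h3)]
  have e2 : W (io z) * E x y = E x y * W (io z) := by
    rw [R.W_E, io_other h2, io_other h3]
  have e3 : io y * io z = io z * io y := io_comm_of_fix _ _ (io_other (Ne.symm h3))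
  have e4 : W (io z) * (E x y)⁻¹ = (E x y)⁻¹ * W (io z) := by
    rw [mul_inv_eq_iff_eq_mul, mul_assoc, e2]
    group
  unfold se
  calc E x y * W (io y) * (E y z * W (io z)) * (E x y * W (io y))⁻¹
      = E x y * (W (io y) * E y z) * W (io z) * (W (io y))⁻¹ * (E x y)⁻¹ := by group
    _ = E x y * E (nv y) z * (W (io y) * W (io z)) * (W (io y))⁻¹ * (E x y)⁻¹ := by
        rw [e1]; group
    _ = E x y * E (nv y) z * (W (io z) * (E x y)⁻¹) := by
        rw [← map_mul, e3, map_mul]; group
    _ = _ := by rw [e4]; group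

/-- The braid relation gives the rank two relation. -/
lemma Rel0.four {a b : Lt α} (hab : a.1 ≠ b.1)
    (hbr : se W E b a * W (swp b (nv a)) * se W E b a =
      W (swp b (nv a)) * se W E b a * W (swp b (nv a))) (σ : SP α)
    (s1 : (σ : Equiv.Perm (Lt α)) a = nv b) (s2 : (σ : Equiv.Perm (Lt α)) b = a)
    (s3 : ∀ c : Lt α, c.1 ≠ a.1 → c.1 ≠ b.1 → (σ : Equiv.Perm (Lt α)) c = c) :
    E (nv a) b * E b a = W σ * E a b := by
  set u := swp b (nv a) with hu
  have ub : (u : Equiv.Perm (Lt α)) b = nv a := swp_left _ _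
  have una : (u : Equiv.Perm (Lt α)) (nv a) = b := swp_right _ _
  have ua : (u : Equiv.Perm (Lt α)) a = nv b := by
    rw [← nv_nv a, SP.map_nv, una]
  have uu : u * u = 1 := swp_mul_self _ _
  have k1 : W u * E b a = (E (nv a) b)⁻¹ * W u := by
    rw [R.W_E, ub, ua, R.e1]
  have k2 : W (io a * u) * E b a = (E a b)⁻¹ * W (io a * u) := by
    rw [R.W_E]
    have v1 : ((io a * u : SP α) : Equiv.Perm (Lt α)) b = a := by
      rw [Subgroup.coe_mul, Equiv.Perm.mul_apply, ub, SP.map_nv, io_self, nv_nv]
    have v2 : ((io a * u : SP α) : Equiv.Perm (Lt α)) a = nv b := by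
      rw [Subgroup.coe_mul, Equiv.Perm.mul_apply, ua]
      exact io_other (by simpa using Ne.symm hab)
    rw [v1, v2, R.e1]
  have k3 : se W E b a * W u * se W E b a = E b a * (E a b)⁻¹ * W (io a * u * io a) := by
    unfold se
    calc E b a * W (io a) * W u * (E b a * W (io a))
        = E b a * (W (io a * u) * E b a) * W (io a) := by rw [map_mul]; group
      _ = E b a * (E a b)⁻¹ * (W (io a * u) * W (io a)) := by rw [k2]; group
      _ = _ := by rw [← map_mul]
  have k4 : W u * se W E b a * W u = (E (nv a) b)⁻¹ * W (u * io a * u) := by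
    unfold se
    calc W u * (E b a * W (io a)) * W u = (W u * E b a) * W (io a) * W u := by group
      _ = (E (nv a) b)⁻¹ * (W u * W (io a) * W u) := by rw [k1]; group
      _ = _ := by rw [← map_mul, ← map_mul]
  rw [k3, k4] at hbr
  have k5 : u * io a * u = io b := by
    have := io_conj u a
    rw [ua, io_nv, mul_inv_eq_iff_eq_mul] at this
    rw [this, mul_assoc, uu, mul_one]
  rw [k5] at hbr
  have k6 : σ = io b * (io a * u * io a) := by
    apply SP_ext
    intro c
    rw [Subgroup.coe_mul, Subgroup.coe_mul, Subgroup.coe_mul, Equiv.Perm.mul_apply,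
      Equiv.Perm.mul_apply, Equiv.Perm.mul_apply]
    have ca : (σ : Equiv.Perm (Lt α)) a = (io b : Equiv.Perm (Lt α)) ((io a : Equiv.Perm (Lt α))
        ((u : Equiv.Perm (Lt α)) ((io a : Equiv.Perm (Lt α)) a))) := by
      rw [io_self, una, io_other (Ne.symm hab), io_self, s1]
    have cb : (σ : Equiv.Perm (Lt α)) b = (io b : Equiv.Perm (Lt α)) ((io a : Equiv.Perm (Lt α))
        ((u : Equiv.Perm (Lt α)) ((io a : Equiv.Perm (Lt α)) b))) := by
      rw [io_other (Ne.symm hab), ub, SP.map_nv, io_self, nv_nv, io_other hab, s2]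
    by_cases h1 : c.1 = a.1
    · rcases fst_eq_iff.1 h1 with h | h
      · rw [h, ca]
      · rw [h, SP.map_nv, SP.map_nv, SP.map_nv, SP.map_nv, SP.map_nv, ca]
    · by_cases h2 : c.1 = b.1
      · rcases fst_eq_iff.1 h2 with h | h
        · rw [h, cb]
        · rw [h, SP.map_nv, SP.map_nv, SP.map_nv, SP.map_nv, SP.map_nv, cb]
      · have hu' : (u : Equiv.Perm (Lt α)) c = c := swp_other h2 (by simpa using h1)
        rw [s3 c h1 h2, io_other h1, hu', io_other h1, io_other h2]
  have k7 : W (io b) * W (io b) = 1 := by rw [← map_mul, io_sq, map_one]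
  have k8 : W (io a * u * io a) * W (io a * u * io a) = 1 := by
    rw [← map_mul]
    have : io a * u * io a * (io a * u * io a) = 1 := by
      calc io a * u * io a * (io a * u * io a) = io a * u * (io a * io a) * u * io a := by group
        _ = 1 := by rw [io_sq, mul_one, mul_assoc (io a), uu, mul_one, io_sq]
    rw [this, map_one]
  have k9 : E (nv a) b * E b a * (E a b)⁻¹ = W (io b) * W (io a * u * io a) := by
    calc E (nv a) b * E b a * (E a b)⁻¹
        = E (nv a) b * (E b a * (E a b)⁻¹ * W (io a * u * io a)) * W (io a * u * io a) := by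
          rw [mul_assoc _ _ (W (io a * u * io a)), mul_assoc _ (W (io a * u * io a)), k8]
          group
      _ = E (nv a) b * ((E (nv a) b)⁻¹ * W (io b)) * W (io a * u * io a) := by rw [hbr]
      _ = _ := by group
  rw [k6, map_mul W (io b), ← k9]
  group

end rel0

end Pool.Agent.Helper156.OF
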