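import Pool.Agent.Helper156.OF.Defs

set_option autoImplicit false
set_option linter.unusedSectionVars false
set_option linter.unusedSimpArgs false

namespace Pool.Agent.Helper156.OF



/-! ### longest common initial segment of lists -/

section lcp

variable {β : Type} [DecidableEq β]

/-- length of the longest common initial segment -/
def nlcp : List β → List β → ℕ
  | a :: l, b :: m => if a = b then nlcp l m + 1 else 0
  | [], _ => 0
  | _ :: _, [] => 0

lemma le_nlcp_iff (l m : List β) (k : ℕ) :
    k ≤ nlcp l m ↔ k ≤ l.length ∧ k ≤ m.length ∧ l.take k = m.take k := by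
  induction l generalizing m k with
  | nil =>
    cases k with
    | zero => simp
    | succ k => simp [nlcp]
  | cons a l ih =>
    cases m with
    | nil =>
      cases k with
      | zero => simp
      | succ k => simp [nlcp]
    | cons b m =>
      cases k with
      | zero => simp
      | succ k =>
        unfold nlcp
        by_cases hab : a = b
        · subst hab
          simp [ih m k]
        · simp [hab]

lemma nlcp_comm (l m : List β) : nlcp l m = nlcp m l := by
  apply le_antisymm
  · rw [le_nlcp_iff]
    obtain ⟨h1, h2, h3⟩ := (le_nlcp_iff l m _).1 le_rfl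
    exact ⟨h2, h1, h3.symm⟩
  · rw [le_nlcp_iff]
    obtain ⟨h1, h2, h3⟩ := (le_nlcp_iff m l _).1 le_rfl
    exact ⟨h2, h1, h3.symm⟩

lemma nlcp_le_left (l m : List β) : nlcp l m ≤ l.length := ((le_nlcp_iff l m _).1 le_rfl).1

lemma nlcp_le_right (l m : List β) : nlcp l m ≤ m.length := ((le_nlcp_iff l m _).1 le_rfl).2.1

lemma take_nlcp (l m : List β) : l.take (nlcp l m) = m.take (nlcp l m) :=
  ((le_nlcp_iff l m _).1 le_rfl).2.2

lemma nlcp_ultra (a b c : List β) : min (nlcp a b) (nlcp b c) ≤ nlcp a c := by
  rw [le_nlcp_iff]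
  obtain ⟨h1, h2, h3⟩ := (le_nlcp_iff a b (min (nlcp a b) (nlcp b c))).1 (min_le_left _ _)
  obtain ⟨h4, h5, h6⟩ := (le_nlcp_iff b c (min (nlcp a b) (nlcp b c))).1 (min_le_right _ _)
  exact ⟨h1, h5, h3.trans h6⟩

end lcp

section words

variable {α : Type} [DecidableEq α]

open FreeGroup

lemma nred_inv_append (l m : List (α × Bool)) (hl : IsReduced l) (hm : IsReduced m) :
    IsReduced (invRev (l.drop (nlcp l m)) ++ m.drop (nlcp l m)) ∧
      FreeGroup.mk (invRev l ++ m) =
        FreeGroup.mk (invRev (l.drop (nlcp l m)) ++ m.drop (nlcp l m)) := by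
  induction l generalizing m with
  | nil => simpa [nlcp] using hm
  | cons a l ih =>
    have hinv : IsReduced (invRev (a :: l)) := by
      have h1 : (FreeGroup.mk (a :: l)).toWord = a :: l := by
        rw [FreeGroup.toWord_mk, hl.reduce_eq]
      have h2 := FreeGroup.isReduced_toWord (x := (FreeGroup.mk (a :: l))⁻¹)
      rwa [FreeGroup.toWord_inv, h1] at h2
    cases m with
    | nil => simpa [nlcp] using hinv
    | cons b m =>
      by_cases hab : a = b
      · subst hab
        have hl' : IsReduced l := List.IsChain.tail hl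
        have hm' : IsReduced m := List.IsChain.tail hm
        obtain ⟨h1, h2⟩ := ih m hl' hm'
        simp only [nlcp, if_true, List.drop_succ_cons]
        refine ⟨h1, ?_⟩
        rw [← h2]
        have h3 : FreeGroup.mk (invRev (a :: l) ++ a :: m) =
            (FreeGroup.mk (a :: l))⁻¹ * FreeGroup.mk (a :: m) := by
          rw [FreeGroup.inv_mk, FreeGroup.mul_mk]
        have h4 : FreeGroup.mk (invRev l ++ m) = (FreeGroup.mk l)⁻¹ * FreeGroup.mk m := by
          rw [FreeGroup.inv_mk, FreeGroup.mul_mk]
        have h5 : ∀ u : List (α × Bool), FreeGroup.mk (a :: u) = FreeGroup.mk [a] * FreeGroup.mk u := by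
          intro u
          rw [FreeGroup.mul_mk]
          rfl
        rw [h3, h4, h5 l, h5 m]
        group
      · simp only [nlcp, hab, if_false, List.drop_zero, and_true]
        apply List.IsChain.append hinv hm
        intro x hx y hy hxy
        simp only [List.head?_cons, Option.mem_def, Option.some.injEq] at hy
        subst hy
        rw [FreeGroup.invRev_cons] at hx
        have hx' : x = (a.1, !a.2) := by
          simpa [FreeGroup.invRev, eq_comm] using hx
        subst hx'
        simp only at hxy ⊢
        by_contra hc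
        apply hab
        refine Prod.ext hxy ?_
        cases h1 : a.2 <;> cases h2 : b.2 <;> simp_all

/-- length of the longest common initial segment of two elements -/
def gp (g h : FreeGroup α) : ℕ := nlcp g.toWord h.toWord

lemma toWord_inv_mul (g h : FreeGroup α) :
    (g⁻¹ * h).toWord = invRev (g.toWord.drop (gp g h)) ++ h.toWord.drop (gp g h) := by
  obtain ⟨h1, h2⟩ := nred_inv_append g.toWord h.toWord FreeGroup.isReduced_toWord
    FreeGroup.isReduced_toWord
  have h3 : g⁻¹ * h = FreeGroup.mk (invRev g.toWord ++ h.toWord) := by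
    rw [← FreeGroup.mul_mk, ← FreeGroup.inv_mk, FreeGroup.mk_toWord, FreeGroup.mk_toWord]
  rw [h3, h2, FreeGroup.toWord_mk]
  exact h1.reduce_eq

lemma norm_inv_mul (g h : FreeGroup α) :
    (g⁻¹ * h).norm + 2 * gp g h = g.norm + h.norm := by
  have h1 := toWord_inv_mul g h
  have h2 : gp g h ≤ g.toWord.length := nlcp_le_left _ _
  have h3 : gp g h ≤ h.toWord.length := nlcp_le_right _ _
  have h4 := congrArg List.length h1
  simp only [List.length_append, FreeGroup.invRev_length, List.length_drop] at h4
  unfold FreeGroup.norm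
  omega

lemma gp_comm (g h : FreeGroup α) : gp g h = gp h g := nlcp_comm _ _

lemma gp_ultra (a b c : FreeGroup α) : min (gp a b) (gp b c) ≤ gp a c := nlcp_ultra _ _ _

lemma gp_le_left (g h : FreeGroup α) : gp g h ≤ g.norm := nlcp_le_left _ _

lemma gp_le_right (g h : FreeGroup α) : gp g h ≤ h.norm := nlcp_le_right _ _

/-- amount of cancellation in the product `x * y` -/
def cc (x y : FreeGroup α) : ℕ := gp x⁻¹ y

lemma norm_mul_cc (x y : FreeGroup α) : (x * y).norm + 2 * cc x y = x.norm + y.norm := by
  have h := norm_inv_mul x⁻¹ y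
  rw [inv_inv, FreeGroup.norm_inv_eq] at h
  exact h

lemma cc_inv (x y : FreeGroup α) : cc y⁻¹ x⁻¹ = cc x y := by
  unfold cc
  rw [inv_inv, gp_comm]

lemma gp_mul (g h : FreeGroup α) : gp g (g * h) + cc g h = g.norm := by
  have h1 := norm_inv_mul g (g * h)
  have h2 := norm_mul_cc g h
  rw [inv_mul_cancel_left] at h1
  omega

lemma norm_lt_sq (x : FreeGroup α) (hx : x ≠ 1) : 2 * cc x x < x.norm := by
  have h1 := norm_mul_cc x x
  have h2 : x.norm < (x * x).norm := by
    have h3 : (x * x).toWord = reduceCyclically.conjugator x.toWord ++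
        (List.replicate 2 (reduceCyclically x.toWord)).flatten ++
        invRev (reduceCyclically.conjugator x.toWord) := by
      rw [← pow_two, FreeGroup.toWord_pow]
      exact reduceCyclically.reduce_flatten_replicate_succ FreeGroup.isReduced_toWord 1
    have h4 := reduceCyclically.conj_conjugator_reduceCyclically x.toWord
    have h5 := congrArg List.length h3
    have h6 := congrArg List.length h4
    simp only [List.length_append, FreeGroup.invRev_length, List.length_flatten,
      List.map_replicate, List.sum_replicate, smul_eq_mul] at h5 h6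
    have h7 : (reduceCyclically x.toWord).length ≠ 0 := by
      intro h0
      have h8 : (x * x).norm = x.norm := by
        unfold FreeGroup.norm
        omega
      have h9 : reduceCyclically x.toWord = [] := List.length_eq_zero_iff.1 h0
      rw [h9] at h3 h4
      have h10 : (x * x).toWord = x.toWord := by
        rw [h3]
        nth_rewrite 3 [← h4]
        simp
      have h11 : x * x = x := FreeGroup.toWord_injective h10
      exact hx (by simpa using h11)
    unfold FreeGroup.norm
    omega
  omega

end words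

section value

variable {α : Type} [DecidableEq α] [Fintype α]

open FreeGroup

/-- code of a letter -/
noncomputable def cd (x : Lt α) : ℕ := (Fintype.equivFin (Lt α) x : ℕ)

/-- the base -/
def bs (α : Type) [Fintype α] : ℕ := Fintype.card (Lt α) + 2

lemma cd_lt (x : Lt α) : cd x < bs α := by
  have := (Fintype.equivFin (Lt α) x).2
  unfold cd bs
  omega

lemma cd_inj : Function.Injective (cd (α := α)) := by
  intro x y h
  exact (Fintype.equivFin (Lt α)).injective (Fin.ext h)

/-- value of a word, first letter most significant -/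
noncomputable def vl (w : List (Lt α)) : ℕ := Nat.ofDigits (bs α) ((w.map cd).reverse)

lemma vl_append (p s : List (Lt α)) : vl (p ++ s) = vl s + bs α ^ s.length * vl p := by
  unfold vl
  rw [List.map_append, List.reverse_append, Nat.ofDigits_append]
  simp

lemma vl_inj {p q : List (Lt α)} (hlen : p.length = q.length) (h : vl p = vl q) : p = q := by
  unfold vl at h
  have h1 := Nat.ofDigits_inj_of_len_eq (b := bs α) (by unfold bs; omega) (by simp [hlen])
    (by intro l hl; rw [List.mem_reverse, List.mem_map] at hl; obtain ⟨x, _, rfl⟩ := hl; exact cd_lt x)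
    (by intro l hl; rw [List.mem_reverse, List.mem_map] at hl; obtain ⟨x, _, rfl⟩ := hl; exact cd_lt x)
    h
  exact List.map_injective_iff.2 cd_inj (List.reverse_injective h1)

/-- value of the first half of the reduced word -/
noncomputable def hv (g : FreeGroup α) : ℕ := vl (g.toWord.take ((g.norm + 1) / 2))

/-- the second term of the measure decreases when `x` is replaced by `x * y` -/
lemma hv_decrease (x y : FreeGroup α) (m : ℕ) (hc : cc x y = m) (hy : y.norm = 2 * m)
    (hx : 2 * m ≤ x.norm)
    (hlt : vl (y⁻¹.toWord.take m) < vl (y.toWord.take m)) :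
    (x * y).norm = x.norm ∧ hv (x * y) + hv (x * y)⁻¹ < hv x + hv x⁻¹ := by
  have hn := norm_mul_cc x y
  have hxy : (x * y).norm = x.norm := by omega
  refine ⟨hxy, ?_⟩
  have hg : gp x⁻¹ y = m := hc
  have hylen : y.toWord.length = 2 * m := hy
  have hxlen : x⁻¹.toWord.length = x.norm := by
    have := FreeGroup.norm_inv_eq (x := x)
    exact this
  -- the words
  have htake : x⁻¹.toWord.take m = y.toWord.take m := by
    have := take_nlcp x⁻¹.toWord y.toWord
    rwa [show nlcp x⁻¹.toWord y.toWord = m from hg] at this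
  set p := y.toWord.take m with hp
  set s := x⁻¹.toWord.drop m with hs
  set t := y.toWord.drop m with ht
  have hplen : p.length = m := by rw [hp, List.length_take]; omega
  have htlen : t.length = m := by rw [ht, List.length_drop]; omega
  have hslen : s.length = x.norm - m := by rw [hs, List.length_drop]; omega
  have hxinv : x⁻¹.toWord = p ++ s := by
    rw [← htake, hs, List.take_append_drop]
  have hyw : y.toWord = p ++ t := by rw [hp, ht, List.take_append_drop]
  have hyinv : y⁻¹.toWord = invRev t ++ invRev p := by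
    rw [FreeGroup.toWord_inv, hyw, FreeGroup.invRev_append]
  have hq : y⁻¹.toWord.take m = invRev t := by
    rw [hyinv, List.take_append_of_le_length (by rw [FreeGroup.invRev_length, htlen])]
    rw [List.take_of_length_le (by rw [FreeGroup.invRev_length, htlen])]
  have hxyinv : (x * y)⁻¹.toWord = invRev t ++ s := by
    have h1 : (x * y)⁻¹ = y⁻¹ * x⁻¹ := by group
    have h2 : gp y x⁻¹ = m := by rw [gp_comm]; exact hg
    rw [h1, toWord_inv_mul, h2]
  have hxw : x.toWord = invRev s ++ invRev p := by
    have h1 : x = (x⁻¹)⁻¹ := by group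
    rw [h1, FreeGroup.toWord_inv, hxinv, FreeGroup.invRev_append]
  have hxyw : (x * y).toWord = invRev s ++ t := by
    have h1 : x * y = ((x * y)⁻¹)⁻¹ := by group
    rw [h1, FreeGroup.toWord_inv, hxyinv, FreeGroup.invRev_append, FreeGroup.invRev_invRev]
  set h := (x.norm + 1) / 2 with hh
  have h1 : hv (x * y) = hv x := by
    unfold hv
    rw [hxy, ← hh, hxyw, hxw, List.take_append_of_le_length (by rw [FreeGroup.invRev_length]; omega),
      List.take_append_of_le_length (by rw [FreeGroup.invRev_length]; omega)]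
  have h2 : hv (x * y)⁻¹ < hv x⁻¹ := by
    unfold hv
    rw [FreeGroup.norm_inv_eq, FreeGroup.norm_inv_eq, hxy, ← hh, hxyinv, hxinv,
      List.take_append, List.take_append, FreeGroup.invRev_length, htlen, hplen,
      List.take_of_length_le (l := invRev t) (by rw [FreeGroup.invRev_length]; omega),
      List.take_of_length_le (l := p) (by omega), vl_append, vl_append]
    have h3 : vl (invRev t) < vl p := by rw [← hq]; exact hlt
    have h4 : 0 < bs α ^ (List.take (h - m) s).length := Nat.pow_pos (by unfold bs; omega)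
    have h5 := Nat.mul_lt_mul_of_pos_left h3 h4
    omega
  omega

end value

section nielsen

variable {α : Type} [DecidableEq α]

/-- Nielsen reduced, in terms of the images of letters -/
structure NRed (v : Lt α → FreeGroup α) : Prop where
  inv : ∀ a, v (nv a) = (v a)⁻¹
  ne : ∀ a, v a ≠ 1
  n1 : ∀ a b, b ≠ nv a → 2 * cc (v a) (v b) ≤ (v b).norm ∧ 2 * cc (v a) (v b) ≤ (v a).norm
  n2 : ∀ a b d, b ≠ nv a → d ≠ nv b → cc (v a) (v b) + cc (v b) (v d) < (v b).norm

lemma NRed.chain {v : Lt α → FreeGroup α} (h : NRed v) (l : List (Lt α)) :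
    ∀ a e : Lt α, FreeGroup.IsReduced (e :: a :: l) →
      gp (v e)⁻¹ ((a :: l).map v).prod = cc (v e) (v a) ∧
      (a :: l).length + cc (v e) (v a) ≤ (((a :: l).map v).prod).norm := by
  induction l with
  | nil =>
    intro a e hr
    have hea : a ≠ nv e := by
      intro hc
      rw [FreeGroup.isReduced_cons_cons] at hr
      have := hr.1 (by rw [hc]; rfl)
      rw [hc] at this
      simp [nv] at this
    simp only [List.map_cons, List.map_nil, List.prod_cons, List.prod_nil, mul_one]
    refine ⟨rfl, ?_⟩
    have h1 := (h.n1 e a hea).1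
    have h2 : (v a).norm ≠ 0 := fun h0 => h.ne a (FreeGroup.norm_eq_zero.1 h0)
    simp only [List.length_cons, List.length_nil]
    omega
  | cons b l ih =>
    intro a e hr
    rw [FreeGroup.isReduced_cons_cons] at hr
    have hea : a ≠ nv e := by
      intro hc
      have := hr.1 (by rw [hc]; rfl)
      rw [hc] at this
      simp [nv] at this
    have hab : b ≠ nv a := by
      intro hc
      have h2 := hr.2
      rw [FreeGroup.isReduced_cons_cons] at h2
      have := h2.1 (by rw [hc]; rfl)
      rw [hc] at this
      simp [nv] at this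
    obtain ⟨h1, h2⟩ := ih b a hr.2
    set W := ((b :: l).map v).prod with hW
    have hV : ((a :: b :: l).map v).prod = v a * W := by
      rw [List.map_cons, List.prod_cons]
    rw [hV]
    have h3 : gp (v a) (v a * W) + cc (v a) W = (v a).norm := gp_mul _ _
    have h4 : cc (v a) W = cc (v a) (v b) := h1
    have h5 := h.n2 e a b hea hab
    have h6 : cc (v e) (v a) < gp (v a) (v a * W) := by omega
    have h7 : gp (v e)⁻¹ (v a * W) = cc (v e) (v a) := by
      have h8 := gp_ultra (v e)⁻¹ (v a) (v a * W)
      have h9 := gp_ultra (v e)⁻¹ (v a * W) (v a)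
      rw [gp_comm (v a * W) (v a)] at h9
      have h10 : gp (v e)⁻¹ (v a) = cc (v e) (v a) := rfl
      rw [h10] at h8 h9
      omega
    refine ⟨h7, ?_⟩
    have h11 := norm_mul_cc (v a) W
    simp only [List.length_cons] at h2 ⊢
    omega

lemma NRed.norm_le {v : Lt α → FreeGroup α} (h : NRed v) (φ : FreeGroup α →* FreeGroup α)
    (hφ : ∀ a, φ (gl a) = v a) (z : FreeGroup α) : z.norm ≤ (φ z).norm := by
  have hprod : ∀ l : List (Lt α), φ (FreeGroup.mk l) = (l.map v).prod := by
    intro l
    induction l with
    | nil =>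
      simp only [List.map_nil, List.prod_nil]
      exact map_one φ
    | cons a l ih => rw [mk_cons, map_mul, ih, hφ, List.map_cons, List.prod_cons]
  have hz : FreeGroup.IsReduced z.toWord := FreeGroup.isReduced_toWord
  have h1 := hprod z.toWord
  rw [FreeGroup.mk_toWord] at h1
  unfold FreeGroup.norm at *
  cases hw : z.toWord with
  | nil => simp
  | cons a l =>
    rw [hw] at h1 hz
    rw [h1]
    have hr : FreeGroup.IsReduced (a :: a :: l) := by
      rw [FreeGroup.isReduced_cons_cons]
      exact ⟨fun _ => rfl, hz⟩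
    have h2 := (h.chain l a a hr).2
    unfold FreeGroup.norm at h2
    omega

lemma norm_eq_one_iff (z : FreeGroup α) : z.norm = 1 ↔ ∃ a : Lt α, z = gl a := by
  constructor
  · intro h
    unfold FreeGroup.norm at h
    obtain ⟨a, ha⟩ := List.length_eq_one_iff.1 h
    refine ⟨a, ?_⟩
    rw [← FreeGroup.mk_toWord (x := z), ha]
    rfl
  · rintro ⟨a, rfl⟩
    simp [gl, FreeGroup.norm, FreeGroup.toWord_mk, FreeGroup.reduce_singleton]

theorem NRed.mem_range [Fintype α] (φ : MulAut (FreeGroup α))
    (h : NRed (fun a : Lt α => φ (gl a))) : ∃ σ : SP α, toAut σ = φ := by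
  have hle := h.norm_le (φ : FreeGroup α →* FreeGroup α) (fun a => rfl)
  have h1 : ∀ a : Lt α, ∃ b : Lt α, φ⁻¹ (gl a) = gl b := by
    intro a
    rw [← norm_eq_one_iff]
    have h2 := hle (φ⁻¹ (gl a))
    have h3 : (φ : FreeGroup α →* FreeGroup α) (φ⁻¹ (gl a)) = gl a := by
      exact MulAut.apply_inv_self _ φ (gl a)
    rw [h3, (norm_eq_one_iff (gl a)).2 ⟨a, rfl⟩] at h2
    have h4 : (φ⁻¹ (gl a)).norm ≠ 0 := by
      intro h0
      rw [FreeGroup.norm_eq_zero] at h0
      have h5 : gl a = 1 := by
        have := congrArg φ h0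
        rwa [MulAut.apply_inv_self, map_one] at this
      have h6 := (norm_eq_one_iff (gl a)).2 ⟨a, rfl⟩
      rw [h5, FreeGroup.norm_one] at h6
      omega
    omega
  choose s hs using h1
  have hsinj : Function.Injective s := by
    intro a b hab
    apply gl_inj
    apply (φ⁻¹).injective
    rw [hs, hs, hab]
  have hsbij : Function.Bijective s := Finite.injective_iff_bijective.1 hsinj
  let σ : Equiv.Perm (Lt α) := Equiv.ofBijective s hsbij
  have hσ : σ ∈ SP α := by
    intro a
    show s (nv a) = nv (s a)
    apply gl_inj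
    rw [← hs, gl_nv, gl_nv, map_inv, hs]
  have h7 : toAut (⟨σ, hσ⟩ : SP α) = φ⁻¹ := by
    apply aut_ext_gl
    intro a
    rw [toAut_gl, hs]
    rfl
  exact ⟨(⟨σ, hσ⟩ : SP α)⁻¹, by rw [map_inv, h7, inv_inv]⟩

/-- sums over all letters after an elementary move -/
lemma sum_move [Fintype α] (f : FreeGroup α → ℕ) (φ : MulAut (FreeGroup α)) (a b : Lt α)
    (hab : a.1 ≠ b.1) :
    (∑ y : Lt α, f ((φ * eAut a b) (gl y))) + (f (φ (gl a)) + f (φ (gl a))⁻¹) =
      (∑ y : Lt α, f (φ (gl y))) + (f (φ (gl a) * φ (gl b)) + f (φ (gl a) * φ (gl b))⁻¹) := by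
  classical
  have hne : nv a ≠ a := nv_ne a
  have hmem1 : a ∈ (Finset.univ : Finset (Lt α)) := Finset.mem_univ _
  have hmem2 : nv a ∈ (Finset.univ : Finset (Lt α)).erase a := by simp [hne]
  have key : ∀ F : Lt α → ℕ, ∑ y : Lt α, F y =
      F a + (F (nv a) + ∑ y ∈ ((Finset.univ : Finset (Lt α)).erase a).erase (nv a), F y) := by
    intro F
    rw [Finset.add_sum_erase _ F hmem2, Finset.add_sum_erase _ F hmem1]
  rw [key (fun y => f ((φ * eAut a b) (gl y))), key (fun y => f (φ (gl y)))]
  have h1 : (φ * eAut a b) (gl a) = φ (gl a) * φ (gl b) := by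
    rw [MulAut.mul_apply, eAut_gl]
    unfold eFun
    simp [hab]
  have h2 : (φ * eAut a b) (gl (nv a)) = (φ (gl a) * φ (gl b))⁻¹ := by
    rw [gl_nv, map_inv, h1]
  have h3 : φ (gl (nv a)) = (φ (gl a))⁻¹ := by rw [gl_nv, map_inv]
  have h4 : ∑ y ∈ ((Finset.univ : Finset (Lt α)).erase a).erase (nv a),
      f ((φ * eAut a b) (gl y)) =
      ∑ y ∈ ((Finset.univ : Finset (Lt α)).erase a).erase (nv a), f (φ (gl y)) := by
    apply Finset.sum_congr rfl
    intro y hy
    rw [Finset.mem_erase, Finset.mem_erase] at hy
    rw [MulAut.mul_apply, eAut_gl]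
    unfold eFun
    simp [hab, hy.1, hy.2.1]
  simp only [h1, h2, h3, h4]
  ring

/-- total length -/
noncomputable def mT [Fintype α] (φ : MulAut (FreeGroup α)) : ℕ := ∑ y : Lt α, (φ (gl y)).norm

/-- total value of the halves -/
noncomputable def mR [Fintype α] (φ : MulAut (FreeGroup α)) : ℕ := ∑ y : Lt α, hv (φ (gl y))

theorem nred_of_min [Fintype α] (φ : MulAut (FreeGroup α))
    (hmin : ∀ a b : Lt α, a.1 ≠ b.1 → mT φ ≤ mT (φ * eAut a b) ∧
      (mT (φ * eAut a b) = mT φ → mR φ ≤ mR (φ * eAut a b))) :
    NRed (fun a : Lt α => φ (gl a)) := by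
  have hinv : ∀ a : Lt α, φ (gl (nv a)) = (φ (gl a))⁻¹ := fun a => by rw [gl_nv, map_inv]
  have hne : ∀ a : Lt α, φ (gl a) ≠ 1 := by
    intro a h
    have h5 : gl a = 1 := φ.injective (by rw [h, map_one])
    have h6 := (norm_eq_one_iff (gl a)).2 ⟨a, rfl⟩
    rw [h5, FreeGroup.norm_one] at h6
    omega
  have hT : ∀ a b : Lt α, a.1 ≠ b.1 → (φ (gl a)).norm ≤ (φ (gl a) * φ (gl b)).norm := by
    intro a b hab
    have h1 := sum_move FreeGroup.norm φ a b hab
    have h2 := (hmin a b hab).1
    unfold mT at h2
    rw [FreeGroup.norm_inv_eq, FreeGroup.norm_inv_eq] at h1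
    omega
  have hn1 : ∀ a b : Lt α, a.1 ≠ b.1 → 2 * cc (φ (gl a)) (φ (gl b)) ≤ (φ (gl b)).norm ∧
      2 * cc (φ (gl a)) (φ (gl b)) ≤ (φ (gl a)).norm := by
    intro a b hab
    have h1 := norm_mul_cc (φ (gl a)) (φ (gl b))
    have h2 := hT a b hab
    have h3 := hT (nv b) (nv a) (by simpa using hab.symm)
    rw [hinv, hinv, ← mul_inv_rev, FreeGroup.norm_inv_eq, FreeGroup.norm_inv_eq] at h3
    omega
  have hsq : ∀ a : Lt α, 2 * cc (φ (gl a)) (φ (gl a)) < (φ (gl a)).norm := fun a =>
    norm_lt_sq _ (hne a)
  -- no tie with a decreasing value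
  have htie : ∀ (a b : Lt α) (m : ℕ), a.1 ≠ b.1 → cc (φ (gl a)) (φ (gl b)) = m →
      (φ (gl b)).norm = 2 * m →
      vl ((φ (gl b)).toWord.take m) ≤ vl ((φ (gl b))⁻¹.toWord.take m) := by
    intro a b m hab hc hb
    by_contra hlt
    rw [not_le] at hlt
    have h1 := hn1 a b hab
    obtain ⟨h2, h3⟩ := hv_decrease (φ (gl a)) (φ (gl b)) m hc hb (by omega) hlt
    have h4 := sum_move FreeGroup.norm φ a b hab
    have h5 := sum_move hv φ a b hab
    have h6 := (hmin a b hab).2
    unfold mT mR at h6
    rw [FreeGroup.norm_inv_eq, FreeGroup.norm_inv_eq] at h4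
    have h7 := h6 (by omega)
    omega
  refine ⟨hinv, hne, ?_, ?_⟩
  · intro a b hab
    by_cases h : a.1 = b.1
    · rcases fst_eq_iff.1 h with h' | h'
      · subst h'
        have := hsq a
        exact ⟨this.le, this.le⟩
      · exact absurd (by rw [h', nv_nv]) hab
    · exact hn1 a b h
  · intro a b d hab hbd
    have ha : a.1 = b.1 → a = b := by
      intro h
      rcases fst_eq_iff.1 h with h' | h'
      · exact h'
      · exact absurd (by rw [h', nv_nv]) hab
    have hd : b.1 = d.1 → b = d := by
      intro h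
      rcases fst_eq_iff.1 h with h' | h'
      · exact h'
      · exact absurd (by rw [h', nv_nv]) hbd
    have hA : 2 * cc (φ (gl a)) (φ (gl b)) ≤ (φ (gl b)).norm := by
      by_cases h : a.1 = b.1
      · rw [ha h]
        exact (hsq b).le
      · exact (hn1 a b h).1
    have hD : 2 * cc (φ (gl b)) (φ (gl d)) ≤ (φ (gl b)).norm := by
      by_cases h : b.1 = d.1
      · rw [← hd h]
        exact (hsq b).le
      · exact (hn1 b d h).2
    by_contra hcon
    rw [not_lt] at hcon
    have hA' : 2 * cc (φ (gl a)) (φ (gl b)) = (φ (gl b)).norm := by omega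
    have hD' : 2 * cc (φ (gl b)) (φ (gl d)) = (φ (gl b)).norm := by omega
    have hab1 : a.1 ≠ b.1 := by
      intro h
      have := hsq b
      rw [ha h] at hA'
      omega
    have hbd1 : b.1 ≠ d.1 := by
      intro h
      have := hsq b
      rw [← hd h] at hD'
      omega
    set m := cc (φ (gl a)) (φ (gl b)) with hm
    have h1 := htie a b m hab1 rfl hA'.symm
    have h2 := htie (nv d) (nv b) m (by simpa using hbd1.symm)
      (by rw [hinv, hinv, cc_inv]; omega) (by rw [hinv, FreeGroup.norm_inv_eq]; omega)
    rw [hinv, inv_inv] at h2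
    have h3 := le_antisymm h1 h2
    have hlen : (φ (gl b)).toWord.length = 2 * m := hA'.symm
    have hlen' : (φ (gl b))⁻¹.toWord.length = 2 * m := by
      have := FreeGroup.norm_inv_eq (x := φ (gl b))
      unfold FreeGroup.norm at this
      omega
    have h4 := vl_inj (by rw [List.length_take, List.length_take, hlen, hlen']) h3
    -- then `φ (gl b)` would be an involution-like word
    have h5 : m ≤ nlcp (φ (gl b)).toWord (φ (gl b))⁻¹.toWord := by
      rw [le_nlcp_iff]
      exact ⟨by omega, by omega, h4⟩
    have h6 : m ≤ cc (φ (gl b)) (φ (gl b)) := by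
      unfold cc
      rw [gp_comm]
      exact h5
    have h7 := hsq b
    omega

end nielsen

/-- Nielsen's theorem. -/
theorem nielsen_generation {α : Type} [DecidableEq α] [Fintype α] (φ : MulAut (FreeGroup α)) :
    φ ∈ Subgroup.closure (genSet α) := by
  induction hn : mT φ using Nat.strong_induction_on generalizing φ with
  | _ n ihn =>
    induction hr : mR φ using Nat.strong_induction_on generalizing φ with
    | _ r ihr =>
      by_cases hmin : ∀ a b : Lt α, a.1 ≠ b.1 → mT φ ≤ mT (φ * eAut a b) ∧
          (mT (φ * eAut a b) = mT φ → mR φ ≤ mR (φ * eAut a b))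
      · obtain ⟨σ, hσ⟩ := (nred_of_min φ hmin).mem_range
        exact Subgroup.subset_closure (Or.inl ⟨σ, hσ⟩)
      · push Not at hmin
        obtain ⟨a, b, hab, h⟩ := hmin
        have he : eAut a b ∈ Subgroup.closure (genSet α) :=
          Subgroup.subset_closure (Or.inr ⟨a, b, hab, rfl⟩)
        have hmem : φ * eAut a b ∈ Subgroup.closure (genSet α) := by
          by_cases h1 : mT φ ≤ mT (φ * eAut a b)
          · obtain ⟨h2, h3⟩ := h h1
            exact ihr (mR (φ * eAut a b)) (by omega) (φ * eAut a b) (by omega) rfl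
          · exact ihn (mT (φ * eAut a b)) (by omega) (φ * eAut a b) rfl
        have := Subgroup.mul_mem _ hmem (Subgroup.inv_mem _ he)
        rwa [mul_inv_cancel_right] at this

end Pool.Agent.Helper156.OF
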