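import Pool.Agent.Helper156.OF.Rel

set_option autoImplicit false
set_option linter.unusedSectionVars false

namespace Pool.Agent.Helper156.OF

variable {α : Type} [DecidableEq α]

/-- Multiplier of an elementary automorphism. -/
def um (x a c : Lt α) : FreeGroup α := if c = x then gl a else 1

lemma eAut_um (x a : Lt α) (h : x.1 ≠ a.1) (c : Lt α) :
    eAut x a (gl c) = (um x a (nv c))⁻¹ * gl c * um x a c := by
  rw [eAut_gl]
  unfold eFun um
  rw [if_neg h]
  by_cases h1 : c = x
  · subst h1
    simp [nv_ne]
  · by_cases h2 : c = nv x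
    · subst h2
      simp [nv_ne]
    · have h3 : nv c ≠ x := fun h => h2 (by rw [← h, nv_nv])
      simp [h1, h2, h3]

lemma eAut_fix (x a c : Lt α) (h : c.1 ≠ x.1) : eAut x a (gl c) = gl c := by
  rw [eAut_gl]
  unfold eFun
  have h1 : c ≠ x := fun e => h (e ▸ rfl)
  have h2 : c ≠ nv x := fun e => h (e ▸ rfl)
  simp [h1, h2]

lemma eAut_um_fix (x a y b c : Lt α) (h : b.1 ≠ x.1) : eAut x a (um y b c) = um y b c := by
  unfold um
  split_ifs
  · exact eAut_fix x a b h
  · exact map_one _

lemma um_comm (x y a b c : Lt α) (h : x ≠ y) : um x a c * um y b c = um y b c * um x a c := by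
  unfold um
  by_cases h1 : c = x
  · have h2 : c ≠ y := fun e => h (h1 ▸ e)
    simp [h2]
  · simp [h1]

lemma eAut_junk (x a : Lt α) (h : x.1 = a.1) : eAut x a = 1 := by
  apply aut_ext_gl
  intro c
  rw [eAut_gl]
  simp [eFun, h]

lemma eAut_self_right (x a : Lt α) (h : x.1 ≠ a.1) : eAut x a (gl x) = gl x * gl a := by
  rw [eAut_gl]
  simp [eFun, h]

lemma toAut_um (w : SP α) (x a c : Lt α) :
    toAut w (um x a c) = um ((w : Equiv.Perm (Lt α)) x) ((w : Equiv.Perm (Lt α)) a)
      ((w : Equiv.Perm (Lt α)) c) := by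
  unfold um
  by_cases h : c = x
  · simp [h]
  · simp [h]

/-- The defining relations hold in the automorphism group. -/
theorem rel_aut : Rel (toAut : SP α →* MulAut (FreeGroup α)) (eAut (α := α)) where
  junk x a h := eAut_junk x a h
  e0 w x a := by
    rw [mul_inv_eq_iff_eq_mul]
    apply aut_ext_gl
    intro c
    rw [MulAut.mul_apply, MulAut.mul_apply, toAut_gl]
    by_cases h : x.1 = a.1
    · have h' : ((w : Equiv.Perm (Lt α)) x).1 = ((w : Equiv.Perm (Lt α)) a).1 := by
        rcases fst_eq_iff.1 h with e | e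
        · rw [e]
        · rw [e, SP.map_nv, nv_fst]
      rw [eAut_junk x a h, eAut_junk _ _ h', MulAut.one_apply, MulAut.one_apply, toAut_gl]
    · have h' : ((w : Equiv.Perm (Lt α)) x).1 ≠ ((w : Equiv.Perm (Lt α)) a).1 := by
        intro e
        apply h
        rcases fst_eq_iff.1 e with e | e
        · rw [(w : Equiv.Perm (Lt α)).injective e]
        · rw [← SP.map_nv] at e
          rw [(w : Equiv.Perm (Lt α)).injective e, nv_fst]
      rw [eAut_um x a h, eAut_um _ _ h', map_mul, map_mul, map_inv, toAut_um, toAut_um, toAut_gl,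
        SP.map_nv]
  e1 x a := by
    apply aut_ext_gl
    intro c
    rfl
  e2 x y a b hxy h1 h2 := by
    by_cases hx : x.1 = a.1
    · rw [eAut_junk x a hx]
      exact Commute.one_left _
    by_cases hy : y.1 = b.1
    · rw [eAut_junk y b hy]
      exact Commute.one_right _
    apply aut_ext_gl
    intro c
    rw [MulAut.mul_apply, MulAut.mul_apply, eAut_um x a hx c, eAut_um y b hy c]
    simp only [map_mul, map_inv]
    rw [eAut_um_fix x a y b _ (Ne.symm h1), eAut_um_fix x a y b _ (Ne.symm h1),
      eAut_um_fix y b x a _ (Ne.symm h2), eAut_um_fix y b x a _ (Ne.symm h2),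
      eAut_um x a hx c, eAut_um y b hy c]
    have k1 := um_comm x y a b c hxy
    have k2 := um_comm x y a b (nv c) hxy
    calc (um y b (nv c))⁻¹ * ((um x a (nv c))⁻¹ * gl c * um x a c) * um y b c
        = (um x a (nv c) * um y b (nv c))⁻¹ * gl c * (um x a c * um y b c) := by group
      _ = (um y b (nv c) * um x a (nv c))⁻¹ * gl c * (um y b c * um x a c) := by rw [k1, k2]
      _ = _ := by group
  e3 x y z h1 h2 h3 := by
    rw [mul_inv_eq_iff_eq_mul]
    have hxy : x ≠ y := fun e => h1 (e ▸ rfl)
    apply aut_ext_gl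
    intro c
    have s1 : ∀ d, eAut y z (um x y d) = um x y d * um x z d := by
      intro d
      unfold um
      by_cases hd : d = x
      · simp only [hd, if_true]
        exact eAut_self_right y z h3
      · simp [hd]
    rw [MulAut.mul_apply, MulAut.mul_apply, MulAut.mul_apply, eAut_um x y h1 c,
      eAut_um y z h3 c]
    simp only [map_mul, map_inv]
    rw [s1, s1, eAut_um y z h3 c, eAut_um_fix x z y z _ (Ne.symm h2),
      eAut_um_fix x z y z _ (Ne.symm h2), eAut_um x z h2 c]
    simp only [map_mul, map_inv]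
    rw [eAut_um_fix x y y z _ (Ne.symm h2),
      eAut_um_fix x y y z _ (Ne.symm h2), eAut_um_fix x y x z _ (Ne.symm h2),
      eAut_um_fix x y x z _ (Ne.symm h2), eAut_um x y h1 c]
    have k1 := um_comm x y y z c hxy
    have k2 := um_comm x y y z (nv c) hxy
    have k3 := um_comm x y z z c hxy
    have k4 := um_comm x y z z (nv c) hxy
    have l1 : um x y c * um x z c * um y z c = um y z c * (um x y c * um x z c) := by
      rw [mul_assoc, k3, ← mul_assoc, k1, mul_assoc]
    have l2 : um x y (nv c) * um x z (nv c) * um y z (nv c) =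
        um y z (nv c) * (um x y (nv c) * um x z (nv c)) := by
      rw [mul_assoc, k4, ← mul_assoc, k2, mul_assoc]
    calc (um x y (nv c) * um x z (nv c))⁻¹ * ((um y z (nv c))⁻¹ * gl c * um y z c) *
        (um x y c * um x z c)
        = (um y z (nv c) * (um x y (nv c) * um x z (nv c)))⁻¹ * gl c *
          (um y z c * (um x y c * um x z c)) := by group
      _ = (um x y (nv c) * um x z (nv c) * um y z (nv c))⁻¹ * gl c *
          (um x y c * um x z c * um y z c) := by rw [l1, l2]
      _ = _ := by group
  e4 a b σ hab s1 s2 s3 := by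
    apply aut_ext_gl
    intro c
    rw [MulAut.mul_apply, MulAut.mul_apply]
    have hab' : (nv a).1 ≠ b.1 := by simpa using hab
    by_cases h1 : c.1 = a.1
    · have q : ∀ d, d = a → eAut (nv a) b (eAut b a (gl d)) = toAut σ (eAut a b (gl d)) := by
        rintro d rfl
        rw [eAut_fix b d d hab, eAut_self_right d b hab, map_mul, toAut_gl, toAut_gl, s1, s2,
          eAut_um _ _ hab']
        simp [um, ne_nv]
      rcases fst_eq_iff.1 h1 with e | e
      · exact q c e
      · rw [e, gl_nv, map_inv, map_inv, map_inv, map_inv, q a rfl]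
    · by_cases h2 : c.1 = b.1
      · have q : ∀ d, d = b → eAut (nv a) b (eAut b a (gl d)) = toAut σ (eAut a b (gl d)) := by
          rintro d rfl
          rw [eAut_self_right d a (Ne.symm hab), map_mul, eAut_fix (nv a) d d (Ne.symm hab'),
            eAut_fix a d d (Ne.symm hab), toAut_gl, s2, eAut_um _ _ hab']
          simp [um, ne_nv]
        rcases fst_eq_iff.1 h2 with e | e
        · exact q c e
        · rw [e, gl_nv, map_inv, map_inv, map_inv, map_inv, q b rfl]
      · rw [eAut_fix b a c h2, eAut_fix a b c h1, eAut_fix (nv a) b c h1, toAut_gl, s3 c h1 h2]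

end Pool.Agent.Helper156.OF
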