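import Pool.Agent.Helper156.OF.Peak
import Pool.Agent.Helper156.OF.RelAut
import Pool.Agent.Helper156.OF.Nielsen

set_option autoImplicit false
set_option linter.unusedSectionVars false

namespace Pool.Agent.Helper156.OF

variable {α P : Type} [DecidableEq α] [Fintype α] [Group P]

lemma toAut_injective : Function.Injective (toAut : SP α →* MulAut (FreeGroup α)) := by
  intro σ τ h
  apply SP_ext
  intro x
  apply gl_inj
  rw [← toAut_gl, ← toAut_gl, h]

lemma toWord_gl (x : Lt α) : (gl x).toWord = [x] := by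
  simp [gl, FreeGroup.toWord_mk]

lemma cut_one (A : Finset (Option (Lt α))) (hn : none ∉ A) (x : Lt α) :
    cut A [x] = (if some (nv x) ∈ A then 1 else 0) + (if some x ∈ A then 1 else 0) := by
  unfold cut turns turns
  by_cases h1 : some (nv x) ∈ A <;> by_cases h2 : some x ∈ A <;> simp [hn, h1, h2]

lemma card_letters (A : Finset (Option (Lt α))) (hn : none ∉ A) :
    ∑ i : α, ((if some (nv (i, true)) ∈ A then 1 else 0) + (if some (i, true) ∈ A then 1 else 0)) =
      A.card := by
  have h1 : A.card = ∑ x : Lt α, (if some x ∈ A then 1 else 0) := by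
    rw [Finset.sum_ite, Finset.sum_const_zero, add_zero, Finset.sum_const, smul_eq_mul, mul_one]
    rw [← Finset.card_image_of_injective _ (Option.some_injective (Lt α))]
    congr 1
    ext x
    cases x with
    | none => simp [hn]
    | some x => simp
  rw [h1, Fintype.sum_prod_type]
  refine Finset.sum_congr rfl fun i _ => ?_
  rw [Fintype.sum_bool, add_comm]
  rfl

lemma conn_mono {W : SP α →* P} {E : Lt α → Lt α → P} {π : P →* MulAut (FreeGroup α)}
    {M N : ℕ} (hMN : M ≤ N) {x y : P} (h : Conn W E π M x y) : Conn W E π N x y := by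
  induction h with
  | refl => exact Relation.ReflTransGen.refl
  | tail _ hyz ih => exact ih.tail ⟨hyz.1, lt_of_lt_of_le hyz.2.1 hMN, lt_of_lt_of_le hyz.2.2 hMN⟩

section

variable {W : SP α →* P} {E : Lt α → Lt α → P} {π : P →* MulAut (FreeGroup α)}
variable [Nonempty α] (R : Rel W E) (H : Act W E π)

include R H

lemma cg_one (A : Finset (Option (Lt α))) (hn : none ∉ A) : cg π 1 A = A.card := by
  unfold cg
  rw [← card_letters A hn]
  refine Finset.sum_congr rfl fun i _ => ?_
  rw [map_one, MulAut.one_apply, ← gl_true, toWord_gl, cut_one A hn]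

lemma dg_one (a : Lt α) : dg π 1 a = 1 := by
  unfold dg
  have h : ∀ i : α, occ a ((π 1) (FreeGroup.of i)).toWord = if i = a.1 then 1 else 0 := by
    intro i
    rw [map_one, MulAut.one_apply, ← gl_true, toWord_gl]
    unfold occ
    by_cases hi : i = a.1 <;> simp [hi]
  rw [Finset.sum_congr rfl fun i _ => h i]
  simp

lemma om_eq_one_of_min_aux (A : Finset (Option (Lt α))) (a : Lt α) (hA : Va A a) (hn : none ∉ A)
    (h : ht π (om E A a) ≤ ht π 1) : om E A a = 1 := by
  have k := ht_om R H 1 A a hA
  rw [mul_one, cg_one R H A hn, dg_one R H] at k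
  have hc : A.card ≤ 1 := by omega
  have : A = {some a} := by
    apply Finset.eq_singleton_iff_unique_mem.2
    exact ⟨hA.1, fun x hx => Finset.card_le_one.1 hc x hx _ hA.1⟩
  rw [this]
  exact R.om_single a

lemma om_eq_one_of_min (A : Finset (Option (Lt α))) (a : Lt α) (hA : Va A a)
    (h : ht π (om E A a) ≤ ht π 1) : om E A a = 1 := by
  by_cases hn : none ∈ A
  · have := om_eq_one_of_min_aux R H Aᶜ (nv a) hA.compl
      (by rw [Finset.mem_compl, not_not]; exact hn) (by rwa [R.om_compl])
    rwa [R.om_compl] at this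
  · exact om_eq_one_of_min_aux R H A a hA hn h

lemma mem_W_of_conn (x : P) (h : Conn W E π (ht π 1 + 1) 1 x) : ∃ w, x = W w := by
  induction h with
  | refl => exact ⟨1, (map_one W).symm⟩
  | @tail y z _ hyz ih =>
    obtain ⟨w, rfl⟩ := ih
    obtain ⟨⟨w', A, a, hA, rfl⟩, _, h2⟩ := hyz
    have e : om E A a * W w = W w * ((W w⁻¹) * om E A a * (W w⁻¹)⁻¹) := by
      rw [map_inv]; group
    rw [e, R.om_w] at h2 ⊢
    rw [ht_W R H, ht_W R H] at h2
    have := om_eq_one_of_min R H _ _ (va_image R w⁻¹ hA) (by omega)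
    rw [this, mul_one, ← map_mul]
    exact ⟨_, rfl⟩

lemma conn_of_mem (x : P) (h : x ∈ Subgroup.closure (Set.range W ∪ {y | ∃ x a, y = E x a})) :
    ∃ M, Conn W E π M 1 x := by
  have step : ∀ (s y : P), (∀ g : P, Stp W E g (s * g)) → (∃ M, Conn W E π M 1 y) →
      ∃ M, Conn W E π M 1 (s * y) := by
    rintro s y hs ⟨M, hM⟩
    refine ⟨max M (max (ht π y) (ht π (s * y)) + 1), ?_⟩
    have h1 : Conn W E π (max M (max (ht π y) (ht π (s * y)) + 1)) 1 y :=
      conn_mono (le_max_left _ _) hM
    refine h1.tail ⟨hs y, ?_, ?_⟩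
    · exact lt_of_lt_of_le (Nat.lt_succ_of_le (le_max_left _ _)) (le_max_right _ _)
    · exact lt_of_lt_of_le (Nat.lt_succ_of_le (le_max_right _ _)) (le_max_right _ _)
  have hE : ∀ (x a : Lt α) (g : P), Stp W E g (E x a * g) := by
    intro x a g
    by_cases hxa : x.1 = a.1
    · rw [R.junk x a hxa, one_mul]
      exact stp_refl R g
    · have hne : (some x : Option (Lt α)) ∉ ({some a} : Finset (Option (Lt α))) := by
        intro h
        rw [Finset.mem_singleton] at h
        exact hxa (by rw [Option.some_injective _ h])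
      have hv : Va (insert (some x) ({some a} : Finset (Option (Lt α)))) a := by
        refine ⟨by simp, ?_⟩
        intro h
        rw [Finset.mem_insert, Finset.mem_singleton] at h
        rcases h with h | h
        · exact hxa (by rw [← Option.some_injective _ h, nv_fst])
        · exact nv_ne a (Option.some_injective _ h)
      have e : om E (insert (some x) ({some a} : Finset (Option (Lt α)))) a = E x a := by
        have : om E (insert (some x) ({some a} : Finset (Option (Lt α)))) a =
            xE E (some x) a * om E {some a} a := cprod_insert (R.xpc a) hne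
        rw [this, R.om_single, mul_one]
        rfl
      have := stp_om R hv g
      rwa [e] at this
  induction h using Subgroup.closure_induction_left with
  | one => exact ⟨0, Relation.ReflTransGen.refl⟩
  | mul_left s hs y _ ih =>
    refine step s y ?_ ih
    rcases hs with ⟨w, rfl⟩ | ⟨x, a, rfl⟩
    · exact fun g => stp_W R w g
    · exact hE x a
  | inv_mul_cancel s hs y _ ih =>
    refine step s⁻¹ y ?_ ih
    rcases hs with ⟨w, rfl⟩ | ⟨x, a, rfl⟩
    · intro g
      rw [← map_inv]
      exact stp_W R _ g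
    · intro g
      rw [← R.e1]
      exact hE x _ g

/-- The relations present the group: a product of generators acting trivially is trivial. -/
theorem eq_one_of_act (x : P) (h : x ∈ Subgroup.closure (Set.range W ∪ {y | ∃ x a, y = E x a}))
    (hx : π x = 1) : x = 1 := by
  obtain ⟨M, hM⟩ := conn_of_mem R H x h
  have hht : ht π x = ht π 1 := by
    unfold ht
    rw [hx, map_one]
  have hM' : Conn W E π (max M (ht π 1 + 1)) 1 x := conn_mono (le_max_left _ _) hM
  have h2 := conn_min R H _ x hht hM' (lt_of_lt_of_le (Nat.lt_succ_self _) (le_max_right _ _))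
  obtain ⟨w, rfl⟩ := mem_W_of_conn R H x h2
  rw [H.hW] at hx
  have : w = 1 := toAut_injective (by rw [hx, map_one])
  rw [this, map_one]

end

/-- Products of systems satisfying the relations. -/
lemma Rel.prod' {G K : Type} [Group G] [Group K] {W₁ : SP α →* G} {E₁ : Lt α → Lt α → G}
    {W₂ : SP α →* K} {E₂ : Lt α → Lt α → K} (R₁ : Rel W₁ E₁) (R₂ : Rel W₂ E₂) :
    Rel (W₁.prod W₂) (fun x a => (E₁ x a, E₂ x a)) where
  junk x a h := Prod.ext (R₁.junk x a h) (R₂.junk x a h)
  e0 w x a := Prod.ext (R₁.e0 w x a) (R₂.e0 w x a)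
  e1 x a := Prod.ext (R₁.e1 x a) (R₂.e1 x a)
  e2 x y a b h1 h2 h3 := Prod.ext (R₁.e2 x y a b h1 h2 h3).eq (R₂.e2 x y a b h1 h2 h3).eq
  e3 x y z h1 h2 h3 := Prod.ext (R₁.e3 x y z h1 h2 h3) (R₂.e3 x y z h1 h2 h3)
  e4 a b σ h1 h2 h3 h4 := Prod.ext (R₁.e4 a b σ h1 h2 h3 h4) (R₂.e4 a b σ h1 h2 h3 h4)

/-- The presentation of the automorphism group of a free group, as a universal property. -/
theorem presentation [Nonempty α] {K : Type} [Group K] {W : SP α →* K} {E : Lt α → Lt α → K}
    (R : Rel W E) : ∃ F : MulAut (FreeGroup α) →* K, (∀ w, F (toAut w) = W w) ∧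
      ∀ x a, F (eAut x a) = E x a := by
  set W' : SP α →* MulAut (FreeGroup α) × K := toAut.prod W with hW'
  set E' : Lt α → Lt α → MulAut (FreeGroup α) × K := fun x a => (eAut x a, E x a) with hE'
  have R' : Rel W' E' := Rel.prod' rel_aut R
  have H' : Act W' E' (MonoidHom.fst (MulAut (FreeGroup α)) K) := ⟨fun w => rfl, fun x a => rfl⟩
  set S := Subgroup.closure (Set.range W' ∪ {y | ∃ x a, y = E' x a}) with hS
  set p : S →* MulAut (FreeGroup α) := (MonoidHom.fst (MulAut (FreeGroup α)) K).comp S.subtype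
    with hp
  have inj : Function.Injective p := by
    rw [injective_iff_map_eq_one]
    intro x hx
    apply Subtype.ext
    exact eq_one_of_act R' H' x.1 x.2 hx
  have surj : Function.Surjective p := by
    rw [← MonoidHom.range_eq_top, eq_top_iff]
    intro φ _
    have hφ := nielsen_generation φ
    refine (Subgroup.closure_le _).2 ?_ hφ
    rintro ψ (⟨w, rfl⟩ | ⟨x, a, _, rfl⟩)
    · exact ⟨⟨W' w, Subgroup.subset_closure (Or.inl ⟨w, rfl⟩)⟩, rfl⟩
    · exact ⟨⟨E' x a, Subgroup.subset_closure (Or.inr ⟨x, a, rfl⟩)⟩, rfl⟩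
  set e := MulEquiv.ofBijective p ⟨inj, surj⟩ with he
  refine ⟨((MonoidHom.snd (MulAut (FreeGroup α)) K).comp S.subtype).comp e.symm.toMonoidHom,
    fun w => ?_, fun x a => ?_⟩
  · have : e.symm (toAut w) = ⟨W' w, Subgroup.subset_closure (Or.inl ⟨w, rfl⟩)⟩ := by
      rw [MulEquiv.symm_apply_eq]
      rfl
    simp only [MonoidHom.comp_apply, MulEquiv.coe_toMonoidHom, this]
    rfl
  · have : e.symm (eAut x a) = ⟨E' x a, Subgroup.subset_closure (Or.inr ⟨x, a, rfl⟩)⟩ := by
      rw [MulEquiv.symm_apply_eq]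
      rfl
    simp only [MonoidHom.comp_apply, MulEquiv.coe_toMonoidHom, this]
    rfl

end Pool.Agent.Helper156.OF
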