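import Pool.Agent.Helper156.OF.KRel2
import Pool.Agent.Helper156.OF.Pres

set_option autoImplicit false
set_option linter.unusedSectionVars false

namespace Pool.Agent.Helper156.OF

lemma LM.comap {G G' K : Type} [Group G] [Group G'] [Group K] {S : Set G} {S' : Set G'}
    {f : G → K} (c : G' →* G) (hS : ∀ s ∈ S', c s ∈ S) (L : LM S f) :
    LM S' (fun g => f (c g)) := by
  intro T hT hfin
  have hmap : Subgroup.closure (c '' T) = (Subgroup.closure T).map c :=
    (MonoidHom.map_closure c T).symm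
  have hfin' : Finite (Subgroup.closure (c '' T)) := by
    rw [hmap]
    exact Set.Finite.image _ (Set.toFinite ((Subgroup.closure T : Subgroup G') : Set G'))
  obtain ⟨F, hF⟩ := L (c '' T) (by
    rintro _ ⟨t, ht, rfl⟩
    exact hS t (hT ht)) hfin'
  have hmem : ∀ g : Subgroup.closure T, c g ∈ Subgroup.closure (c '' T) := by
    intro g
    rw [hmap]
    exact ⟨g, g.2, rfl⟩
  refine ⟨F.comp ((c.comp (Subgroup.closure T).subtype).codRestrict _ hmem), ?_⟩
  intro g hg hgS
  exact hF (c g) (hmem ⟨g, hg⟩) (hS g hgS)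

variable {α : Type} [DecidableEq α]

lemma ball_mul {i j : ℕ} {g h : MulAut (FreeGroup α)} (hg : g ∈ ball α i) (hh : h ∈ ball α j) :
    g * h ∈ ball α (i + j) := by
  induction j generalizing h with
  | zero =>
    have : h = 1 := hh
    rw [this, mul_one]
    exact hg
  | succ j ih =>
    obtain ⟨k, hk, u, hu, rfl⟩ := hh
    rw [← mul_assoc]
    exact ball_succ (ih hk) hu

lemma ball_mono {i j : ℕ} (hij : i ≤ j) {g : MulAut (FreeGroup α)} (hg : g ∈ ball α i) :
    g ∈ ball α j := by
  obtain ⟨k, rfl⟩ := Nat.exists_eq_add_of_le hij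
  have := ball_mul hg (one_mem_ball k)
  rwa [mul_one] at this

lemma SS_mono {i j : ℕ} (hij : i ≤ j) : SS α i ⊆ SS α j := by
  rintro _ ⟨h, hh, g, hg, rfl⟩
  exact ⟨h, ball_mono hij hh, g, hg, rfl⟩

lemma conj_SS {i j : ℕ} {h s : MulAut (FreeGroup α)} (hh : h ∈ ball α i) (hs : s ∈ SS α j) :
    h * s * h⁻¹ ∈ SS α (i + j) := by
  obtain ⟨g, hg, b, hb, rfl⟩ := hs
  exact ⟨h * g, ball_mul hh hg, b, hb, by group⟩

/-- Transitivity on pairs of letters. -/
lemma exists_sp {x a y b : Lt α} (h1 : x.1 ≠ a.1) (h2 : y.1 ≠ b.1) :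
    ∃ w : SP α, (w : Equiv.Perm (Lt α)) x = y ∧ (w : Equiv.Perm (Lt α)) a = b := by
  set a' := (swp x y : Equiv.Perm (Lt α)) a with ha'
  have h3 : y.1 ≠ a'.1 := by
    have := valid_w (swp x y) h1
    rwa [swp_left] at this
  refine ⟨swp a' b * swp x y, ?_, ?_⟩
  · rw [Subgroup.coe_mul, Equiv.Perm.mul_apply, swp_left]
    exact swp_other h3 h2
  · rw [Subgroup.coe_mul, Equiv.Perm.mul_apply, ← ha', swp_left]

variable [Fintype α] {K : Type} [Group K] {f : MulAut (FreeGroup α) → K}

/-- Equivariance of the values under a ball. -/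
lemma equivar (h3 : 3 ≤ Fintype.card α) (k : ℕ) (L : LM (SS α k) f)
    (F : MulAut (FreeGroup α) →* K) (hF : ∀ g ∈ basic α, F g = f g) (j : ℕ) (hj : j ≤ k) :
    ∀ h ∈ ball α j, ∀ g ∈ basic α, f (h * g * h⁻¹) = F h * f g * (F h)⁻¹ := by
  have L0 : LM (basic α) f := L.mono (basic_sub_SS k)
  induction j with
  | zero =>
    intro h hh g hg
    have : h = 1 := hh
    subst this
    simp
  | succ j ih =>
    rintro _ ⟨h, hh, u, hu, rfl⟩ g hg
    have ih' := ih (by omega) h hh
    have hFh : F (h * u) = F h * f u := by rw [map_mul, hF u hu]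
    -- the family conjugated by `h`
    have L1 : LM (SS α 1) (fun g => f (h * g * h⁻¹)) := by
      refine LM.conjBy (S := SS α k) h (fun s hs => ?_) L
      exact SS_mono (by omega) (conj_SS hh hs)
    -- the family conjugated by `h * u`
    have L2 : LM (basic α) (fun g => f (h * u * g * (h * u)⁻¹)) := by
      refine LM.conjBy (S := SS α k) (h * u) (fun s hs => ?_) L
      have := conj_SS (ball_succ hh hu) (basic_sub_SS 0 hs)
      exact SS_mono (by omega) this
    rw [hFh]
    rcases hu with ⟨v, rfl⟩ | ⟨x, a, hxa, rfl⟩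
    · rcases hg with ⟨w, rfl⟩ | ⟨y, b, hyb, rfl⟩
      · have e : h * toAut v * toAut w * (h * toAut v)⁻¹ = h * toAut (v * w * v⁻¹) * h⁻¹ := by
          rw [map_mul, map_mul, map_inv]; group
        rw [e, ih' _ (toAut_mem_basic _)]
        have : f (toAut (v * w * v⁻¹)) = f (toAut v) * f (toAut w) * (f (toAut v))⁻¹ := by
          change WK L0 (v * w * v⁻¹) = WK L0 v * WK L0 w * (WK L0 v)⁻¹
          rw [map_mul, map_mul, map_inv]
        rw [this]
        group
      · have e : h * toAut v * sA y b * (h * toAut v)⁻¹ = h * (toAut v * sA y b * (toAut v)⁻¹) * h⁻¹ := by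
          group
        rw [e, W_sA, ih' _ (sA_mem_basic (valid_w v hyb)), ← gI h3 L0 hyb v]
        group
    · have hs : sA x a ∈ basic α := sA_mem_basic hxa
      have caseW : ∀ w : SP α, f (h * sA x a * toAut w * (h * sA x a)⁻¹) =
          F h * f (sA x a) * f (toAut w) * (F h * f (sA x a))⁻¹ := by
        intro w
        have e : h * sA x a * toAut w * (h * sA x a)⁻¹ = h * (sA x a * toAut w * (sA x a)⁻¹) * h⁻¹ := by
          group
        have g2 := gII h3 L1 hxa w
        rw [e, ← g2, ih' _ hs, ih' _ (toAut_mem_basic w)]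
        group
      have caseS : f (h * sA x a * sA x a * (h * sA x a)⁻¹) =
          F h * f (sA x a) * f (sA x a) * (F h * f (sA x a))⁻¹ := by
        have e : h * sA x a * sA x a * (h * sA x a)⁻¹ = h * sA x a * h⁻¹ := by group
        rw [e, ih' _ hs]
        group
      rcases hg with ⟨w, rfl⟩ | ⟨y, b, hyb, rfl⟩
      · exact caseW w
      · obtain ⟨w, rfl, rfl⟩ := exists_sp hxa hyb
        have g1 := gI h3 L2 hxa w
        rw [← g1, caseW w, caseS, ← gI h3 L0 hxa w]
        group

/-- Locally multiplicative functions extend to the automorphism group. -/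
theorem ext_aut (h3 : 3 ≤ Fintype.card α) (k : ℕ) (hk : 1 ≤ k) (L : LM (SS α k) f) :
    ∃ F : MulAut (FreeGroup α) →* K, ∀ g ∈ SS α k, F g = f g := by
  have hne : Nonempty α := Fintype.card_pos_iff.1 (by omega)
  have L1 : LM (SS α 1) f := L.mono (SS_mono hk)
  have L0 : LM (basic α) f := L.mono (basic_sub_SS k)
  obtain ⟨F, hW, hE⟩ := presentation (krel h3 L1 L0)
  have hF : ∀ g ∈ basic α, F g = f g := by
    rintro _ (⟨w, rfl⟩ | ⟨x, a, hxa, rfl⟩)
    · exact hW w
    · rw [← seK L0 hxa]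
      unfold sA se
      rw [map_mul, hW, hE]
  refine ⟨F, ?_⟩
  rintro _ ⟨h, hh, g, hg, rfl⟩
  rw [equivar h3 k L F hF k le_rfl h hh g hg, map_mul, map_mul, map_inv, hF g hg]

end Pool.Agent.Helper156.OF
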