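import Pool.Agent.Helper156.OF.Main

set_option autoImplicit false
set_option linter.unusedSectionVars false

namespace Pool.Agent.Helper156.OF

instance inner_normal (G : Type) [Group G] : (MulAut.conj : G →* MulAut G).range.Normal := by
  constructor
  rintro _ ⟨g, rfl⟩ φ
  refine ⟨φ g, ?_⟩
  ext x
  simp [MulAut.conj_apply]

variable {α : Type} [DecidableEq α]

lemma aut_ext_pos {f g : MulAut (FreeGroup α)} (h : ∀ i : α, f (gl (i, true)) = g (gl (i, true))) :
    f = g := by
  apply aut_ext_gl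
  rintro ⟨i, b⟩
  cases b
  · have : ((i, false) : Lt α) = nv (i, true) := rfl
    rw [this, gl_nv, map_inv, map_inv, h i]
  · exact h i

/-- Images of letters under the involution `x ↦ x a`, `a ↦ a⁻¹` for all positive letters. -/
def zFun (a y : Lt α) : FreeGroup α :=
  if y.1 = a.1 then (gl y)⁻¹ else if y.2 = true then gl y * gl a else (gl a)⁻¹ * gl y

lemma zFun_nv (a y : Lt α) : zFun a (nv y) = (zFun a y)⁻¹ := by
  unfold zFun
  by_cases h : y.1 = a.1
  · simp [h]
  · obtain ⟨i, b⟩ := y
    cases b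
    · have h' : i ≠ a.1 := h
      simp [nv, h', gl_nv]
      have : gl (i, true) = (gl (i, false))⁻¹ := by
        have := gl_nv ((i, false) : Lt α)
        exact this
      rw [this]
    · have h' : i ≠ a.1 := h
      simp [nv, h']
      have : gl (i, false) = (gl (i, true))⁻¹ := by
        have := gl_nv ((i, true) : Lt α)
        exact this
      rw [this]

/-- The involution as a homomorphism. -/
def zHom (a : Lt α) : FreeGroup α →* FreeGroup α := lh (zFun a)

lemma zHom_gl (a y : Lt α) : zHom a (gl y) = zFun a y := lh_gl (zFun_nv a) y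

lemma zHom_comp (a : Lt α) : (zHom a).comp (zHom a) = MonoidHom.id _ := by
  refine hom_ext_gl fun y => ?_
  rw [MonoidHom.comp_apply, zHom_gl, MonoidHom.id_apply]
  unfold zFun
  by_cases h : y.1 = a.1
  · rw [if_pos h, map_inv, zHom_gl]
    unfold zFun
    rw [if_pos h, inv_inv]
  · rw [if_neg h]
    by_cases h2 : y.2 = true
    · rw [if_pos h2, map_mul, zHom_gl, zHom_gl]
      unfold zFun
      rw [if_neg h, if_pos h2, if_pos rfl]
      group
    · rw [if_neg h2, map_mul, map_inv, zHom_gl, zHom_gl]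
      unfold zFun
      rw [if_neg h, if_neg h2, if_pos rfl]
      group

/-- The involution as an automorphism. -/
def zAut (a : Lt α) : MulAut (FreeGroup α) :=
  MonoidHom.toMulEquiv (zHom a) (zHom a) (zHom_comp a) (zHom_comp a)

lemma zAut_gl (a y : Lt α) : zAut a (gl y) = zFun a y := zHom_gl a y

lemma zAut_sq (a : Lt α) : zAut a * zAut a = 1 := by
  apply aut_ext_gl
  intro c
  exact DFunLike.congr_fun (zHom_comp a) (gl c)

/-- The signed permutation inverting all letters. -/
def negAll (α : Type) : SP α :=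
  ⟨⟨nv, nv, nv_nv, nv_nv⟩, fun _ => rfl⟩

lemma negAll_apply (x : Lt α) : (negAll α : Equiv.Perm (Lt α)) x = nv x := rfl

lemma negAll_sq : negAll α * negAll α = 1 := by
  apply SP_ext
  intro x
  rw [Subgroup.coe_mul, Equiv.Perm.mul_apply, negAll_apply, negAll_apply, nv_nv]
  rfl

lemma zAut_pos {a : Lt α} {i : α} (h : i ≠ a.1) :
    zAut a (gl (i, true)) = gl (i, true) * gl a := by
  rw [zAut_gl]
  simp [zFun, h]

lemma zAut_self (a : Lt α) : zAut a (gl a) = (gl a)⁻¹ := by
  rw [zAut_gl]
  simp [zFun]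

/-- The commutator is inner. -/
lemma neg_z (i₀ : α) : toAut (negAll α) * zAut (i₀, true) * toAut (negAll α) * zAut (i₀, true) =
    MulAut.conj (gl ((i₀, true) : Lt α)) := by
  apply aut_ext_pos
  intro i
  simp only [MulAut.mul_apply, MulAut.conj_apply]
  have hn : ∀ x : Lt α, toAut (negAll α) (gl x) = (gl x)⁻¹ := by
    intro x
    rw [toAut_gl, negAll_apply, gl_nv]
  by_cases h : i = i₀
  · subst h
    rw [zAut_self, map_inv, hn, inv_inv, zAut_self, map_inv, hn]
    group
  · rw [zAut_pos (a := (i₀, true)) h, map_mul, hn, hn, map_mul, map_inv, map_inv, zAut_self,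
      zAut_pos (a := (i₀, true)) h]
    simp only [map_mul, map_inv, hn]
    group

lemma z_braid {i₀ i₁ : α} (h : i₁ ≠ i₀) :
    zAut (i₀, true) * toAut (swp (i₁, true) (nv (i₀, true))) * zAut (i₀, true) =
      toAut (swp (i₁, true) (nv (i₀, true))) * zAut (i₀, true) *
        toAut (swp (i₁, true) (nv (i₀, true))) := by
  set a : Lt α := (i₀, true) with ha
  set b : Lt α := (i₁, true) with hb
  have tb : toAut (swp b (nv a)) (gl b) = (gl a)⁻¹ := by rw [toAut_gl, swp_left, gl_nv]
  have ta : toAut (swp b (nv a)) (gl a) = (gl b)⁻¹ := by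
    rw [toAut_gl]
    have : (swp b (nv a) : Equiv.Perm (Lt α)) a = nv b := by
      have := SP.map_nv (swp b (nv a)) (nv a)
      rwa [nv_nv, swp_right] at this
    rw [this, gl_nv]
  have zb : zAut a (gl b) = gl b * gl a := zAut_pos (a := a) h
  have za : zAut a (gl a) = (gl a)⁻¹ := zAut_self a
  apply aut_ext_pos
  intro i
  simp only [MulAut.mul_apply]
  by_cases h1 : i = i₀
  · rw [h1, ← ha, za, map_inv, ta, inv_inv, zb, map_inv, zb]
    simp only [map_mul, map_inv, tb, ta]
    group
  · by_cases h2 : i = i₁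
    · rw [h2, ← hb, zb, tb, map_mul, tb, ta]
      simp only [map_mul, map_inv, za, zb, ta]
      group
    · have h3 : i ≠ a.1 := h1
      have hs : toAut (swp b (nv a)) (gl (i, true)) = gl (i, true) := by
        rw [toAut_gl, swp_other (c := (i, true)) h2 h1]
      rw [zAut_pos h3, hs, map_mul, hs, ta, zAut_pos h3]
      simp only [map_mul, map_inv, hs, ta, zb, zAut_pos h3]
      group

variable [Fintype α]

lemma mem_ball (φ : MulAut (FreeGroup α)) : ∃ k, φ ∈ ball α k := by
  have hφ := nielsen_generation φ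
  have key : ∀ (x y : MulAut (FreeGroup α)), y ∈ genSet α → (∃ k, x ∈ ball α k) →
      ∃ k, x * y ∈ ball α k := by
    rintro x y (⟨w, rfl⟩ | ⟨c, a, hca, rfl⟩) ⟨k, hk⟩
    · exact ⟨k + 1, ball_succ hk (toAut_mem_basic w)⟩
    · have e : eAut c a = sA c a * toAut (io a) := by
        unfold sA se
        rw [mul_assoc, ← map_mul, io_sq, map_one, mul_one]
      refine ⟨k + 1 + 1, ?_⟩
      rw [e, ← mul_assoc]
      exact ball_succ (ball_succ hk (sA_mem_basic hca)) (toAut_mem_basic _)
  induction hφ using Subgroup.closure_induction_right with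
  | one => exact ⟨0, one_mem_ball 0⟩
  | mul_right x _ y hy ih => exact key x y hy ih
  | mul_inv_cancel x _ y hy ih =>
    apply key x y⁻¹ ?_ ih
    rcases hy with ⟨w, rfl⟩ | ⟨c, a, hca, rfl⟩
    · exact Or.inl ⟨w⁻¹, map_inv _ _⟩
    · exact Or.inr ⟨c, nv a, hca, ((rel_aut (α := α)).e1 c a).symm⟩

lemma z_mem_SS {i₀ i₁ : α} (h : i₁ ≠ i₀) : ∃ k, 1 ≤ k ∧ zAut (i₀, true) ∈ SS α k := by
  set t := toAut (swp ((i₁, true) : Lt α) (nv (i₀, true))) with ht
  obtain ⟨k, hk⟩ := mem_ball (t * zAut ((i₀, true) : Lt α))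
  refine ⟨k + 1, by omega, t * zAut (i₀, true), ball_mono (by omega) hk, t, toAut_mem_basic _, ?_⟩
  have hb := z_braid h
  rw [← ht] at hb
  have zz := zAut_sq ((i₀, true) : Lt α)
  have tt : t * t = 1 := toAut_swp_sq _ _
  have zi : (zAut ((i₀, true) : Lt α))⁻¹ = zAut (i₀, true) := inv_eq_of_mul_eq_one_left zz
  have ti : t⁻¹ = t := inv_eq_of_mul_eq_one_left tt
  rw [mul_inv_rev, zi, ti]
  calc zAut (i₀, true) = (t * t) * zAut (i₀, true) * (t * t) := by rw [tt, one_mul, mul_one]
    _ = t * (t * zAut (i₀, true) * t) * t := by group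
    _ = t * (zAut (i₀, true) * t * zAut (i₀, true)) * t := by rw [hb]
    _ = _ := by group

/-- The quotient map to the outer automorphism group. -/
def qO (α : Type) : MulAut (FreeGroup α) →*
    MulAut (FreeGroup α) ⧸ (MulAut.conj : FreeGroup α →* MulAut (FreeGroup α)).range :=
  QuotientGroup.mk' _

/-- Locally multiplicative functions extend to the outer automorphism group. -/
theorem ext_out (h3 : 3 ≤ Fintype.card α) : ∃ k, 1 ≤ k ∧ ∀ (K : Type) [Group K]
    (f : (MulAut (FreeGroup α) ⧸ (MulAut.conj : FreeGroup α →* MulAut (FreeGroup α)).range) → K),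
    LM (qO α '' SS α k) f →
    ∃ F : (MulAut (FreeGroup α) ⧸ (MulAut.conj : FreeGroup α →* MulAut (FreeGroup α)).range) →* K,
      ∀ g ∈ qO α '' SS α k, F g = f g := by
  obtain ⟨i₀, i₁, hne⟩ : ∃ i₀ i₁ : α, i₁ ≠ i₀ := by
    have : 1 < Fintype.card α := by omega
    obtain ⟨x, y, hxy⟩ := Fintype.one_lt_card_iff.1 this
    exact ⟨x, y, Ne.symm hxy⟩
  obtain ⟨k, hk, hz⟩ := z_mem_SS hne
  refine ⟨k, hk, ?_⟩
  intro K _ f L
  have LA : LM (SS α k) (fun g => f (qO α g)) :=
    LM.comap (S := qO α '' SS α k) (f := f) (qO α) (fun s hs => ⟨s, hs, rfl⟩) L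
  obtain ⟨F, hF⟩ := ext_aut h3 k hk LA
  set a : Lt α := (i₀, true) with ha
  have hd : toAut (negAll α) ∈ SS α k := basic_sub_SS k (toAut_mem_basic _)
  have dd : toAut (negAll α) * toAut (negAll α) = 1 := by rw [← map_mul, negAll_sq, map_one]
  have zz := zAut_sq a
  have di : (toAut (negAll α))⁻¹ = toAut (negAll α) := inv_eq_of_mul_eq_one_left dd
  have zi : (zAut a)⁻¹ = zAut a := inv_eq_of_mul_eq_one_left zz
  have hc : qO α (toAut (negAll α)) * qO α (zAut a) = qO α (zAut a) * qO α (toAut (negAll α)) := by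
    have h1 : qO α (toAut (negAll α) * zAut a * toAut (negAll α) * zAut a) = 1 := by
      rw [neg_z i₀]
      exact (QuotientGroup.eq_one_iff _).2 ⟨_, rfl⟩
    have h2 : qO α (toAut (negAll α)) * qO α (zAut a) * (qO α (toAut (negAll α)) * qO α (zAut a)) = 1 := by
      rw [← h1, map_mul, map_mul, map_mul]
      simp only [mul_assoc]
    have h3 := eq_inv_of_mul_eq_one_left h2
    rw [h3, mul_inv_rev, ← map_inv, ← map_inv, di, zi]
  have q1 : qO α (toAut (negAll α)) * qO α (toAut (negAll α)) = 1 := by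
    rw [← map_mul, dd, map_one]
  have q2 : qO α (zAut a) * qO α (zAut a) = 1 := by rw [← map_mul, zz, map_one]
  have fc := L.comm (u := qO α (toAut (negAll α))) (v := qO α (zAut a)) ⟨_, hd, rfl⟩
    ⟨_, hz, rfl⟩ (fin_comm q1 q2 hc) hc
  have fc' : F (toAut (negAll α)) * F (zAut a) = F (zAut a) * F (toAut (negAll α)) := by
    rw [hF _ hd, hF _ hz]
    exact fc
  have hconj : F (MulAut.conj (gl a)) = 1 := by
    rw [ha, ← neg_z i₀, ← ha, map_mul, map_mul, map_mul, fc']
    have e1 : F (toAut (negAll α)) * F (toAut (negAll α)) = 1 := by rw [← map_mul, dd, map_one]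
    have e2 : F (zAut a) * F (zAut a) = 1 := by rw [← map_mul, zz, map_one]
    rw [mul_assoc (F (zAut a)), e1, mul_one, e2]
  have hall : ∀ c : Lt α, F (MulAut.conj (gl c)) = 1 := by
    intro c
    have e : toAut (swp a c) * MulAut.conj (gl a) * (toAut (swp a c))⁻¹ = MulAut.conj (gl c) := by
      apply aut_ext_gl
      intro x
      simp only [MulAut.mul_apply, MulAut.conj_apply, map_mul, map_inv, toAut_gl, swp_left]
      rw [← MulAut.mul_apply, mul_inv_cancel, MulAut.one_apply]
    rw [← e, map_mul, map_mul, hconj, map_inv]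
    group
  have hker : (MulAut.conj : FreeGroup α →* MulAut (FreeGroup α)).range ≤ F.ker := by
    rintro _ ⟨v, rfl⟩
    rw [MonoidHom.mem_ker]
    have : F.comp (MulAut.conj : FreeGroup α →* MulAut (FreeGroup α)) = 1 :=
      hom_ext_gl fun x => hall x
    exact DFunLike.congr_fun this v
  refine ⟨QuotientGroup.lift _ F hker, ?_⟩
  rintro _ ⟨g, hg, rfl⟩
  exact hF g hg

lemma basic_finite : (basic α).Finite := by
  have h1 : (Set.range (fun w : SP α => toAut w)).Finite := Set.finite_range _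
  have h2 : (Set.range (fun p : Lt α × Lt α => sA p.1 p.2)).Finite := Set.finite_range _
  refine (h1.union h2).subset ?_
  rintro g (⟨w, rfl⟩ | ⟨x, a, _, rfl⟩)
  · exact Or.inl ⟨w, rfl⟩
  · exact Or.inr ⟨(x, a), rfl⟩

lemma ball_finite (k : ℕ) : (ball α k).Finite := by
  induction k with
  | zero => exact Set.finite_singleton _
  | succ k ih =>
    refine (Set.Finite.image2 (fun g u => g * u) ih (basic_finite (α := α))).subset ?_
    rintro _ ⟨g, hg, u, hu, rfl⟩
    exact ⟨g, hg, u, hu, rfl⟩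

lemma SS_finite (k : ℕ) : (SS α k).Finite := by
  refine (Set.Finite.image2 (fun h g => h * g * h⁻¹) (ball_finite (α := α) k)
    (basic_finite (α := α))).subset ?_
  rintro _ ⟨h, hh, g, hg, rfl⟩
  exact ⟨h, hh, g, hg, rfl⟩

lemma ball_sub_closure (k : ℕ) : ∀ φ ∈ ball α k, φ ∈ Subgroup.closure (basic α) := by
  induction k with
  | zero =>
    intro φ hk
    have : φ = 1 := hk
    rw [this]
    exact Subgroup.one_mem _
  | succ k ih =>
    rintro _ ⟨g, hg, u, hu, rfl⟩
    exact Subgroup.mul_mem _ (ih g hg) (Subgroup.subset_closure hu)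

lemma closure_basic : Subgroup.closure (basic α) = ⊤ := by
  rw [eq_top_iff]
  intro φ _
  obtain ⟨k, hk⟩ := mem_ball φ
  exact ball_sub_closure k φ hk

/-- Basic elements have finite order. -/
lemma basic_finite_order {g : MulAut (FreeGroup α)} (hg : g ∈ basic α) : IsOfFinOrder g := by
  rcases hg with ⟨w, rfl⟩ | ⟨x, a, hxa, rfl⟩
  · exact MonoidHom.isOfFinOrder _ (isOfFinOrder_of_finite w)
  · rw [isOfFinOrder_iff_pow_eq_one]
    exact ⟨2, by norm_num, by rw [pow_two, sA_sq hxa]⟩

end Pool.Agent.Helper156.OF
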