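import Pool.Agent.Helper156.OF.Ht

set_option autoImplicit false
set_option linter.unusedSectionVars false

namespace Pool.Agent.Helper156.OF

variable {α P : Type} [DecidableEq α] [Fintype α] [Group P]

/-- One step: multiplication by a Whitehead element and a signed permutation. -/
def Stp (W : SP α →* P) (E : Lt α → Lt α → P) (g h : P) : Prop :=
  ∃ (w : SP α) (A : Finset (Option (Lt α))) (a : Lt α), Va A a ∧ h = W w * (om E A a * g)

/-- Connectedness below a height. -/
def Conn (W : SP α →* P) (E : Lt α → Lt α → P) (π : P →* MulAut (FreeGroup α)) (N : ℕ) :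
    P → P → Prop :=
  Relation.ReflTransGen (fun u v => Stp W E u v ∧ ht π u < N ∧ ht π v < N)

/-- Joinability below a height. -/
def Joi (W : SP α →* P) (E : Lt α → Lt α → P) (π : P →* MulAut (FreeGroup α)) (N : ℕ)
    (g h : P) : Prop :=
  ∃ k, Stp W E g k ∧ ht π k < N ∧ Conn W E π N k h

variable {W : SP α →* P} {E : Lt α → Lt α → P} {π : P →* MulAut (FreeGroup α)}

lemma Va.ne {A : Finset (Option (Lt α))} {a : Lt α} (h : Va A a) {b : Lt α} (hb : some b ∉ A) :
    a ≠ b := fun e => hb (e ▸ h.1)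

lemma Va.compl {A : Finset (Option (Lt α))} {a : Lt α} (h : Va A a) : Va Aᶜ (nv a) := by
  refine ⟨Finset.mem_compl.2 h.2, ?_⟩
  rw [nv_nv, Finset.mem_compl, not_not]
  exact h.1

section alg

variable (R : Rel W E)

include R

lemma stp_om {A : Finset (Option (Lt α))} {a : Lt α} (h : Va A a) (g : P) :
    Stp W E g (om E A a * g) := ⟨1, A, a, h, by rw [map_one, one_mul]⟩

lemma stp_W [Nonempty α] (w : SP α) (g : P) : Stp W E g (W w * g) := by
  obtain ⟨i⟩ := ‹Nonempty α›
  refine ⟨w, {some (i, true)}, (i, true), ⟨by simp, by simp [nv]⟩, ?_⟩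
  rw [R.om_single, one_mul]

lemma stp_refl [Nonempty α] (g : P) : Stp W E g g := by
  have := stp_W R (1 : SP α) g
  rwa [map_one, one_mul] at this

lemma stp_W_left {g h : P} (w : SP α) (s : Stp W E g h) : Stp W E g (W w * h) := by
  obtain ⟨w', A, a, hA, rfl⟩ := s
  exact ⟨w * w', A, a, hA, by rw [map_mul]; group⟩

lemma va_image (w : SP α) {A : Finset (Option (Lt α))} {a : Lt α} (h : Va A a) :
    Va (A.image (Option.map (w : Equiv.Perm (Lt α)))) ((w : Equiv.Perm (Lt α)) a) := by
  refine ⟨?_, ?_⟩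
  · exact Finset.mem_image.2 ⟨some a, h.1, rfl⟩
  · intro hm
    obtain ⟨x, hx, hxe⟩ := Finset.mem_image.1 hm
    rw [← SP.map_nv, ← Option.map_some] at hxe
    have := Option.map_injective (w : Equiv.Perm (Lt α)).injective hxe
    exact h.2 (this ▸ hx)

lemma stp_W_right {g h : P} (w : SP α) (s : Stp W E g h) : Stp W E (W w * g) h := by
  obtain ⟨w', A, a, hA, rfl⟩ := s
  refine ⟨w' * w⁻¹, _, _, va_image R w hA, ?_⟩
  rw [← R.om_w, map_mul, map_inv]
  group

lemma stp_symm {g h : P} (s : Stp W E g h) : Stp W E h g := by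
  obtain ⟨w, A, a, hA, rfl⟩ := s
  have hv : Va (insert (some (nv a)) (A.erase (some a))) (nv a) := by
    refine ⟨Finset.mem_insert_self _ _, ?_⟩
    rw [nv_nv, Finset.mem_insert, not_or]
    exact ⟨fun h => ne_nv a (Option.some_injective _ h), Finset.notMem_erase _ _⟩
  have h1 : om E (insert (some (nv a)) (A.erase (some a))) (nv a) = (om E A a)⁻¹ := by
    rw [R.om_insert_same _ _ _ rfl, R.om_erase_same _ _ _ (nv_fst a).symm, R.om_nv]
  have h2 : Stp W E (om E A a * g) g := by
    have := stp_om R hv (om E A a * g)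
    rwa [h1, inv_mul_cancel_left] at this
  exact stp_W_right R w h2

/-- Two letters cut by the same set. -/
lemma stp_switch [Nonempty α] {A : Finset (Option (Lt α))} {a b : Lt α} (ha : Va A a)
    (hb : Va A b) (g : P) : Stp W E (om E A a * g) (om E A b * g) := by
  by_cases hab : a = b
  · subst hab
    exact stp_refl R _
  · have h := R.om_switch A a b ha hb hab
    refine ⟨(sg a b)⁻¹, insert (some (nv a)) (A.erase (some a)), b, ⟨?_, ?_⟩, ?_⟩
    · apply Finset.mem_insert_of_mem
      exact Finset.mem_erase.2 ⟨fun h => hab (Option.some_injective _ h).symm, hb.1⟩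
    · rw [Finset.mem_insert, not_or]
      refine ⟨fun h => hab (nv_inj.1 (Option.some_injective _ h)).symm, fun h => ?_⟩
      exact hb.2 (Finset.mem_of_mem_erase h)
    · rw [← mul_assoc (om E _ b), h, map_inv]
      group

/-- Same letter, disjoint sets on the two sides. -/
lemma stp_same {A C : Finset (Option (Lt α))} {a : Lt α} (hA : Va A a) (_hC : Va C (nv a))
    (hAC : Disjoint A C) (g : P) : Stp W E (om E A a * g) (om E C (nv a) * g) := by
  apply stp_symm R
  have hv : Va ((A ∪ C).erase (some (nv a))) a := by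
    refine ⟨?_, Finset.notMem_erase _ _⟩
    exact Finset.mem_erase.2 ⟨fun h => ne_nv a (Option.some_injective _ h),
      Finset.mem_union_left _ hA.1⟩
  have h1 : om E ((A ∪ C).erase (some (nv a))) a = om E A a * om E C a := by
    rw [R.om_erase_same _ _ _ (nv_fst a), R.om_union _ _ _ hAC]
  have := stp_om R hv (om E C (nv a) * g)
  rw [h1, R.om_nv] at this
  rw [R.om_nv]
  have e : om E A a * om E C a * ((om E C a)⁻¹ * g) = om E A a * g := by group
  rwa [e] at this

end alg

section peak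

variable [Nonempty α] (R : Rel W E) (H : Act W E π)

include R H

lemma joi_direct {N : ℕ} {g h : P} (s : Stp W E g h) (hh : ht π h < N) : Joi W E π N g h :=
  ⟨h, s, hh, Relation.ReflTransGen.refl⟩

lemma joi_two {N : ℕ} {g k h : P} (s : Stp W E g k) (t : Stp W E k h) (hk : ht π k < N)
    (hh : ht π h < N) : Joi W E π N g h :=
  ⟨k, s, hk, Relation.ReflTransGen.single ⟨t, hk, hh⟩⟩

/-- Compatible (disjoint) case. -/
lemma joi_disj (g : P) (A C : Finset (Option (Lt α))) (a z : Lt α) (hA : Va A a) (hC : Va C z)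
    (hAC : Disjoint A C) (h1 : ht π (om E A a * g) ≤ ht π g) (h2 : ht π (om E C z * g) < ht π g) :
    Joi W E π (ht π g) (om E A a * g) (om E C z * g) := by
  have k1 := ht_om R H g A a hA
  have k2 := ht_om R H g C z hC
  by_cases ha : some (nv a) ∈ C
  · by_cases hz : some (nv z) ∈ A
    · by_cases hza : z = nv a
      · subst hza
        exact joi_direct R H (stp_same R hA hC hAC g) h2
      · have hCa : Va C (nv a) := by
          refine ⟨ha, ?_⟩
          rw [nv_nv]
          exact fun h => (Finset.disjoint_left.1 hAC) hA.1 h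
        have hAz : Va A (nv z) := by
          refine ⟨hz, ?_⟩
          rw [nv_nv]
          exact fun h => (Finset.disjoint_left.1 hAC) h hC.1
        rcases le_or_gt (dg π g z) (dg π g a) with hd | hd
        · have k3 := ht_om R H g C (nv a) hCa
          rw [dg_nv] at k3
          exact joi_two R H (stp_same R hA hCa hAC g) (stp_switch R hCa hC g) (by omega) h2
        · have k3 := ht_om R H g A (nv z) hAz
          rw [dg_nv] at k3
          have hs := stp_same R hAz (by rw [nv_nv]; exact hC) hAC g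
          rw [nv_nv] at hs
          exact joi_two R H (stp_switch R hA hAz g) hs (by omega) h2
    · obtain ⟨A', hA', e⟩ := R.om_square C A z a hC hA hAC.symm hz
      have e' : om E A' z * (om E A a * g) = om E A a * (om E C z * g) := by
        rw [← mul_assoc, e, mul_assoc]
      have k3 := ht_two R H g C A z a hC hA hAC.symm hz
      refine joi_two R H (k := om E A a * (om E C z * g)) ?_ ?_ (by omega) h2
      · rw [← e']
        exact stp_om R hA' _
      · exact stp_symm R (stp_om R hA _)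
  · obtain ⟨A', hA', e⟩ := R.om_square A C a z hA hC hAC ha
    have e' : om E A' a * (om E C z * g) = om E C z * (om E A a * g) := by
      rw [← mul_assoc, e, mul_assoc]
    have k3 := ht_two R H g A C a z hA hC hAC ha
    refine joi_two R H (k := om E C z * (om E A a * g)) (stp_om R hC _) ?_ (by omega) h2
    apply stp_symm R
    rw [← e']
    exact stp_om R hA' _

/-- Compatible case. -/
lemma joi_comp (g : P) (A C : Finset (Option (Lt α))) (a z : Lt α) (hA : Va A a) (hC : Va C z)
    (hAC : Disjoint A C ∨ C ⊆ A) (h1 : ht π (om E A a * g) ≤ ht π g)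
    (h2 : ht π (om E C z * g) < ht π g) :
    Joi W E π (ht π g) (om E A a * g) (om E C z * g) := by
  rcases hAC with h | h
  · exact joi_disj R H g A C a z hA hC h h1 h2
  · have := joi_disj R H g Aᶜ C (nv a) z hA.compl hC
      ((Finset.disjoint_left.2 fun x hx hx' => (Finset.mem_compl.1 hx) (h hx')))
      (by rwa [R.om_compl]) h2
    rwa [R.om_compl] at this

lemma joi_comp' (g : P) (C B : Finset (Option (Lt α))) (z b : Lt α) (hC : Va C z) (hB : Va B b)
    (hCB : Disjoint B C ∨ C ⊆ B) (h1 : ht π (om E C z * g) ≤ ht π g)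
    (h2 : ht π (om E B b * g) < ht π g) :
    Joi W E π (ht π g) (om E C z * g) (om E B b * g) := by
  rcases hCB with h | h
  · exact joi_disj R H g C B z b hC hB h.symm h1 h2
  · have := joi_disj R H g C Bᶜ z (nv b) hC hB.compl
      ((Finset.disjoint_left.2 fun x hx hx' => (Finset.mem_compl.1 hx') (h hx)))
      h1 (by rwa [R.om_compl])
    rwa [R.om_compl] at this

/-- Existence of a reducing corner. -/
lemma corner (g : P) (A B : Finset (Option (Lt α))) (a b : Lt α) (hA : Va A a) (hB : Va B b)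
    (h : cg π g A + cg π g B < dg π g a + dg π g b) :
    ∃ (C : Finset (Option (Lt α))) (z : Lt α), Va C z ∧ cg π g C < dg π g z ∧
      (Disjoint A C ∨ C ⊆ A) ∧ (Disjoint B C ∨ C ⊆ B) := by
  have s1 := cg_submod π g A B
  have s2 := cg_submod π g A Bᶜ
  have s3 : cg π g (A ∪ B) = cg π g (A ∪ B)ᶜ := (cg_compl π g _).symm
  have s4 : cg π g (A ∪ Bᶜ) = cg π g (B \ A) := by
    rw [← cg_compl π g (B \ A)]
    congr 1
    ext x
    simp only [Finset.mem_union, Finset.mem_compl, Finset.mem_sdiff]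
    tauto
  have s5 : A ∩ Bᶜ = A \ B := by
    ext x
    simp only [Finset.mem_inter, Finset.mem_compl, Finset.mem_sdiff]
  rw [s4, s5, cg_compl π g B] at s2
  rw [s3] at s1
  by_contra hcon
  have i1 : A ∩ B ⊆ A := Finset.inter_subset_left
  have i2 : A ∩ B ⊆ B := Finset.inter_subset_right
  have i3 : A \ B ⊆ A := Finset.sdiff_subset
  have i4 : Disjoint B (A \ B) := Finset.disjoint_sdiff
  have i5 : B \ A ⊆ B := Finset.sdiff_subset
  have i6 : Disjoint A (B \ A) := Finset.disjoint_sdiff
  have i7 : Disjoint A (A ∪ B)ᶜ :=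
    Finset.disjoint_left.2 fun x hx hx' => (Finset.mem_compl.1 hx') (Finset.mem_union_left _ hx)
  have i8 : Disjoint B (A ∪ B)ᶜ :=
    Finset.disjoint_left.2 fun x hx hx' => (Finset.mem_compl.1 hx') (Finset.mem_union_right _ hx)
  have mk : ∀ (C : Finset (Option (Lt α))) (z : Lt α), (Disjoint A C ∨ C ⊆ A) →
      (Disjoint B C ∨ C ⊆ B) → some z ∈ C → some (nv z) ∉ C → dg π g z ≤ cg π g C := by
    intro C z u1 u2 u3 u4
    by_contra hlt
    exact hcon ⟨C, z, ⟨u3, u4⟩, by omega, u1, u2⟩
  have t1 : some a ∈ B → dg π g a ≤ cg π g (A ∩ B) := fun u => by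
    refine mk _ _ (Or.inr i1) (Or.inr i2) (Finset.mem_inter.2 ⟨hA.1, u⟩) ?_
    exact fun v => hA.2 (Finset.mem_inter.1 v).1
  have t2 : some a ∉ B → dg π g a ≤ cg π g (A \ B) := fun u => by
    refine mk _ _ (Or.inr i3) (Or.inl i4) (Finset.mem_sdiff.2 ⟨hA.1, u⟩) ?_
    exact fun v => hA.2 (Finset.mem_sdiff.1 v).1
  have t3 : some (nv a) ∈ B → dg π g a ≤ cg π g (B \ A) := fun u => by
    rw [← dg_nv]
    refine mk _ _ (Or.inl i6) (Or.inr i5) (Finset.mem_sdiff.2 ⟨u, hA.2⟩) ?_
    rw [nv_nv]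
    exact fun v => (Finset.mem_sdiff.1 v).2 hA.1
  have t4 : some (nv a) ∉ B → dg π g a ≤ cg π g (A ∪ B)ᶜ := fun u => by
    rw [← dg_nv]
    refine mk _ _ (Or.inl i7) (Or.inl i8) ?_ ?_
    · rw [Finset.mem_compl, Finset.mem_union, not_or]
      exact ⟨hA.2, u⟩
    · rw [nv_nv, Finset.mem_compl, not_not]
      exact Finset.mem_union_left _ hA.1
  have t5 : some b ∈ A → dg π g b ≤ cg π g (A ∩ B) := fun u => by
    refine mk _ _ (Or.inr i1) (Or.inr i2) (Finset.mem_inter.2 ⟨u, hB.1⟩) ?_
    exact fun v => hB.2 (Finset.mem_inter.1 v).2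
  have t6 : some b ∉ A → dg π g b ≤ cg π g (B \ A) := fun u => by
    refine mk _ _ (Or.inl i6) (Or.inr i5) (Finset.mem_sdiff.2 ⟨hB.1, u⟩) ?_
    exact fun v => hB.2 (Finset.mem_sdiff.1 v).1
  have t7 : some (nv b) ∈ A → dg π g b ≤ cg π g (A \ B) := fun u => by
    rw [← dg_nv]
    refine mk _ _ (Or.inr i3) (Or.inl i4) (Finset.mem_sdiff.2 ⟨u, hB.2⟩) ?_
    rw [nv_nv]
    exact fun v => (Finset.mem_sdiff.1 v).2 hB.1
  have t8 : some (nv b) ∉ A → dg π g b ≤ cg π g (A ∪ B)ᶜ := fun u => by
    rw [← dg_nv]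
    refine mk _ _ (Or.inl i7) (Or.inl i8) ?_ ?_
    · rw [Finset.mem_compl, Finset.mem_union, not_or]
      exact ⟨u, hB.2⟩
    · rw [nv_nv, Finset.mem_compl, not_not]
      exact Finset.mem_union_right _ hB.1
  by_cases c1 : some a ∈ B <;> by_cases c2 : some (nv a) ∈ B <;> by_cases c3 : some b ∈ A <;>
    by_cases c4 : some (nv b) ∈ A <;>
    simp only [c1, c2, c3, c4, not_true_eq_false, not_false_eq_true, forall_const,
      IsEmpty.forall_iff] at t1 t2 t3 t4 t5 t6 t7 t8 <;> omega

lemma joi_om (g : P) (A B : Finset (Option (Lt α))) (a b : Lt α) (hA : Va A a) (hB : Va B b)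
    (h1 : ht π (om E A a * g) ≤ ht π g) (h2 : ht π (om E B b * g) < ht π g) :
    Joi W E π (ht π g) (om E A a * g) (om E B b * g) := by
  have k1 := ht_om R H g A a hA
  have k2 := ht_om R H g B b hB
  obtain ⟨C, z, hC, hlt, cA, cB⟩ := corner R H g A B a b hA hB (by omega)
  have k3 := ht_om R H g C z hC
  have h3 : ht π (om E C z * g) < ht π g := by omega
  obtain ⟨k, s1, s2, s3⟩ := joi_comp R H g A C a z hA hC cA h1 h3
  obtain ⟨l, t1, t2, t3⟩ := joi_comp' R H g C B z b hC hB cB h3.le h2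
  refine ⟨k, s1, s2, s3.trans ?_⟩
  exact Relation.ReflTransGen.head ⟨t1, h3, t2⟩ t3

/-- The peak lemma. -/
lemma peak (g g₁ g₂ : P) (s₁ : Stp W E g g₁) (s₂ : Stp W E g g₂) (h1 : ht π g₁ ≤ ht π g)
    (h2 : ht π g₂ < ht π g) : Joi W E π (ht π g) g₁ g₂ := by
  obtain ⟨w, A, a, hA, rfl⟩ := s₁
  obtain ⟨v, B, b, hB, rfl⟩ := s₂
  rw [ht_W R H] at h1 h2
  obtain ⟨k, t1, t2, t3⟩ := joi_om R H g A B a b hA hB h1 h2
  refine ⟨k, stp_W_right R w t1, t2, t3.tail ⟨stp_W R v _, h2, ?_⟩⟩
  rwa [ht_W R H]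

lemma conn_descend (N : ℕ) (x y : P) (hx : ht π x < N) (hy : ht π y < N)
    (h : Conn W E π (N + 1) x y) : Conn W E π N x y := by
  have key : ∀ y, Conn W E π (N + 1) x y → (ht π y < N → Conn W E π N x y) ∧
      (ht π y = N → ∀ g', Stp W E y g' → ht π g' < N → Conn W E π N x g') := by
    intro y hxy
    induction hxy with
    | refl => exact ⟨fun _ => Relation.ReflTransGen.refl, fun h => by omega⟩
    | @tail y z _ hyz ih =>
      obtain ⟨s, h3, h4⟩ := hyz
      rcases lt_or_eq_of_le (Nat.lt_succ_iff.1 h3) with hy' | hy'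
      · have c1 := ih.1 hy'
        refine ⟨fun hz => c1.tail ⟨s, hy', hz⟩, fun hz g' s' hg' => ?_⟩
        obtain ⟨k, t1, t2, t3⟩ := peak R H z y g' (stp_symm R s) s' (by omega) (by omega)
        rw [hz] at t2 t3
        exact (c1.tail ⟨t1, hy', t2⟩).trans t3
      · have c2 := ih.2 hy'
        refine ⟨fun hz => c2 z s hz, fun hz g' s' hg' => ?_⟩
        obtain ⟨k, t1, t2, t3⟩ := peak R H z y g' (stp_symm R s) s' (by omega) (by omega)
        rw [hz] at t2 t3
        exact (c2 k t1 t2).trans t3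
  exact (key y h).1 hy

lemma conn_min (M : ℕ) (x : P) (hx : ht π x = ht π 1) (h : Conn W E π M 1 x)
    (hM : ht π 1 < M) : Conn W E π (ht π 1 + 1) 1 x := by
  obtain ⟨k, rfl⟩ := Nat.exists_eq_add_of_lt hM
  induction k with
  | zero => simpa using h
  | succ k ih =>
    apply ih _ (by omega)
    apply conn_descend R H _ _ _ (by omega) (by omega)
    exact h

end peak

end Pool.Agent.Helper156.OF
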