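import Pool.Agent.Helper156.OF.Swp
import Pool.Agent.Helper156.OF.CProd

set_option autoImplicit false
set_option linter.unusedSectionVars false

namespace Pool.Agent.Helper156.OF

/-- The relations between signed permutations and elementary transformations. -/
structure Rel {α P : Type} [DecidableEq α] [Group P] (W : SP α →* P) (E : Lt α → Lt α → P) :
    Prop where
  junk : ∀ x a : Lt α, x.1 = a.1 → E x a = 1
  e0 : ∀ (w : SP α) (x a : Lt α), W w * E x a * (W w)⁻¹ =
    E ((w : Equiv.Perm (Lt α)) x) ((w : Equiv.Perm (Lt α)) a)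
  e1 : ∀ x a : Lt α, E x (nv a) = (E x a)⁻¹
  e2 : ∀ x y a b : Lt α, x ≠ y → x.1 ≠ b.1 → y.1 ≠ a.1 → Commute (E x a) (E y b)
  e3 : ∀ x y z : Lt α, x.1 ≠ y.1 → x.1 ≠ z.1 → y.1 ≠ z.1 →
    E y z * E x y * (E y z)⁻¹ = E x y * E x z
  e4 : ∀ (a b : Lt α) (σ : SP α), a.1 ≠ b.1 → (σ : Equiv.Perm (Lt α)) a = nv b →
    (σ : Equiv.Perm (Lt α)) b = a →
    (∀ c : Lt α, c.1 ≠ a.1 → c.1 ≠ b.1 → (σ : Equiv.Perm (Lt α)) c = c) →
    E (nv a) b * E b a = W σ * E a b

variable {α P : Type} [DecidableEq α] [Fintype α] [Group P]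

/-- The signed permutation `a ↦ b⁻¹`, `b ↦ a`. -/
def sg (a b : Lt α) : SP α := swp b (nv b) * swp a b

lemma sg_left {a b : Lt α} : (sg a b : Equiv.Perm (Lt α)) a = nv b := by
  simp [sg]

lemma sg_right {a b : Lt α} (h : a.1 ≠ b.1) : (sg a b : Equiv.Perm (Lt α)) b = a := by
  simp [sg]
  exact swp_other h (by simpa using h)

lemma sg_other {a b c : Lt α} (h1 : c.1 ≠ a.1) (h2 : c.1 ≠ b.1) :
    (sg a b : Equiv.Perm (Lt α)) c = c := by
  simp [sg, swp_other h1 h2]
  exact swp_other h2 (by simpa using h2)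

namespace Rel

variable {W : SP α →* P} {E : Lt α → Lt α → P} (R : Rel W E)

include R

lemma comm_same (a x y : Lt α) : Commute (E x a) (E y a) := by
  by_cases hxy : x = y
  · subst hxy
    exact Commute.refl _
  · by_cases hx : x.1 = a.1
    · rw [R.junk x a hx]
      exact Commute.one_left _
    · by_cases hy : y.1 = a.1
      · rw [R.junk y a hy]
        exact Commute.one_right _
      · exact R.e2 x y a a hxy hx hy

lemma pc (a : Lt α) : PC (fun x => E x a) := fun x y => R.comm_same a x y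

/-- `e3` with the inverse of `y`. -/
lemma e3' (x y z : Lt α) (h1 : x.1 ≠ y.1) (h2 : x.1 ≠ z.1) (h3 : y.1 ≠ z.1) :
    E (nv y) z * E x y * (E (nv y) z)⁻¹ = (E x z)⁻¹ * E x y := by
  have h := R.e3 x (nv y) z (by simpa using h1) h2 (by simpa using h3)
  rw [R.e1 x y] at h
  have h' := congrArg (fun t => t⁻¹) h
  simp only [mul_inv_rev, inv_inv] at h'
  rw [← h']
  group

/-- Conjugation of `E y z` by `E x y`. -/
lemma e3c (x y z : Lt α) (h1 : x.1 ≠ y.1) (h2 : x.1 ≠ z.1) (h3 : y.1 ≠ z.1) :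
    (E x y)⁻¹ * E y z * E x y = E x z * E y z := by
  have h := R.e3 x y z h1 h2 h3
  have : E y z * E x y = E x y * E x z * E y z := by rw [← h]; group
  rw [mul_assoc, this]
  group

/-- Conjugation of `E (nv y) z` by `E x y`. -/
lemma e3d (x y z : Lt α) (h1 : x.1 ≠ y.1) (h2 : x.1 ≠ z.1) (h3 : y.1 ≠ z.1) :
    E x y * E (nv y) z * (E x y)⁻¹ = E x z * E (nv y) z := by
  have h := R.e3c x (nv y) z (by simpa using h1) h2 (by simpa using h3)
  rw [R.e1 x y, inv_inv] at h
  exact h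

/-- The rank two relation. -/
lemma rank2 (y z : Lt α) (h : y.1 ≠ z.1) :
    E z y * E (nv z) y * (E y z)⁻¹ = E (nv y) z * (E z y * E (nv z) y) := by
  set σ := sg y z with hσ
  have s1 : (σ : Equiv.Perm (Lt α)) y = nv z := sg_left
  have s2 : (σ : Equiv.Perm (Lt α)) z = y := sg_right h
  have s3 : ∀ c : Lt α, c.1 ≠ y.1 → c.1 ≠ z.1 → (σ : Equiv.Perm (Lt α)) c = c :=
    fun c => sg_other
  have k1 := R.e4 y z σ h s1 s2 s3
  have k2 := R.e4 (nv y) (nv z) σ (by simpa using h) (by rw [SP.map_nv, s1])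
    (by rw [SP.map_nv, s2]) (fun c h1 h2 => s3 c (by simpa using h1) (by simpa using h2))
  rw [nv_nv, R.e1, R.e1, R.e1] at k2
  have k3 : E (nv z) y = E (nv y) z * (W σ)⁻¹ * (E y z)⁻¹ := by
    have := congrArg (fun t => t⁻¹) k2
    simp only [mul_inv_rev, inv_inv] at this
    rw [← this]
    group
  have k4 : (W σ)⁻¹ * (E y z)⁻¹ * W σ = E z y := by
    have := R.e0 σ z (nv y)
    rw [s2, SP.map_nv, s1, nv_nv, R.e1] at this
    rw [← this]
    group
  have k5 : (W σ)⁻¹ * E z y * W σ = E (nv y) z := by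
    have := R.e0 σ (nv y) z
    rw [s2, SP.map_nv, s1, nv_nv] at this
    rw [← this]
    group
  have k6 : Commute (E (nv y) z) (E y z) := R.comm_same z _ _
  have k7 : E z y * E (nv y) z * E z y = W σ * E y z * E (nv y) z := by
    calc E z y * E (nv y) z * E z y = E z y * (W σ * E y z) := by rw [mul_assoc, k1]
      _ = W σ * ((W σ)⁻¹ * E z y * W σ) * E y z := by group
      _ = W σ * (E (nv y) z * E y z) := by rw [k5, mul_assoc]
      _ = W σ * E y z * E (nv y) z := by rw [k6.eq, mul_assoc]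
  calc E z y * E (nv z) y * (E y z)⁻¹
      = E z y * E (nv y) z * ((W σ)⁻¹ * (E y z)⁻¹ * W σ) * (W σ)⁻¹ * (E y z)⁻¹ := by
        rw [k3]; group
    _ = (E z y * E (nv y) z * E z y) * (W σ)⁻¹ * (E y z)⁻¹ := by rw [k4]
    _ = W σ * E y z * (E (nv y) z * (W σ)⁻¹ * (E y z)⁻¹) := by rw [k7]; group
    _ = E (nv y) z * E z y * E (nv z) y := by rw [← k3, k1]
    _ = E (nv y) z * (E z y * E (nv z) y) := by rw [mul_assoc]

end Rel

end Pool.Agent.Helper156.OF
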