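import Pool.Agent.Helper156.OF.Defs

set_option autoImplicit false
set_option linter.unusedSectionVars false

namespace Pool.Agent.Helper156.OF

variable {α : Type} [DecidableEq α]

/-- The function of the signed transposition exchanging `x` and `y`. -/
def swpFun (x y c : Lt α) : Lt α :=
  if c = x then y else if c = nv x then nv y else if c = y then x else if c = nv y then nv x else c

lemma swpFun_nv (x y c : Lt α) : swpFun x y (nv c) = nv (swpFun x y c) := by
  unfold swpFun
  simp only [nv_inj, nv_eq_iff, nv_nv]
  by_cases h1 : c = x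
  · subst h1
    simp [ne_nv]
  · by_cases h2 : c = nv x
    · subst h2
      simp [nv_ne]
    · by_cases h3 : c = y
      · subst h3
        simp [h1, h2, ne_nv]
      · by_cases h4 : c = nv y
        · subst h4
          simp [h1, h2, nv_ne]
        · simp [h1, h2, h3, h4]

lemma swpFun_invol (x y c : Lt α) : swpFun x y (swpFun x y c) = c := by
  unfold swpFun
  by_cases h1 : c = x
  · subst h1
    simp only [if_true]
    by_cases h2 : y = c
    · simp [h2]
    · by_cases h3 : y = nv c
      · simp [h3, nv_ne]
      · simp [h2, h3]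
  · by_cases h2 : c = nv x
    · subst h2
      simp only [nv_ne, if_false, if_true]
      by_cases h3 : nv y = x
      · simp [h3, nv_eq_iff.1 h3]
      · by_cases h4 : y = x
        · subst h4
          simp [nv_ne]
        · have h5 : nv y ≠ nv x := fun h => h4 (nv_inj.1 h)
          by_cases h6 : nv y = y
          · exact absurd h6 (nv_ne y)
          · simp [h3, h5, h6]
    · by_cases h3 : c = y
      · subst h3
        simp [h1, h2]
      · by_cases h4 : c = nv y
        · subst h4
          simp [h1, h2, nv_ne]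
        · simp [h1, h2, h3, h4]

/-- The signed transposition exchanging `x` and `y` (and `x⁻¹` and `y⁻¹`); for `y = x⁻¹` it is the
inversion of `x`. -/
def swp (x y : Lt α) : SP α :=
  ⟨⟨swpFun x y, swpFun x y, swpFun_invol x y, swpFun_invol x y⟩, swpFun_nv x y⟩

lemma swp_apply (x y c : Lt α) : (swp x y : Equiv.Perm (Lt α)) c = swpFun x y c := rfl

@[simp] lemma swp_left (x y : Lt α) : (swp x y : Equiv.Perm (Lt α)) x = y := by
  simp [swp_apply, swpFun]

@[simp] lemma swp_right (x y : Lt α) : (swp x y : Equiv.Perm (Lt α)) y = x := by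
  have := swpFun_invol x y x
  rw [swp_apply]
  rwa [show swpFun x y x = y by simp [swpFun]] at this

lemma swp_other {x y c : Lt α} (h1 : c.1 ≠ x.1) (h2 : c.1 ≠ y.1) :
    (swp x y : Equiv.Perm (Lt α)) c = c := by
  have a1 : c ≠ x := fun h => h1 (h ▸ rfl)
  have a2 : c ≠ nv x := fun h => h1 (h ▸ rfl)
  have a3 : c ≠ y := fun h => h2 (h ▸ rfl)
  have a4 : c ≠ nv y := fun h => h2 (h ▸ rfl)
  simp [swp_apply, swpFun, a1, a2, a3, a4]

lemma swp_mul_self (x y : Lt α) : swp x y * swp x y = 1 := by
  apply Subtype.ext
  ext c : 1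
  exact swpFun_invol x y c

lemma swp_inv (x y : Lt α) : (swp x y)⁻¹ = swp x y :=
  inv_eq_of_mul_eq_one_left (swp_mul_self x y)

lemma SP_ext {σ τ : SP α} (h : ∀ x, (σ : Equiv.Perm (Lt α)) x = (τ : Equiv.Perm (Lt α)) x) :
    σ = τ := Subtype.ext (Equiv.ext h)

end Pool.Agent.Helper156.OF
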