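import Pool.Agent.Helper156.OF.Inn

set_option autoImplicit false
set_option linter.unusedSectionVars false

namespace Pool.Agent.Helper156.OF

variable {α P : Type} [DecidableEq α] [Fintype α] [Group P]

/-- The index of an extended letter. -/
def xf (x : Option (Lt α)) : Option α := x.map Prod.fst

@[simp] lemma xf_some (x : Lt α) : xf (some x) = some x.1 := rfl

@[simp] lemma xf_none : xf (none : Option (Lt α)) = none := rfl

/-- Extended elementary elements; the base point is also allowed to be moved. -/
noncomputable def xE (E : Lt α → Lt α → P) : Option (Lt α) → Lt α → P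
  | some x, a => E x a
  | none, a => (inn E a)⁻¹

@[simp] lemma xE_some (E : Lt α → Lt α → P) (x a : Lt α) : xE E (some x) a = E x a := rfl

lemma xE_none (E : Lt α → Lt α → P) (a : Lt α) : xE E none a = (inn E a)⁻¹ := rfl

namespace Rel

variable {W : SP α →* P} {E : Lt α → Lt α → P} (R : Rel W E)

include R

lemma x1 (x : Option (Lt α)) (a : Lt α) : xE E x (nv a) = (xE E x a)⁻¹ := by
  cases x with
  | none => rw [xE_none, xE_none, R.inn_nv]
  | some x => exact R.e1 x a

lemma xjunk (x : Option (Lt α)) (a : Lt α) (h : xf x = some a.1) : xE E x a = 1 := by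
  cases x with
  | none => simp at h
  | some x => exact R.junk x a (by simpa using h)

lemma x2 (x y : Option (Lt α)) (a b : Lt α) (hxy : x ≠ y) (h1 : xf x ≠ some b.1)
    (h2 : xf y ≠ some a.1) : Commute (xE E x a) (xE E y b) := by
  cases x with
  | none =>
    cases y with
    | none => exact absurd rfl hxy
    | some y => exact (R.inn_comm a y b (by simpa using h2)).inv_left
  | some x =>
    cases y with
    | none => exact (R.inn_comm b x a (by simpa using h1)).symm.inv_right
    | some y =>
      exact R.e2 x y a b (fun h => hxy (congrArg some h)) (by simpa using h1) (by simpa using h2)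

lemma xpc (a : Lt α) : PC (fun x => xE E x a) := by
  intro x y
  by_cases hxy : x = y
  · subst hxy
    exact Commute.refl _
  · by_cases hx : xf x = some a.1
    · change Commute (xE E x a) (xE E y a)
      rw [R.xjunk x a hx]
      exact Commute.one_left _
    · by_cases hy : xf y = some a.1
      · change Commute (xE E x a) (xE E y a)
        rw [R.xjunk y a hy]
        exact Commute.one_right _
      · exact R.x2 x y a a hxy hx hy

lemma x3 (x : Option (Lt α)) (y z : Lt α) (h1 : xf x ≠ some y.1) (h2 : xf x ≠ some z.1)
    (h3 : y.1 ≠ z.1) : E y z * xE E x y * (E y z)⁻¹ = xE E x y * xE E x z := by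
  cases x with
  | none =>
    rw [xE_none, xE_none, ← mul_inv_rev, ← R.inn_conj y z h3]
    group
  | some x => exact R.e3 x y z (by simpa using h1) (by simpa using h2) h3

lemma x3' (x : Option (Lt α)) (y z : Lt α) (h1 : xf x ≠ some y.1) (h2 : xf x ≠ some z.1)
    (h3 : y.1 ≠ z.1) : E (nv y) z * xE E x y * (E (nv y) z)⁻¹ = (xE E x z)⁻¹ * xE E x y := by
  have h := R.x3 x (nv y) z (by simpa using h1) h2 (by simpa using h3)
  rw [R.x1 x y] at h
  have h' := congrArg (fun t => t⁻¹) h
  simp only [mul_inv_rev, inv_inv] at h'
  rw [← h']
  group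

lemma x3c (x : Option (Lt α)) (y z : Lt α) (h1 : xf x ≠ some y.1) (h2 : xf x ≠ some z.1)
    (h3 : y.1 ≠ z.1) : (xE E x y)⁻¹ * E y z * xE E x y = xE E x z * E y z := by
  have h := R.x3 x y z h1 h2 h3
  have : E y z * xE E x y = xE E x y * xE E x z * E y z := by rw [← h]; group
  rw [mul_assoc, this]
  group

lemma inn_w (w : SP α) (a : Lt α) :
    W w * inn E a * (W w)⁻¹ = inn E ((w : Equiv.Perm (Lt α)) a) := by
  unfold inn
  rw [conj_cprod]
  have h1 : (Finset.univ : Finset (Lt α)) =
      Finset.univ.image (fun x => (w : Equiv.Perm (Lt α)) x) := by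
    ext x
    simp only [Finset.mem_univ, Finset.mem_image, true_and, true_iff]
    exact ⟨(w : Equiv.Perm (Lt α)).symm x, by simp⟩
  conv_rhs => rw [h1]
  rw [cprod_image (R.pc _) _ _ (w : Equiv.Perm (Lt α)).injective]
  exact cprod_congr fun x _ => R.e0 w x a

lemma x0 (w : SP α) (x : Option (Lt α)) (a : Lt α) :
    W w * xE E x a * (W w)⁻¹ =
      xE E (x.map (w : Equiv.Perm (Lt α))) ((w : Equiv.Perm (Lt α)) a) := by
  cases x with
  | none =>
    rw [Option.map_none, xE_none, xE_none, ← R.inn_w w a]
    group
  | some x => exact R.e0 w x a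

lemma x8 (a : Lt α) : cprod (fun x => xE E x a) (Finset.univ : Finset (Option (Lt α))) = 1 := by
  have h : (Finset.univ : Finset (Option (Lt α))) = insert none (Finset.univ.image some) := by
    ext x
    cases x <;> simp
  rw [h, cprod_insert (R.xpc a) (by simp),
    cprod_image (R.xpc a) _ _ (Option.some_injective _)]
  simp only [xE_none, xE_some]
  exact inv_mul_cancel _

end Rel

/-- The element attached to a set of half-edges and a letter. -/
noncomputable def om (E : Lt α → Lt α → P) (A : Finset (Option (Lt α))) (a : Lt α) : P :=
  cprod (fun x => xE E x a) A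

/-- Valid Whitehead data. -/
def Va (A : Finset (Option (Lt α))) (a : Lt α) : Prop := some a ∈ A ∧ some (nv a) ∉ A

namespace Rel

variable {W : SP α →* P} {E : Lt α → Lt α → P} (R : Rel W E)

include R

lemma om_nv (A : Finset (Option (Lt α))) (a : Lt α) : om E A (nv a) = (om E A a)⁻¹ := by
  unfold om
  rw [cprod_inv (R.xpc a)]
  exact cprod_congr fun x _ => R.x1 x a

lemma om_insert_same (A : Finset (Option (Lt α))) (a b : Lt α) (h : b.1 = a.1) :
    om E (insert (some b) A) a = om E A a :=
  cprod_insert_one (R.xpc a) (R.xjunk _ _ (by simpa using h))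

lemma om_erase_same (A : Finset (Option (Lt α))) (a b : Lt α) (h : b.1 = a.1) :
    om E (A.erase (some b)) a = om E A a :=
  cprod_erase_one (R.xpc a) (R.xjunk _ _ (by simpa using h))

lemma om_union (A C : Finset (Option (Lt α))) (a : Lt α) (h : Disjoint A C) :
    om E (A ∪ C) a = om E A a * om E C a := cprod_union (R.xpc a) h

lemma om_compl (A : Finset (Option (Lt α))) (a : Lt α) : om E Aᶜ (nv a) = om E A a := by
  have h := R.om_union A Aᶜ a disjoint_compl_right
  rw [Finset.union_compl] at h
  unfold om at h
  rw [R.x8] at h
  rw [R.om_nv]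
  exact (eq_inv_of_mul_eq_one_left h.symm).symm

lemma om_single (a : Lt α) : om E {some a} a = 1 := by
  unfold om
  rw [cprod_singleton]
  exact R.xjunk _ _ rfl

lemma om_w (w : SP α) (A : Finset (Option (Lt α))) (a : Lt α) :
    W w * om E A a * (W w)⁻¹ =
      om E (A.image (Option.map (w : Equiv.Perm (Lt α)))) ((w : Equiv.Perm (Lt α)) a) := by
  unfold om
  rw [conj_cprod, cprod_image (R.xpc _) _ _
    (Option.map_injective (w : Equiv.Perm (Lt α)).injective)]
  exact cprod_congr fun x _ => R.x0 w x a

/-- Commutation of Whitehead elements with disjoint sets. -/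
lemma om_comm (A C : Finset (Option (Lt α))) (a z : Lt α) (hAC : Disjoint A C)
    (h1 : some a ∉ C) (h2 : some (nv a) ∉ C) (h3 : some z ∉ A) (h4 : some (nv z) ∉ A) :
    Commute (om E A a) (om E C z) := by
  have notin : ∀ (B : Finset (Option (Lt α))) (b : Lt α), some b ∉ B → some (nv b) ∉ B →
      ∀ x ∈ B, xf x ≠ some b.1 := by
    intro B b hb hb' x hx h
    cases x with
    | none => simp at h
    | some x =>
      rw [xf_some] at h
      rcases fst_eq_iff.1 (Option.some_injective _ h) with h | h
      · exact hb (h ▸ hx)
      · exact hb' (h ▸ hx)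
  apply cprod_commute'
  intro x hx
  apply cprod_commute
  intro y hy
  refine R.x2 x y a z ?_ (notin A z h3 h4 x hx) (notin C a h1 h2 y hy)
  rintro rfl
  exact (Finset.disjoint_left.1 hAC) hx hy

/-- The square relation. -/
lemma om_square (A C : Finset (Option (Lt α))) (a z : Lt α) (hA : Va A a) (hC : Va C z)
    (hAC : Disjoint A C) (ha : some (nv a) ∉ C) :
    ∃ A', Va A' a ∧ om E A' a * om E C z = om E C z * om E A a := by
  have ha' : some a ∉ C := fun h => (Finset.disjoint_left.1 hAC) hA.1 h
  have hz' : some z ∉ A := fun h => (Finset.disjoint_left.1 hAC) h hC.1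
  have haz : a.1 ≠ z.1 := by
    intro h
    rcases fst_eq_iff.1 h with h | h
    · exact ha' (h ▸ hC.1)
    · rw [h, nv_nv] at ha
      exact ha hC.1
  by_cases hz : some (nv z) ∈ A
  · refine ⟨(A ∪ C).erase (some z), ⟨?_, ?_⟩, ?_⟩
    · refine Finset.mem_erase.2 ⟨fun h => haz ?_, Finset.mem_union_left _ hA.1⟩
      rw [Option.some_injective _ h]
    · intro h
      rcases Finset.mem_union.1 (Finset.mem_of_mem_erase h) with h | h
      · exact hA.2 h
      · exact ha h
    · set A₀ := A.erase (some (nv z)) with hA₀
      set C₀ := C.erase (some z) with hC₀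
      have f1 : om E A a = om E A₀ a * E (nv z) a := by
        have := cprod_erase (R.xpc a) hz
        change om E A a = _ at this
        rw [this]
        exact (cprod_commute (y := xE E (some (nv z)) a)
          (fun x _ => R.xpc a (some (nv z)) x)).eq
      have c1 : Commute (om E A₀ a) (om E C z) := by
        refine R.om_comm A₀ C a z ?_ ha' ha ?_ ?_
        · exact hAC.mono_left (Finset.erase_subset _ _)
        · exact fun h => hz' (Finset.mem_of_mem_erase h)
        · exact Finset.notMem_erase _ _
      have f2 : om E C z = om E C₀ z := (R.om_erase_same C z z rfl).symm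
      have hx0 : ∀ x ∈ C₀, xf x ≠ some z.1 ∧ xf x ≠ some a.1 := by
        intro x hx
        have hxC := Finset.mem_of_mem_erase hx
        cases x with
        | none => simp
        | some x =>
          refine ⟨fun h => ?_, fun h => ?_⟩
          · rw [xf_some] at h
            rcases fst_eq_iff.1 (Option.some_injective _ h) with h | h
            · rw [h] at hx
              exact (Finset.notMem_erase _ _) hx
            · rw [h] at hxC
              exact hC.2 hxC
          · rw [xf_some] at h
            rcases fst_eq_iff.1 (Option.some_injective _ h) with h | h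
            · exact ha' (h ▸ hxC)
            · exact ha (h ▸ hxC)
      have f3 : E (nv z) a * om E C z * (E (nv z) a)⁻¹ = (om E C₀ a)⁻¹ * om E C z := by
        rw [f2]
        have hS : ∀ S : Finset (Option (Lt α)), S ⊆ C₀ →
            E (nv z) a * om E S z * (E (nv z) a)⁻¹ = (om E S a)⁻¹ * om E S z := by
          intro S
          induction S using Finset.induction_on with
          | empty => intro _; simp [om]
          | insert x S hx ih =>
            intro hS
            have ih' := ih (fun t ht => hS (Finset.mem_insert_of_mem ht))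
            have hxx := hx0 x (hS (Finset.mem_insert_self _ _))
            have g1 : om E (insert x S) z = xE E x z * om E S z := cprod_insert (R.xpc z) hx
            have g2 : om E (insert x S) a = xE E x a * om E S a := cprod_insert (R.xpc a) hx
            have g3 := R.x3' x z a hxx.1 hxx.2 (Ne.symm haz)
            have g4 : Commute (xE E x z) (om E S a) := by
              apply cprod_commute
              intro t ht
              have htt := hx0 t (hS (Finset.mem_insert_of_mem ht))
              exact R.x2 x t z a (fun h => hx (h ▸ ht)) hxx.2 htt.1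
            have g5 : Commute (xE E x a) (om E S a) := cprod_commute fun t _ => R.xpc a x t
            rw [g1, g2]
            calc E (nv z) a * (xE E x z * om E S z) * (E (nv z) a)⁻¹
                = (E (nv z) a * xE E x z * (E (nv z) a)⁻¹) *
                  (E (nv z) a * om E S z * (E (nv z) a)⁻¹) := by group
              _ = ((xE E x a)⁻¹ * xE E x z) * ((om E S a)⁻¹ * om E S z) := by rw [g3, ih']
              _ = (xE E x a)⁻¹ * (xE E x z * (om E S a)⁻¹) * om E S z := by group
              _ = (xE E x a)⁻¹ * ((om E S a)⁻¹ * xE E x z) * om E S z := by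
                  rw [g4.inv_right.eq]
              _ = ((om E S a * xE E x a)⁻¹) * (xE E x z * om E S z) := by group
              _ = ((xE E x a * om E S a)⁻¹) * (xE E x z * om E S z) := by rw [g5.eq]
        exact hS C₀ (Finset.Subset.refl _)
      have f4 : om E C₀ a * E (nv z) a * om E C z = om E C z * E (nv z) a := by
        have : E (nv z) a * om E C z = (om E C₀ a)⁻¹ * om E C z * E (nv z) a := by
          rw [← f3]; group
        rw [mul_assoc, this]
        group
      have hset : (A ∪ C).erase (some z) = A₀ ∪ (insert (some (nv z)) C₀) := by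
        ext x
        simp only [hA₀, hC₀, Finset.mem_erase, Finset.mem_union, Finset.mem_insert]
        constructor
        · rintro ⟨h1, h2 | h2⟩
          · by_cases h3 : x = some (nv z)
            · exact Or.inr (Or.inl h3)
            · exact Or.inl ⟨h3, h2⟩
          · exact Or.inr (Or.inr ⟨h1, h2⟩)
        · rintro (⟨h1, h2⟩ | h | ⟨h1, h2⟩)
          · exact ⟨fun h => hz' (h ▸ h2), Or.inl h2⟩
          · refine ⟨fun h' => ?_, Or.inl (h ▸ hz)⟩
            rw [h] at h'
            exact nv_ne z (Option.some_injective _ h')
          · exact ⟨h1, Or.inr h2⟩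
      have hd : Disjoint A₀ (insert (some (nv z)) C₀) := by
        rw [Finset.disjoint_insert_right]
        refine ⟨Finset.notMem_erase _ _, ?_⟩
        exact (hAC.mono_left (Finset.erase_subset _ _)).mono_right (Finset.erase_subset _ _)
      have hnz : some (nv z) ∉ C₀ := fun h => hC.2 (Finset.mem_of_mem_erase h)
      have f5 : om E ((A ∪ C).erase (some z)) a = om E A₀ a * (om E C₀ a * E (nv z) a) := by
        rw [hset, R.om_union _ _ _ hd]
        congr 1
        have := cprod_insert (R.xpc a) hnz
        change om E (insert (some (nv z)) C₀) a = _ at this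
        rw [this]
        exact (cprod_commute (y := xE E (some (nv z)) a)
          (fun x _ => R.xpc a (some (nv z)) x)).eq
      rw [f5, mul_assoc, f4, ← mul_assoc, c1.eq, f1, mul_assoc]
  · exact ⟨A, hA, (R.om_comm A C a z hAC ha' ha hz' hz).eq⟩

/-- Changing the letter. -/
lemma om_switch (A : Finset (Option (Lt α))) (a b : Lt α) (hA : Va A a) (hB : Va A b)
    (hab : a ≠ b) :
    om E (insert (some (nv a)) (A.erase (some a))) b * om E A a = W (sg a b) * om E A b := by
  have h1 : a.1 ≠ b.1 := by
    intro h
    rcases fst_eq_iff.1 h with h | h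
    · exact hab h
    · apply hB.2
      rw [h] at hA
      exact hA.1
  set D := (A.erase (some a)).erase (some b) with hD
  have haD : some a ∉ D := fun h => (Finset.notMem_erase _ _) (Finset.mem_of_mem_erase h)
  have hbD : some b ∉ D := Finset.notMem_erase _ _
  have hnaD : some (nv a) ∉ D :=
    fun h => hA.2 (Finset.mem_of_mem_erase (Finset.mem_of_mem_erase h))
  have hnbD : some (nv b) ∉ D :=
    fun h => hB.2 (Finset.mem_of_mem_erase (Finset.mem_of_mem_erase h))
  have hDx : ∀ x ∈ D, xf x ≠ some a.1 ∧ xf x ≠ some b.1 := by
    intro x hx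
    cases x with
    | none => simp
    | some x =>
      refine ⟨fun h => ?_, fun h => ?_⟩
      · rcases fst_eq_iff.1 (Option.some_injective _ h) with h | h
        · exact haD (h ▸ hx)
        · exact hnaD (h ▸ hx)
      · rcases fst_eq_iff.1 (Option.some_injective _ h) with h | h
        · exact hbD (h ▸ hx)
        · exact hnbD (h ▸ hx)
  have hbA : some b ∈ A.erase (some a) :=
    Finset.mem_erase.2 ⟨fun h => hab (Option.some_injective _ h).symm, hB.1⟩
  have comm1 : ∀ (x : Option (Lt α)) (S : Finset (Option (Lt α))) (c : Lt α),
      Commute (xE E x c) (om E S c) := fun x S c => cprod_commute fun t _ => R.xpc c x t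
  have f1 : om E A a = E b a * om E D a := by
    rw [← R.om_erase_same A a a rfl]
    exact cprod_erase (R.xpc a) hbA
  have f2 : om E A b = om E D b * E a b := by
    have h2 : om E A b = xE E (some a) b * om E (A.erase (some a)) b :=
      cprod_erase (R.xpc b) hA.1
    rw [h2, ← R.om_erase_same (A.erase (some a)) b b rfl, ← hD]
    exact (comm1 _ _ _).eq
  have f3 : om E (insert (some (nv a)) (A.erase (some a))) b = om E D b * E (nv a) b := by
    have hna : some (nv a) ∉ A.erase (some a) := fun h => hA.2 (Finset.mem_of_mem_erase h)
    have h2 : om E (insert (some (nv a)) (A.erase (some a))) b =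
        xE E (some (nv a)) b * om E (A.erase (some a)) b := cprod_insert (R.xpc b) hna
    rw [h2, ← R.om_erase_same (A.erase (some a)) b b rfl, ← hD]
    exact (comm1 _ _ _).eq
  have k4 := R.e4 a b (sg a b) h1 sg_left (sg_right h1) (fun c => sg_other)
  have hsD : D.image (Option.map (sg a b : Equiv.Perm (Lt α))) = D := by
    ext x
    simp only [Finset.mem_image]
    constructor
    · rintro ⟨y, hy, rfl⟩
      cases y with
      | none => exact hy
      | some y =>
        have := hDx _ hy
        rw [Option.map_some, sg_other (by simpa using this.1) (by simpa using this.2)]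
        exact hy
    · intro hx
      refine ⟨x, hx, ?_⟩
      cases x with
      | none => rfl
      | some y =>
        have := hDx _ hx
        rw [Option.map_some, sg_other (by simpa using this.1) (by simpa using this.2)]
  have k5 : W (sg a b) * om E D (nv a) * (W (sg a b))⁻¹ = om E D b := by
    rw [R.om_w, hsD, SP.map_nv, sg_left, nv_nv]
  have k6 : ∀ S : Finset (Option (Lt α)), S ⊆ D →
      (om E S a)⁻¹ * E a b * om E S a = om E S b * E a b := by
    intro S
    induction S using Finset.induction_on with
    | empty => intro _; simp [om]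
    | insert x S hx ih =>
      intro hS
      have ih' := ih (fun t ht => hS (Finset.mem_insert_of_mem ht))
      have hxx := hDx x (hS (Finset.mem_insert_self _ _))
      have g1 : om E (insert x S) b = xE E x b * om E S b := cprod_insert (R.xpc b) hx
      have g2 : om E (insert x S) a = xE E x a * om E S a := cprod_insert (R.xpc a) hx
      have g3 := R.x3c x a b hxx.1 hxx.2 h1
      have g4 : Commute (xE E x b) (om E S a) := by
        apply cprod_commute
        intro t ht
        have htt := hDx t (hS (Finset.mem_insert_of_mem ht))
        exact R.x2 x t b a (fun h => hx (h ▸ ht)) hxx.1 htt.2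
      rw [g1, g2]
      calc (xE E x a * om E S a)⁻¹ * E a b * (xE E x a * om E S a)
          = (om E S a)⁻¹ * ((xE E x a)⁻¹ * E a b * xE E x a) * om E S a := by group
        _ = (om E S a)⁻¹ * (xE E x b * E a b) * om E S a := by rw [g3]
        _ = ((om E S a)⁻¹ * xE E x b) * E a b * om E S a := by group
        _ = (xE E x b * (om E S a)⁻¹) * E a b * om E S a := by rw [g4.inv_right.eq]
        _ = xE E x b * ((om E S a)⁻¹ * E a b * om E S a) := by group
        _ = xE E x b * om E S b * E a b := by rw [ih', mul_assoc]
  have k7 := k6 D (Finset.Subset.refl _)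
  rw [f3, f1, f2]
  calc om E D b * E (nv a) b * (E b a * om E D a)
      = om E D b * (E (nv a) b * E b a) * om E D a := by group
    _ = (W (sg a b) * om E D (nv a) * (W (sg a b))⁻¹) * (W (sg a b) * E a b) * om E D a := by
        rw [k4, k5]
    _ = W (sg a b) * (om E D (nv a) * E a b * om E D a) := by group
    _ = W (sg a b) * ((om E D a)⁻¹ * E a b * om E D a) := by rw [R.om_nv]
    _ = W (sg a b) * (om E D b * E a b) := by rw [k7]

end Rel

end Pool.Agent.Helper156.OF
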